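import Pool.Agent.Lib.MP_939494_pr.Merge

/-!
# The block counting process of the coalescent

The expectation of a function of the number of blocks depends only on the initial number of
blocks, and solves the backward equation.
-/

open MeasureTheory Finset
open scoped ENNReal NNReal unitInterval

namespace Pool.Agent.Lib.MP_939494_pr

section Exp

variable {m : Type*} [Fintype m] [DecidableEq m]

theorem hasDerivAt_exp_entry (A : Matrix m m ℝ) (t : ℝ) (i j : m) :
    HasDerivAt (fun t : ℝ => NormedSpace.exp (t • A) i j)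
      ((A * NormedSpace.exp (t • A)) i j) t := by
  let _ : NormedRing (Matrix m m ℝ) := Matrix.linftyOpNormedRing
  let _ : NormedAlgebra ℝ (Matrix m m ℝ) := Matrix.linftyOpNormedAlgebra
  have h := hasDerivAt_exp_smul_const' (𝕂 := ℝ) A t
  exact ((Matrix.entryLinearMap ℝ ℝ i j).toContinuousLinearMap).hasFDerivAt.comp_hasDerivAt t h

end Exp

/-- The expectation of `h` of the number of blocks at time `t`, starting from `π`. -/
noncomputable def cE (Λ : Measure I) (h : ℕ → ℝ) (n : ℕ) (π : Part n) (t : ℝ) : ℝ :=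
  ∑ π' : Part n, NormedSpace.exp (t • coalGenerator Λ n) π π' * h π'.parts.card

theorem cE_zero (Λ : Measure I) (h : ℕ → ℝ) (n : ℕ) (π : Part n) :
    cE Λ h n π 0 = h π.parts.card := by
  unfold cE
  simp [NormedSpace.exp_zero, Matrix.one_apply]

theorem hasDerivAt_cE (Λ : Measure I) (h : ℕ → ℝ) (n : ℕ) (π : Part n) (t : ℝ) :
    HasDerivAt (cE Λ h n π) (∑ π', coalGenerator Λ n π π' * cE Λ h n π' t) t := by
  have h1 : HasDerivAt (fun t : ℝ => ∑ π' : Part n,
      NormedSpace.exp (t • coalGenerator Λ n) π π' * h π'.parts.card)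
      (∑ π' : Part n, (coalGenerator Λ n * NormedSpace.exp (t • coalGenerator Λ n)) π π' *
        h π'.parts.card) t := by
    refine HasDerivAt.fun_sum fun π' _ => ?_
    exact (hasDerivAt_exp_entry _ _ _ _).mul_const _
  refine h1.congr_deriv ?_
  unfold cE
  simp_rw [Matrix.mul_apply, Finset.sum_mul, Finset.mul_sum]
  rw [Finset.sum_comm]
  refine Finset.sum_congr rfl fun _ _ => Finset.sum_congr rfl fun _ _ => ?_
  ring

/-- The total rate of mergers of `k` blocks out of `n`. -/
noncomputable def rate (Λ : Measure I) (n k : ℕ) : ℝ := (n.choose k : ℝ) * mergeRate Λ n k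

/-- The generator of the block counting process. -/
noncomputable def gen (Λ : Measure I) (φ : ℕ → ℝ) (n : ℕ) : ℝ :=
  ∑ k ∈ Finset.Icc 2 n, rate Λ n k * (φ (n + 1 - k) - φ n)

/-- A linear scalar equation has at most one solution. -/
theorem scalar_unique (q : ℝ) (a : ℝ → ℝ) (y z : ℝ → ℝ)
    (hy : ∀ t, HasDerivAt y (a t - q * y t) t) (hz : ∀ t, HasDerivAt z (a t - q * z t) t)
    (h0 : y 0 = z 0) : y = z := by
  have hd : ∀ t, HasDerivAt (fun t => Real.exp (q * t) * (y t - z t)) 0 t := by
    intro t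
    have h1 : HasDerivAt (fun t => Real.exp (q * t)) (Real.exp (q * t) * q) t := by
      have := ((hasDerivAt_id t).const_mul q).exp
      simpa using this
    have h2 := h1.mul ((hy t).sub (hz t))
    refine h2.congr_deriv ?_
    simp only [Pi.sub_apply]
    ring
  have hc : ∀ t, Real.exp (q * t) * (y t - z t) = Real.exp (q * 0) * (y 0 - z 0) := fun t =>
    is_const_of_deriv_eq_zero (fun t => (hd t).differentiableAt) (fun t => (hd t).deriv) t 0
  funext t
  have := hc t
  rw [h0, sub_self, mul_zero] at this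
  rcases mul_eq_zero.1 this with h | h
  · exact absurd h (Real.exp_pos _).ne'
  · linarith

theorem sum_attach_powerset_dite {α : Type*} [DecidableEq α] (s : Finset α) (f : ℕ → ℝ)
    (F : ∀ J : Finset α, J ⊆ s → 2 ≤ J.card → ℝ)
    (hF : ∀ (J : Finset α) (h1 : J ⊆ s) (h2 : 2 ≤ J.card), F J h1 h2 = f J.card) :
    (∑ J ∈ s.powerset.attach, if h : 2 ≤ J.1.card then F J.1 (mem_powerset.1 J.2) h else 0) =
      ∑ k ∈ Finset.Icc 2 s.card, (s.card.choose k : ℝ) * f k := by
  have h1 : (∑ J ∈ s.powerset.attach,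
      if h : 2 ≤ J.1.card then F J.1 (mem_powerset.1 J.2) h else 0) =
      ∑ J ∈ s.powerset.attach, (fun J : Finset α => if 2 ≤ J.card then f J.card else 0) J.1 := by
    refine Finset.sum_congr rfl fun J _ => ?_
    simp only
    split_ifs with h
    · exact hF _ _ _
    · rfl
  rw [h1, Finset.sum_attach s.powerset (fun J : Finset α => if 2 ≤ J.card then f J.card else 0),
    Finset.sum_powerset_apply_card (fun k => if 2 ≤ k then f k else 0)]
  have h2 : Finset.Icc 2 s.card ⊆ Finset.range (s.card + 1) := by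
    intro k hk
    rw [Finset.mem_Icc] at hk
    rw [Finset.mem_range]
    omega
  rw [← Finset.sum_subset h2]
  · refine Finset.sum_congr rfl fun k hk => ?_
    rw [Finset.mem_Icc] at hk
    rw [if_pos hk.1, nsmul_eq_mul]
  · intro k hk hk'
    rw [Finset.mem_range] at hk
    rw [Finset.mem_Icc] at hk'
    rw [if_neg (by omega), smul_zero]

theorem cE_lump (Λ : Measure I) (h : ℕ → ℝ) (b : ℕ) :
    ∀ (n : ℕ) (π : Part n) (n' : ℕ) (π' : Part n'), π.parts.card = b → π'.parts.card = b →
      cE Λ h n π = cE Λ h n' π' := by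
  induction b using Nat.strong_induction_on with
  | _ b ih =>
  intro n π n' π' hπ hπ'
  -- the common value for fewer blocks
  classical
  let u : ℕ → ℝ → ℝ := fun c => if hc : ∃ (m : ℕ) (τ : Part m), τ.parts.card = c then
    cE Λ h hc.choose hc.choose_spec.choose else 0
  have hu : ∀ c < b, ∀ (m : ℕ) (τ : Part m), τ.parts.card = c → cE Λ h m τ = u c := by
    intro c hc m τ hτ
    have hex : ∃ (m : ℕ) (τ : Part m), τ.parts.card = c := ⟨m, τ, hτ⟩
    simp only [u]
    rw [dif_pos hex]
    exact ih c hc m τ _ _ hτ hex.choose_spec.choose_spec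
  have key : ∀ (m : ℕ) (τ : Part m), τ.parts.card = b → ∀ t,
      HasDerivAt (cE Λ h m τ)
        ((∑ k ∈ Finset.Icc 2 b, (b.choose k : ℝ) * (mergeRate Λ b k * u (b + 1 - k) t)) -
          (∑ k ∈ Finset.Icc 2 b, (b.choose k : ℝ) * mergeRate Λ b k) * cE Λ h m τ t) t := by
    intro m τ hτ t
    refine (hasDerivAt_cE Λ h m τ t).congr_deriv ?_
    rw [generator_apply Λ m τ (fun π' => cE Λ h m π' t)]
    rw [sum_attach_powerset_dite τ.parts
      (fun k => mergeRate Λ b k * (u (b + 1 - k) t - cE Λ h m τ t))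
      (fun J h1 h2 => mergeRate Λ τ.parts.card J.card *
          (cE Λ h m (mergeP τ J h1 (card_pos.1 (by omega))) t - cE Λ h m τ t))]
    · rw [hτ, Finset.sum_mul, ← Finset.sum_sub_distrib]
      refine Finset.sum_congr rfl fun k _ => ?_
      ring
    · intro J h1 h2
      have hle := card_le_card h1
      have hcard := mergeP_card τ J h1 (card_pos.1 (by omega))
      rw [hu (b + 1 - J.card) (by omega) m _ (by rw [hcard, hτ]), hτ]
  have hm := key n π hπ
  have hm' := key n' π' hπ'
  refine scalar_unique _ (fun t => ∑ k ∈ Finset.Icc 2 b, (b.choose k : ℝ) *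
    (mergeRate Λ b k * u (b + 1 - k) t)) _ _ hm hm' ?_
  rw [cE_zero, cE_zero, hπ, hπ']

/-- The expectation of `h` of the number of blocks at time `t`, starting from `n` singletons. -/
noncomputable def bE (Λ : Measure I) (h : ℕ → ℝ) (n : ℕ) (t : ℝ) : ℝ :=
  ∑ π : Part n, coalProb Λ n t π * h π.parts.card

theorem bE_eq (Λ : Measure I) (h : ℕ → ℝ) (n : ℕ) : bE Λ h n = cE Λ h n ⊥ := rfl

theorem card_bot_part (n : ℕ) : (⊥ : Part n).parts.card = n := by
  rw [Finpartition.card_bot, Finset.card_univ, Fintype.card_fin]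

theorem bE_zero (Λ : Measure I) (h : ℕ → ℝ) (n : ℕ) : bE Λ h n 0 = h n := by
  rw [bE_eq, cE_zero, card_bot_part]

theorem cE_eq_bE (Λ : Measure I) (h : ℕ → ℝ) (n : ℕ) (π : Part n) :
    cE Λ h n π = bE Λ h π.parts.card := by
  rw [bE_eq]
  exact cE_lump Λ h π.parts.card n π π.parts.card ⊥ rfl (card_bot_part _)

/-- The backward equation. -/
theorem hasDerivAt_bE (Λ : Measure I) (h : ℕ → ℝ) (n : ℕ) (t : ℝ) :
    HasDerivAt (bE Λ h n) (gen Λ (fun k => bE Λ h k t) n) t := by
  rw [bE_eq]
  refine (hasDerivAt_cE Λ h n ⊥ t).congr_deriv ?_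
  rw [generator_apply Λ n ⊥ (fun π' => cE Λ h n π' t)]
  rw [sum_attach_powerset_dite (⊥ : Part n).parts
    (fun k => mergeRate Λ n k * (bE Λ h (n + 1 - k) t - bE Λ h n t))
    (fun J h1 h2 => mergeRate Λ (⊥ : Part n).parts.card J.card *
        (cE Λ h n (mergeP ⊥ J h1 (card_pos.1 (by omega))) t - cE Λ h n ⊥ t))]
  · rw [card_bot_part]
    unfold gen rate
    refine Finset.sum_congr rfl fun k _ => ?_
    ring
  · intro J h1 h2
    have hcard := mergeP_card ⊥ J h1 (card_pos.1 (by omega))
    rw [cE_eq_bE, hcard, card_bot_part, bE_eq Λ h n]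

end Pool.Agent.Lib.MP_939494_pr
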