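import Pool.Agent.Lib.MP_939494_pr.Chain

/-!
# Comparison principle for the block counting process
-/

open MeasureTheory Finset
open scoped ENNReal NNReal unitInterval

namespace Pool.Agent.Lib.MP_939494_pr

theorem mergeRate_nonneg (Λ : Measure I) (b k : ℕ) : 0 ≤ mergeRate Λ b k := by
  unfold mergeRate
  refine integral_nonneg fun u => ?_
  have h0 : (0 : ℝ) ≤ u := u.2.1
  have h1 : (0 : ℝ) ≤ 1 - u := sub_nonneg.2 u.2.2
  positivity

theorem rate_nonneg (Λ : Measure I) (n k : ℕ) : 0 ≤ rate Λ n k :=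
  mul_nonneg (Nat.cast_nonneg _) (mergeRate_nonneg Λ n k)

/-- A scalar linear differential inequality. -/
theorem scalar_nonneg (q : ℝ) (y y' : ℝ → ℝ) (hy : ∀ t, 0 ≤ t → HasDerivAt y (y' t) t)
    (hle : ∀ t, 0 ≤ t → -(q * y t) ≤ y' t) (h0 : 0 ≤ y 0) (t : ℝ) (ht : 0 ≤ t) : 0 ≤ y t := by
  have hd : ∀ t, 0 ≤ t → HasDerivAt (fun t => Real.exp (q * t) * y t)
      (Real.exp (q * t) * (y' t + q * y t)) t := by
    intro t ht
    have h1 : HasDerivAt (fun t => Real.exp (q * t)) (Real.exp (q * t) * q) t := by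
      have := ((hasDerivAt_id t).const_mul q).exp
      simpa using this
    refine (h1.mul (hy t ht)).congr_deriv ?_
    ring
  have hmono : MonotoneOn (fun t => Real.exp (q * t) * y t) (Set.Ici 0) := by
    refine monotoneOn_of_deriv_nonneg (convex_Ici 0) ?_ ?_ ?_
    · intro t ht
      exact (hd t ht).continuousAt.continuousWithinAt
    · intro t ht
      rw [interior_Ici] at ht
      exact (hd t (le_of_lt ht)).differentiableAt.differentiableWithinAt
    · intro t ht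
      rw [interior_Ici] at ht
      rw [(hd t (le_of_lt ht)).deriv]
      have := hle t (le_of_lt ht)
      exact mul_nonneg (Real.exp_pos _).le (by linarith)
  have := hmono (Set.mem_Ici.2 le_rfl) (Set.mem_Ici.2 ht) ht
  simp only [mul_zero, Real.exp_zero, one_mul] at this
  have h2 : 0 ≤ Real.exp (q * t) * y t := le_trans h0 this
  exact nonneg_of_mul_nonneg_right h2 (Real.exp_pos _)

/-- Comparison principle. -/
theorem compare (Λ : Measure I) (m₀ : ℕ) (hm₀ : m₀ ≤ 1) (w w' : ℕ → ℝ → ℝ)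
    (hd : ∀ n, m₀ ≤ n → ∀ t, 0 ≤ t → HasDerivAt (w n) (w' n t) t)
    (hle : ∀ n, m₀ ≤ n → ∀ t, 0 ≤ t → gen Λ (fun k => w k t) n ≤ w' n t)
    (h0 : ∀ n, m₀ ≤ n → 0 ≤ w n 0) : ∀ n, m₀ ≤ n → ∀ t, 0 ≤ t → 0 ≤ w n t := by
  intro n
  induction n using Nat.strong_induction_on with
  | _ n ih =>
  intro hn
  refine scalar_nonneg (∑ k ∈ Finset.Icc 2 n, rate Λ n k) (w n) (w' n) (hd n hn) ?_ (h0 n hn)
  intro t ht
  refine le_trans ?_ (hle n hn t ht)
  unfold gen
  rw [Finset.sum_mul, ← Finset.sum_neg_distrib]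
  refine Finset.sum_le_sum fun k hk => ?_
  rw [Finset.mem_Icc] at hk
  have h1 := ih (n + 1 - k) (by omega) (by omega) t ht
  have h2 := rate_nonneg Λ n k
  nlinarith [mul_nonneg h2 h1]

theorem gen_sub (Λ : Measure I) (φ ψ : ℕ → ℝ) (n : ℕ) :
    gen Λ (fun k => φ k - ψ k) n = gen Λ φ n - gen Λ ψ n := by
  unfold gen
  rw [← Finset.sum_sub_distrib]
  refine Finset.sum_congr rfl fun k _ => ?_
  ring

theorem gen_const (Λ : Measure I) (c : ℝ) (n : ℕ) : gen Λ (fun _ => c) n = 0 := by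
  unfold gen
  simp

theorem gen_congr (Λ : Measure I) (φ ψ : ℕ → ℝ) (n : ℕ) (h : ∀ k, φ k = ψ k) :
    gen Λ φ n = gen Λ ψ n := by
  have : φ = ψ := funext h
  rw [this]

theorem bE_mono (Λ : Measure I) (m₀ : ℕ) (hm₀ : m₀ ≤ 1) (h h' : ℕ → ℝ)
    (hh : ∀ n, m₀ ≤ n → h n ≤ h' n) (n : ℕ) (hn : m₀ ≤ n) (t : ℝ) (ht : 0 ≤ t) :
    bE Λ h n t ≤ bE Λ h' n t := by
  have := compare Λ m₀ hm₀ (fun n t => bE Λ h' n t - bE Λ h n t)
    (fun n t => gen Λ (fun k => bE Λ h' k t) n - gen Λ (fun k => bE Λ h k t) n)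
    (fun n _ t _ => (hasDerivAt_bE Λ h' n t).sub (hasDerivAt_bE Λ h n t))
    (fun n _ t _ => (gen_sub Λ _ _ n).le)
    (fun n hn => by simp only [bE_zero]; linarith [hh n hn]) n hn t ht
  linarith

/-- Supersolutions of the backward equation dominate the semigroup. -/
theorem bE_le_super (Λ : Measure I) (m₀ : ℕ) (hm₀ : m₀ ≤ 1) (h : ℕ → ℝ) (w w' : ℕ → ℝ → ℝ)
    (hd : ∀ n, m₀ ≤ n → ∀ t, 0 ≤ t → HasDerivAt (w n) (w' n t) t)
    (hle : ∀ n, m₀ ≤ n → ∀ t, 0 ≤ t → gen Λ (fun k => w k t) n ≤ w' n t)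
    (h0 : ∀ n, m₀ ≤ n → h n ≤ w n 0) (n : ℕ) (hn : m₀ ≤ n) (t : ℝ) (ht : 0 ≤ t) :
    bE Λ h n t ≤ w n t := by
  have := compare Λ m₀ hm₀ (fun n t => w n t - bE Λ h n t)
    (fun n t => w' n t - gen Λ (fun k => bE Λ h k t) n)
    (fun n hn t ht => (hd n hn t ht).sub (hasDerivAt_bE Λ h n t))
    (fun n hn t ht => by
      simp only [gen_sub]
      linarith [hle n hn t ht])
    (fun n hn => by simp only [bE_zero]; linarith [h0 n hn]) n hn t ht
  linarith

theorem bE_congr (Λ : Measure I) (h h' : ℕ → ℝ) (hh : ∀ n, h n = h' n) (n : ℕ) (t : ℝ) :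
    bE Λ h n t = bE Λ h' n t := by
  have : h = h' := funext hh
  rw [this]

theorem bE_add (Λ : Measure I) (h h' : ℕ → ℝ) (n : ℕ) (t : ℝ) :
    bE Λ (fun k => h k + h' k) n t = bE Λ h n t + bE Λ h' n t := by
  unfold bE
  rw [← Finset.sum_add_distrib]
  exact Finset.sum_congr rfl fun _ _ => by ring

theorem bE_sub (Λ : Measure I) (h h' : ℕ → ℝ) (n : ℕ) (t : ℝ) :
    bE Λ (fun k => h k - h' k) n t = bE Λ h n t - bE Λ h' n t := by
  unfold bE
  rw [← Finset.sum_sub_distrib]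
  exact Finset.sum_congr rfl fun _ _ => by ring

theorem bE_smul (Λ : Measure I) (c : ℝ) (h : ℕ → ℝ) (n : ℕ) (t : ℝ) :
    bE Λ (fun k => c * h k) n t = c * bE Λ h n t := by
  unfold bE
  rw [Finset.mul_sum]
  exact Finset.sum_congr rfl fun _ _ => by ring

/-- Uniqueness for the backward equation. -/
theorem bE_unique (Λ : Measure I) (h : ℕ → ℝ) (w : ℕ → ℝ → ℝ)
    (hd : ∀ n t, 0 ≤ t → HasDerivAt (w n) (gen Λ (fun k => w k t) n) t)
    (h0 : ∀ n, w n 0 = h n) (n : ℕ) (t : ℝ) (ht : 0 ≤ t) :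
    bE Λ h n t = w n t := by
  have h1 := compare Λ 0 zero_le_one (fun n t => w n t - bE Λ h n t)
    (fun n t => gen Λ (fun k => w k t) n - gen Λ (fun k => bE Λ h k t) n)
    (fun n hn t ht => (hd n t ht).sub (hasDerivAt_bE Λ h n t))
    (fun n hn t ht => (gen_sub Λ _ _ n).le)
    (fun n hn => by simp only [bE_zero]; linarith [h0 n]) n (Nat.zero_le _) t ht
  have h2 := compare Λ 0 zero_le_one (fun n t => bE Λ h n t - w n t)
    (fun n t => gen Λ (fun k => bE Λ h k t) n - gen Λ (fun k => w k t) n)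
    (fun n hn t ht => (hasDerivAt_bE Λ h n t).sub (hd n t ht))
    (fun n hn t ht => (gen_sub Λ _ _ n).le)
    (fun n hn => by simp only [bE_zero]; linarith [h0 n]) n (Nat.zero_le _) t ht
  linarith

theorem bE_const (Λ : Measure I) (c : ℝ) (n : ℕ) (t : ℝ) (ht : 0 ≤ t) :
    bE Λ (fun _ => c) n t = c :=
  bE_unique Λ (fun _ => c) (fun _ _ => c)
    (fun n t _ => by rw [gen_const]; exact hasDerivAt_const t c) (fun _ => rfl) n t ht

theorem bE_semigroup (Λ : Measure I) (h : ℕ → ℝ) (n : ℕ) (s t : ℝ) (ht : 0 ≤ t) :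
    bE Λ h n (s + t) = bE Λ (fun k => bE Λ h k s) n t := by
  symm
  refine bE_unique Λ _ (fun n t => bE Λ h n (s + t)) (fun n t _ => ?_) (fun n => by simp) n t ht
  have h1 := hasDerivAt_bE Λ h n (s + t)
  exact HasDerivAt.comp_const_add s t h1

theorem exp_entry_nonneg (Λ : Measure I) (n : ℕ) (π' : Part n) (b : ℕ) :
    ∀ π : Part n, π.parts.card = b → ∀ t : ℝ, 0 ≤ t →
      0 ≤ NormedSpace.exp (t • coalGenerator Λ n) π π' := by
  induction b using Nat.strong_induction_on with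
  | _ b ih =>
  intro π hπ
  refine scalar_nonneg (∑ J ∈ (π.parts.powerset).attach, if 2 ≤ J.1.card then
        mergeRate Λ π.parts.card J.1.card else 0)
    (fun t => NormedSpace.exp (t • coalGenerator Λ n) π π')
    (fun t => (coalGenerator Λ n * NormedSpace.exp (t • coalGenerator Λ n)) π π')
    (fun t _ => hasDerivAt_exp_entry _ _ _ _) ?_ ?_
  · intro t ht
    rw [Matrix.mul_apply, generator_apply Λ n π
      (fun π'' => NormedSpace.exp (t • coalGenerator Λ n) π'' π'), Finset.sum_mul,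
      ← Finset.sum_neg_distrib]
    refine Finset.sum_le_sum fun J _ => ?_
    split_ifs with h
    · have hJ := mem_powerset.1 J.2
      have hcard := mergeP_card π J.1 hJ (card_pos.1 (by omega))
      have hle := card_le_card hJ
      have h1 := ih ((mergeP π J.1 hJ (card_pos.1 (by omega))).parts.card) (by omega) _ rfl t ht
      have h2 := mergeRate_nonneg Λ π.parts.card J.1.card
      nlinarith [mul_nonneg h2 h1]
    · simp
  · simp only [zero_smul, NormedSpace.exp_zero, Matrix.one_apply]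
    split_ifs <;> norm_num

theorem coalProb_nonneg (Λ : Measure I) (n : ℕ) (t : ℝ) (ht : 0 ≤ t) (π : Part n) :
    0 ≤ coalProb Λ n t π :=
  exp_entry_nonneg Λ n π _ ⊥ rfl t ht

theorem coalProb_sum (Λ : Measure I) (n : ℕ) (t : ℝ) (ht : 0 ≤ t) :
    ∑ π : Part n, coalProb Λ n t π = 1 := by
  have := bE_const Λ 1 n t ht
  unfold bE at this
  simpa using this

end Pool.Agent.Lib.MP_939494_pr
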