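import Pool.Agent.Lib.MP_939494_pr.Proc

/-!
# Two disjoint sets of types do not die at the same time
-/

open MeasureTheory Finset Filter Topology
open scoped ENNReal NNReal unitInterval

namespace Pool.Agent.Lib.MP_939494_pr

/-- Rational times. -/
def QT : Set ℝ≥0 := {t | ∃ q : ℚ, (t : ℝ) = q}

theorem QT_countable : QT.Countable := by
  have h : QT = ⋃ q : ℚ, {t : ℝ≥0 | (t : ℝ) = q} := by
    ext t
    simp [QT]
  rw [h]
  refine Set.countable_iUnion fun q => Set.Subsingleton.countable ?_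
  intro a ha b hb
  have ha' : (a : ℝ) = q := ha
  have hb' : (b : ℝ) = q := hb
  exact NNReal.coe_injective (ha'.trans hb'.symm)

theorem QT_add {s t : ℝ≥0} (hs : s ∈ QT) (ht : t ∈ QT) : s + t ∈ QT := by
  obtain ⟨p, hp⟩ := hs
  obtain ⟨q, hq⟩ := ht
  refine ⟨p + q, ?_⟩
  push_cast
  rw [hp, hq]

theorem QT_natCast (n : ℕ) : (n : ℝ≥0) ∈ QT := ⟨n, by simp⟩

theorem QT_div (n k : ℕ) : (n : ℝ≥0) / ((k : ℝ≥0) + 1) ∈ QT := ⟨n / (k + 1), by simp⟩

theorem QT_inv (k : ℕ) : 1 / ((k : ℝ≥0) + 1) ∈ QT := ⟨1 / (k + 1), by simp⟩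

theorem G_tendsto_zero {Λ : Measure I} [IsFiniteMeasure Λ] (h1 : Λ {1} = 0) {x : ℝ}
    (hx0 : 0 ≤ x) (hx1 : x < 1) :
    Tendsto (fun m : ℕ => G Λ (((1 / ((m : ℝ≥0) + 1) : ℝ≥0)) : ℝ) x) atTop (𝓝 0) := by
  set y := max x (1 / 2) with hy
  have hy0 : 0 < y := lt_of_lt_of_le (by norm_num) (le_max_right _ _)
  have hy1 : y < 1 := max_lt hx1 (by norm_num)
  obtain ⟨t₀, ht₀, h⟩ := G_little_o h1 hy0 hy1 1 one_pos
  have hlim : Tendsto (fun m : ℕ => (((1 / ((m : ℝ≥0) + 1) : ℝ≥0)) : ℝ)) atTop (𝓝 0) := by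
    have := tendsto_one_div_add_atTop_nhds_zero_nat (𝕜 := ℝ)
    refine this.congr fun m => ?_
    simp
  refine squeeze_zero' (Eventually.of_forall fun m => G_nonneg (NNReal.coe_nonneg _) hx0) ?_ hlim
  filter_upwards [hlim.eventually (gt_mem_nhds ht₀)] with m hm
  have h2 := h _ (NNReal.coe_nonneg (1 / ((m : ℝ≥0) + 1))) hm.le
  rw [one_mul] at h2
  exact (G_mono (NNReal.coe_nonneg _) hx0 (le_max_left _ _)).trans h2

section

variable {Λ : Measure I} {Ω : Type*} [mΩ : MeasurableSpace Ω] {μ : Measure Ω}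
  {ℱ : Filtration ℝ≥0 mΩ} {ρ : ℝ≥0 → Ω → ProbabilityMeasure I}

omit mΩ in
theorem X_union (U V : Set I) (hV : MeasurableSet V) (hd : Disjoint U V) (t : ℝ≥0) (ω : Ω) :
    X ρ (U ∪ V) t ω = X ρ U t ω + X ρ V t ω := by
  unfold X
  exact measureReal_union hd hV

variable [IsProbabilityMeasure μ]

theorem dead_prob' (h : IsLambdaFlemingViot Λ μ ℱ ρ) (U : Set I) (hU : MeasurableSet U)
    (s r : ℝ≥0) (A : Set Ω) (hA : MeasurableSet[ℱ s] A) :
    μ.real (A ∩ {ω | X ρ U (s + r) ω = 0}) = ∫ ω in A, G Λ (r : ℝ) (1 - X ρ U s ω) ∂μ := by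
  have := dead_prob h U hU s (s + r) (le_add_of_nonneg_right zero_le) A hA
  rw [this]
  congr 1
  ext ω
  congr 1
  push_cast
  ring

theorem integrable_G (h : IsLambdaFlemingViot Λ μ ℱ ρ) (U : Set I) (hU : MeasurableSet U)
    (s r : ℝ≥0) : Integrable (fun ω => G Λ (r : ℝ) (1 - X ρ U s ω)) μ := by
  refine integrable_bdd _ ((measurable_G (r : ℝ)).comp
    ((measurable_const).sub (X_measurable' h U hU s))) fun ω => ?_
  have h0 := X_nonneg (ρ := ρ) U s ω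
  have h1 := X_le_one (ρ := ρ) U s ω
  rw [abs_of_nonneg (G_nonneg (NNReal.coe_nonneg r) (by linarith))]
  exact G_le_one (NNReal.coe_nonneg r) (by linarith) (by linarith)

/-- If the gap is at least `c` on `B`, then exactly one of the two sets is alive at the later
time with conditional probability at least `c`. -/
theorem half_aux (h : IsLambdaFlemingViot Λ μ ℱ ρ) (U V : Set I) (hU : MeasurableSet U)
    (hV : MeasurableSet V) (hd : Disjoint U V) (t q : ℝ≥0) (c : ℝ) (B : Set Ω)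
    (hB : MeasurableSet[ℱ t] B)
    (hgap : ∀ ω ∈ B, c ≤ G Λ (q : ℝ) (1 - X ρ U t ω) -
      G Λ (q : ℝ) (1 - X ρ U t ω - X ρ V t ω)) :
    c * μ.real B ≤ μ.real (B ∩ {ω | X ρ U (t + q) ω = 0 ∧ 0 < X ρ V (t + q) ω}) := by
  have h1 := dead_prob' h U hU t q B hB
  have h2 := dead_prob' h (U ∪ V) (hU.union hV) t q B hB
  have hB' : MeasurableSet B := ℱ.le t _ hB
  have hmU : MeasurableSet {ω | X ρ U (t + q) ω = 0} :=
    X_measurable' h U hU (t + q) (measurableSet_singleton 0)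
  have hmV : MeasurableSet {ω | X ρ (U ∪ V) (t + q) ω = 0} :=
    X_measurable' h (U ∪ V) (hU.union hV) (t + q) (measurableSet_singleton 0)
  have h3 := measureReal_inter_add_sdiff (μ := μ) (s := B ∩ {ω | X ρ U (t + q) ω = 0}) hmV
  have e1 : B ∩ {ω | X ρ U (t + q) ω = 0} ∩ {ω | X ρ (U ∪ V) (t + q) ω = 0} =
      B ∩ {ω | X ρ (U ∪ V) (t + q) ω = 0} := by
    ext ω
    simp only [Set.mem_inter_iff, Set.mem_ofPred_eq]
    have := X_union (ρ := ρ) U V hV hd (t + q) ω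
    have h0 := X_nonneg (ρ := ρ) U (t + q) ω
    have h0' := X_nonneg (ρ := ρ) V (t + q) ω
    constructor
    · rintro ⟨⟨a, _⟩, b⟩
      exact ⟨a, b⟩
    · rintro ⟨a, b⟩
      exact ⟨⟨a, by linarith⟩, b⟩
  have e2 : (B ∩ {ω | X ρ U (t + q) ω = 0}) \ {ω | X ρ (U ∪ V) (t + q) ω = 0} =
      B ∩ {ω | X ρ U (t + q) ω = 0 ∧ 0 < X ρ V (t + q) ω} := by
    ext ω
    simp only [Set.mem_inter_iff, Set.mem_ofPred_eq, Set.mem_sdiff]
    have := X_union (ρ := ρ) U V hV hd (t + q) ω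
    have h0 := X_nonneg (ρ := ρ) U (t + q) ω
    have h0' := X_nonneg (ρ := ρ) V (t + q) ω
    constructor
    · rintro ⟨⟨a, b⟩, c⟩
      refine ⟨a, b, lt_of_le_of_ne h0' fun h' => c ?_⟩
      linarith
    · rintro ⟨a, b, c⟩
      exact ⟨⟨a, b⟩, fun h' => by linarith⟩
  rw [e1, e2, h1, h2] at h3
  have h4 : ∫ ω in B, G Λ (q : ℝ) (1 - X ρ U t ω) ∂μ -
      ∫ ω in B, G Λ (q : ℝ) (1 - X ρ (U ∪ V) t ω) ∂μ =
      ∫ ω in B, (G Λ (q : ℝ) (1 - X ρ U t ω) - G Λ (q : ℝ) (1 - X ρ (U ∪ V) t ω)) ∂μ :=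
    (integral_sub (integrable_G h U hU t q).integrableOn
      (integrable_G h (U ∪ V) (hU.union hV) t q).integrableOn).symm
  have h5 : ∫ _ in B, c ∂μ ≤
      ∫ ω in B, (G Λ (q : ℝ) (1 - X ρ U t ω) - G Λ (q : ℝ) (1 - X ρ (U ∪ V) t ω)) ∂μ := by
    refine setIntegral_mono_on (integrable_const c).integrableOn
      (((integrable_G h U hU t q).sub (integrable_G h (U ∪ V) (hU.union hV) t q)).integrableOn)
      hB' fun ω hω => ?_
    have := hgap ω hω
    rw [X_union U V hV hd, ← sub_sub]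
    exact this
  rw [setIntegral_const, smul_eq_mul] at h5
  linarith

/-- A contraction estimate, when the first mass is the smallest one. -/
theorem lemK_half (h : IsLambdaFlemingViot Λ μ ℱ ρ) (U V : Set I) (hU : MeasurableSet U)
    (hV : MeasurableSet V) (hd : Disjoint U V) (t : ℝ≥0) (c : ℝ) (hc1 : c ≤ 1)
    (hgap : ∀ p q : ℝ, 0 < p → p ≤ q → p + q ≤ 1 →
      ∃ s : ℚ, 0 < s ∧ s ≤ 1 ∧ c ≤ G Λ s (1 - p) - G Λ s (1 - p - q))
    (A : Set Ω) (hA : MeasurableSet[ℱ t] A)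
    (hAX : ∀ ω ∈ A, 0 < X ρ U t ω ∧ X ρ U t ω ≤ X ρ V t ω) (N : Set Ω)
    (hN : ∀ᵐ ω ∂μ, ω ∈ N → ∀ q ∈ QT, 0 < q → q ≤ 1 →
      ¬ (X ρ U (t + q) ω = 0 ∧ 0 < X ρ V (t + q) ω)) :
    μ (A ∩ N) ≤ ENNReal.ofReal (1 - c) * μ A := by
  obtain ⟨e, he⟩ := exists_surjective_nat ℚ
  have hXU := X_measurable h U hU t
  have hXV := X_measurable h V hV t
  set E : ℕ → Set Ω := fun j => A ∩ {ω | (0 < e j ∧ e j ≤ 1) ∧
    c ≤ G Λ (e j) (1 - X ρ U t ω) - G Λ (e j) (1 - X ρ U t ω - X ρ V t ω)} with hE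
  have hEm : ∀ j, MeasurableSet[ℱ t] (E j) := by
    intro j
    refine MeasurableSet.inter hA ?_
    by_cases hj : 0 < e j ∧ e j ≤ 1
    · have hm : Measurable[ℱ t] fun ω => G Λ (e j) (1 - X ρ U t ω) -
          G Λ (e j) (1 - X ρ U t ω - X ρ V t ω) :=
        ((measurable_G (e j : ℝ)).comp (measurable_const.sub hXU)).sub
          ((measurable_G (e j : ℝ)).comp ((measurable_const.sub hXU).sub hXV))
      have e1 : {ω | (0 < e j ∧ e j ≤ 1) ∧
          c ≤ G Λ (e j) (1 - X ρ U t ω) - G Λ (e j) (1 - X ρ U t ω - X ρ V t ω)} =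
          (fun ω => G Λ (e j) (1 - X ρ U t ω) - G Λ (e j) (1 - X ρ U t ω - X ρ V t ω)) ⁻¹'
            Set.Ici c := by
        ext ω
        simp [hj]
      rw [e1]
      exact hm measurableSet_Ici
    · have e1 : {ω | (0 < e j ∧ e j ≤ 1) ∧
          c ≤ G Λ (e j) (1 - X ρ U t ω) - G Λ (e j) (1 - X ρ U t ω - X ρ V t ω)} = ∅ := by
        ext ω
        simp only [Set.mem_ofPred_eq, Set.mem_empty_iff_false, iff_false, not_and]
        intro h'
        exact absurd h' hj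
      rw [e1]
      exact @MeasurableSet.empty _ (ℱ t)
  have hcover : ⋃ j, E j = A := by
    apply Set.Subset.antisymm
    · exact Set.iUnion_subset fun j => Set.inter_subset_left
    · intro ω hω
      have h0 := hAX ω hω
      have h1 : X ρ U t ω + X ρ V t ω ≤ 1 := by
        rw [← X_union U V hV hd]
        exact X_le_one _ _ _
      obtain ⟨s, hs0, hs1, hs⟩ := hgap _ _ h0.1 h0.2 h1
      obtain ⟨j, rfl⟩ := he s
      exact Set.mem_iUnion.2 ⟨j, hω, ⟨hs0, hs1⟩, hs⟩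
  have hDm : ∀ j, MeasurableSet[ℱ t] (disjointed E j) := fun j =>
    MeasurableSet.disjointed hEm j
  have hDm' : ∀ j, MeasurableSet (disjointed E j) := fun j => ℱ.le t _ (hDm j)
  have hpiece : ∀ j, μ (disjointed E j ∩ N) ≤ ENNReal.ofReal (1 - c) * μ (disjointed E j) := by
    intro j
    have hsub : disjointed E j ⊆ E j := disjointed_subset E j
    by_cases hj : 0 < e j ∧ e j ≤ 1
    · have hej : (0 : ℝ) ≤ (e j : ℝ) := by exact_mod_cast hj.1.le
      obtain ⟨q, hq⟩ : ∃ q : ℝ≥0, (q : ℝ) = (e j : ℝ) := ⟨⟨_, hej⟩, rfl⟩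
      have hqQ : q ∈ QT := ⟨e j, hq⟩
      have hq0 : 0 < q := by
        have : (0 : ℝ) < (q : ℝ) := by rw [hq]; exact_mod_cast hj.1
        exact_mod_cast this
      have hq1 : q ≤ 1 := by
        have : (q : ℝ) ≤ 1 := by rw [hq]; exact_mod_cast hj.2
        exact_mod_cast this
      have hone := half_aux h U V hU hV hd t q c (disjointed E j) (hDm j) (by
        intro ω hω
        rw [hq]
        exact (hsub hω).2.2)
      set O : Set Ω := {ω | X ρ U (t + q) ω = 0 ∧ 0 < X ρ V (t + q) ω} with hO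
      have hOm : MeasurableSet O := by
        have e2 : O = {ω | X ρ U (t + q) ω = 0} ∩ {ω | 0 < X ρ V (t + q) ω} := rfl
        rw [e2]
        exact (X_measurable' h U hU (t + q) (measurableSet_singleton 0)).inter
          (X_measurable' h V hV (t + q) measurableSet_Ioi)
      have h1 : μ (disjointed E j ∩ N) ≤ μ (disjointed E j \ O) := by
        refine measure_mono_ae ?_
        filter_upwards [hN] with ω hω hmem
        exact ⟨hmem.1, hω hmem.2 q hqQ hq0 hq1⟩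
      have h2 : μ.real (disjointed E j \ O) ≤ (1 - c) * μ.real (disjointed E j) := by
        have := measureReal_inter_add_sdiff (μ := μ) (s := disjointed E j) hOm
        linarith
      refine h1.trans ?_
      rw [← ofReal_measureReal (μ := μ) (s := disjointed E j \ O),
        ← ofReal_measureReal (μ := μ) (s := disjointed E j), ← ENNReal.ofReal_mul (by linarith)]
      exact ENNReal.ofReal_le_ofReal h2
    · have hemp : disjointed E j = ∅ := by
        refine Set.subset_empty_iff.1 (hsub.trans ?_)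
        intro ω hω
        exact absurd hω.2.1 hj
      rw [hemp]
      simp
  calc μ (A ∩ N) = μ (⋃ j, (disjointed E j ∩ N)) := by
        rw [← Set.iUnion_inter, iUnion_disjointed, hcover]
    _ ≤ ∑' j, μ (disjointed E j ∩ N) := measure_iUnion_le _
    _ ≤ ∑' j, ENNReal.ofReal (1 - c) * μ (disjointed E j) := ENNReal.tsum_le_tsum hpiece
    _ = ENNReal.ofReal (1 - c) * μ A := by
        rw [ENNReal.tsum_mul_left, ← measure_iUnion (disjoint_disjointed E) hDm',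
          iUnion_disjointed, hcover]

/-- The contraction estimate. -/
theorem lemK (h : IsLambdaFlemingViot Λ μ ℱ ρ) (U V : Set I) (hU : MeasurableSet U)
    (hV : MeasurableSet V) (hd : Disjoint U V) (t : ℝ≥0) (c : ℝ) (hc1 : c ≤ 1)
    (hgap : ∀ p q : ℝ, 0 < p → p ≤ q → p + q ≤ 1 →
      ∃ s : ℚ, 0 < s ∧ s ≤ 1 ∧ c ≤ G Λ s (1 - p) - G Λ s (1 - p - q))
    (A : Set Ω) (hA : MeasurableSet[ℱ t] A)
    (hAX : ∀ ω ∈ A, 0 < X ρ U t ω ∧ 0 < X ρ V t ω) (N : Set Ω)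
    (hN : ∀ᵐ ω ∂μ, ω ∈ N → ∀ q ∈ QT, 0 < q → q ≤ 1 →
      ¬ (X ρ U (t + q) ω = 0 ∧ 0 < X ρ V (t + q) ω) ∧
      ¬ (X ρ V (t + q) ω = 0 ∧ 0 < X ρ U (t + q) ω)) :
    μ (A ∩ N) ≤ ENNReal.ofReal (1 - c) * μ A := by
  have hXU := X_measurable h U hU t
  have hXV := X_measurable h V hV t
  have hm : MeasurableSet[ℱ t] {ω | X ρ U t ω ≤ X ρ V t ω} := measurableSet_le hXU hXV
  have h1 := lemK_half h U V hU hV hd t c hc1 hgap (A ∩ {ω | X ρ U t ω ≤ X ρ V t ω})
    (hA.inter hm) (fun ω hω => ⟨(hAX ω hω.1).1, hω.2⟩) N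
    (by filter_upwards [hN] with ω hω hn q hq h0 h1; exact (hω hn q hq h0 h1).1)
  have h2 := lemK_half h V U hV hU hd.symm t c hc1 hgap (A \ {ω | X ρ U t ω ≤ X ρ V t ω})
    (hA.diff hm) (fun ω hω => ⟨(hAX ω hω.1).2, (not_le.1 hω.2).le⟩) N
    (by filter_upwards [hN] with ω hω hn q hq h0 h1; exact (hω hn q hq h0 h1).2)
  have hm' : MeasurableSet {ω | X ρ U t ω ≤ X ρ V t ω} := ℱ.le t _ hm
  calc μ (A ∩ N) ≤ μ (A ∩ {ω | X ρ U t ω ≤ X ρ V t ω} ∩ N) +
        μ (A \ {ω | X ρ U t ω ≤ X ρ V t ω} ∩ N) := by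
        refine le_trans (measure_mono ?_) (measure_union_le _ _)
        intro ω hω
        by_cases hle : X ρ U t ω ≤ X ρ V t ω
        · exact Or.inl ⟨⟨hω.1, hle⟩, hω.2⟩
        · exact Or.inr ⟨⟨hω.1, hle⟩, hω.2⟩
    _ ≤ ENNReal.ofReal (1 - c) * μ (A ∩ {ω | X ρ U t ω ≤ X ρ V t ω}) +
        ENNReal.ofReal (1 - c) * μ (A \ {ω | X ρ U t ω ≤ X ρ V t ω}) := add_le_add h1 h2
    _ = ENNReal.ofReal (1 - c) * μ A := by
        rw [← mul_add, measure_inter_add_sdiff A hm']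

end

end Pool.Agent.Lib.MP_939494_pr
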