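import Mathlib

/-!
# Definitions for MP_939494_pr : the Lambda Fleming-Viot process and its extinction times

* `mergeRate` : the rate at which each given group of `k` out of `b` blocks merges.
* `coalGenerator` : the rate matrix of the Lambda-coalescent on the partitions of an `n`-set.
* `coalProb` : the law at time `t` of the Lambda-coalescent started from singletons.
* `ComesDownFromInfinity`.
* `IsLambdaFlemingViot` : the Lambda Fleming-Viot process on the unit interval, dual to the
  coalescent and started from Lebesgue measure.
* `Ancestral`, `extinctionTime`, `EventE`, `IsEveSequence`.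
-/

open MeasureTheory
open scoped ENNReal NNReal unitInterval

namespace Pool.Agent.Lib.MP_939494_pr

/-- The rate at which each given group of `k` blocks merges while there are `b` blocks. -/
noncomputable def mergeRate (Λ : Measure I) (b k : ℕ) : ℝ :=
  ∫ u : I, (u : ℝ) ^ (k - 2) * (1 - (u : ℝ)) ^ (b - k) ∂Λ

/-- The partitions of an `n`-element set. -/
abbrev Part (n : ℕ) : Type := Finpartition (Finset.univ : Finset (Fin n))

/-- The rate matrix of the Lambda-coalescent on the partitions of an `n`-element set: from the
partition `π` and for every set `J` of at least two blocks of `π`, the blocks in `J` are replaced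
by their union at rate `mergeRate Λ (number of blocks of π) (number of blocks in J)`. -/
noncomputable def coalGenerator (Λ : Measure I) (n : ℕ) : Matrix (Part n) (Part n) ℝ :=
  fun π π' => ∑ J ∈ π.parts.powerset with 2 ≤ J.card,
    mergeRate Λ π.parts.card J.card *
      ((if π'.parts = insert (J.sup id) (π.parts \ J) then 1 else 0) -
        (if π' = π then 1 else 0))

/-- The probability that the Lambda-coalescent on an `n`-element set, started from singletons,
is in the state `π` at time `t`: an entry of the exponential of `t` times the rate matrix. -/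
noncomputable def coalProb (Λ : Measure I) (n : ℕ) (t : ℝ) (π : Part n) : ℝ :=
  NormedSpace.exp (t • coalGenerator Λ n) ⊥ π

/-- The Lambda-coalescent comes down from infinity: for every `t > 0`, the probability that its
restriction to `n` elements has more than `K` blocks at time `t` tends to `0` as `K` tends to
infinity, uniformly in `n`. -/
def ComesDownFromInfinity (Λ : Measure I) : Prop :=
  ∀ t : ℝ, 0 < t → ∀ ε : ℝ, 0 < ε → ∃ K : ℕ, ∀ n : ℕ,
    ∑ π : Part n with K < π.parts.card, coalProb Λ n t π ≤ ε

/-- The block of the partition `π` that contains `i`. -/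
def blockOf {n : ℕ} (π : Part n) (i : Fin n) : π.parts :=
  ⟨π.part i, π.part_mem.2 (Finset.mem_univ i)⟩

/-- `ρ` is a Lambda Fleming-Viot process on `[0,1]` on the filtered probability space
`(Ω, ℱ, μ)`, started from Lebesgue measure. -/
structure IsLambdaFlemingViot (Λ : Measure I) {Ω : Type*} [mΩ : MeasurableSpace Ω]
    (μ : Measure Ω) (ℱ : Filtration ℝ≥0 mΩ) (ρ : ℝ≥0 → Ω → ProbabilityMeasure I) : Prop where
  /-- the process is adapted to the filtration -/
  adapted : ∀ (t : ℝ≥0) (B : Set I), MeasurableSet B →
    Measurable[ℱ t] fun ω => (ρ t ω : Measure I) B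
  /-- the process starts from Lebesgue measure -/
  init : ∀ᵐ ω ∂μ, (ρ 0 ω : Measure I) = volume
  /-- the paths are right-continuous for the topology of weak convergence -/
  rightContinuous : ∀ᵐ ω ∂μ, ∀ t : ℝ≥0, ContinuousWithinAt (fun s => ρ s ω) (Set.Ici t) t
  /-- Markov property and duality with the coalescent: given `ℱ s`, a sample of size `n` from
  `ρ t` is obtained by sampling one point of `ρ s` for every block of the coalescent run for a
  time `t - s` -/
  duality : ∀ (n : ℕ) (f : (Fin n → I) → ℝ≥0∞), Measurable f → ∀ s t : ℝ≥0, s ≤ t →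
    ∀ A : Set Ω, MeasurableSet[ℱ s] A →
    ∫⁻ ω in A, ∫⁻ y, f y ∂(Measure.pi fun _ : Fin n => (ρ t ω : Measure I)) ∂μ =
      ∫⁻ ω in A, ∑ π : Part n, ENNReal.ofReal (coalProb Λ n ((t : ℝ) - (s : ℝ)) π) *
        ∫⁻ z : π.parts → I, f (fun i => z (blockOf π i))
          ∂(Measure.pi fun _ : π.parts => (ρ s ω : Measure I)) ∂μ

/-- The type `x` is ancestral if it has positive mass at some positive time. -/
def Ancestral (ρ : ℝ≥0 → ProbabilityMeasure I) (x : I) : Prop :=
  ∃ t : ℝ≥0, 0 < t ∧ 0 < (ρ t : Measure I) {x}

/-- The extinction time of the type `x`, the supremum of the times at which it has positive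
mass. -/
noncomputable def extinctionTime (ρ : ℝ≥0 → ProbabilityMeasure I) (x : I) : ℝ≥0∞ :=
  ⨆ (t : ℝ≥0) (_ : 0 < (ρ t : Measure I) {x}), (t : ℝ≥0∞)

/-- The event that two distinct ancestral types have the same extinction time. -/
def EventE {Ω : Type*} (ρ : ℝ≥0 → Ω → ProbabilityMeasure I) : Set Ω :=
  {ω | ∃ x y : I, x ≠ y ∧ Ancestral (fun t => ρ t ω) x ∧ Ancestral (fun t => ρ t ω) y ∧
    extinctionTime (fun t => ρ t ω) x = extinctionTime (fun t => ρ t ω) y}

/-- `e` is an infinite sequence of Eves: it lists exactly the ancestral types, by strictly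
decreasing extinction times. -/
structure IsEveSequence (ρ : ℝ≥0 → ProbabilityMeasure I) (e : ℕ → I) : Prop where
  /-- the terms of the sequence are exactly the ancestral types -/
  range_eq : Set.range e = {x | Ancestral ρ x}
  /-- the extinction times are strictly decreasing -/
  strictAnti : StrictAnti fun i => extinctionTime ρ (e i)

end Pool.Agent.Lib.MP_939494_pr
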