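import Pool.Agent.Lib.MP_939494_pr.Reduce

/-!
# The sequence of Eves
-/

open MeasureTheory Finset Filter Topology TopologicalSpace
open scoped ENNReal NNReal unitInterval

namespace Pool.Agent.Lib.MP_939494_pr

/-- Enumeration of a set by strictly decreasing values. -/
theorem exists_strictAnti_enum {α : Type*} (A : Set α) (f : α → ℝ≥0∞) (hinj : Set.InjOn f A)
    (hinf : A.Infinite) (hfin : ∀ x ∈ A, {y | y ∈ A ∧ f x < f y}.Finite) :
    ∃ e : ℕ → α, Set.range e = A ∧ StrictAnti fun i => f (e i) := by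
  set rk : α → ℕ := fun x => {y | y ∈ A ∧ f x < f y}.ncard with hrk
  have h1 : ∀ x ∈ A, ∀ y ∈ A, f x < f y → rk y < rk x := by
    intro x hx y hy hxy
    refine Set.ncard_lt_ncard ⟨fun z hz => ⟨hz.1, hxy.trans hz.2⟩, fun hsub => ?_⟩ (hfin x hx)
    exact lt_irrefl _ (hsub (show y ∈ {z | z ∈ A ∧ f x < f z} from ⟨hy, hxy⟩)).2
  have h2 : Set.InjOn rk A := by
    intro x hx y hy hxy
    rcases lt_trichotomy (f x) (f y) with h | h | h
    · exact absurd hxy (h1 x hx y hy h).ne'
    · exact hinj hx hy h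
    · exact absurd hxy (h1 y hy x hx h).ne
  have h3 : ∀ n : ℕ, ∃ x ∈ A, rk x = n := by
    intro n
    obtain ⟨m, ⟨x, hx, rfl⟩, hnm⟩ := (hinf.image h2).exists_gt n
    set B : Set α := {y | y ∈ A ∧ f x < f y} with hB
    have hBfin : B.Finite := hfin x hx
    have hmaps : rk '' B ⊆ (Finset.range (rk x) : Set ℕ) := by
      rintro _ ⟨y, hy, rfl⟩
      exact Finset.mem_coe.2 (Finset.mem_range.2 (h1 x hx y hy.1 hy.2))
    have hcard : (rk '' B).ncard = rk x :=
      (Set.InjOn.ncard_image (h2.mono fun y hy => hy.1))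
    have heq : rk '' B = (Finset.range (rk x) : Set ℕ) := by
      refine Set.eq_of_subset_of_ncard_le hmaps ?_ (Finset.finite_toSet _)
      rw [hcard, Set.ncard_coe_finset, Finset.card_range]
    have : n ∈ rk '' B := by
      rw [heq]
      exact Finset.mem_coe.2 (Finset.mem_range.2 hnm)
    obtain ⟨y, hy, hyn⟩ := this
    exact ⟨y, hy.1, hyn⟩
  choose e heA hek using h3
  refine ⟨e, ?_, ?_⟩
  · apply Set.Subset.antisymm
    · rintro _ ⟨i, rfl⟩
      exact heA i
    · intro x hx
      exact ⟨rk x, h2 (heA _) hx (hek _)⟩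
  · intro m n hmn
    simp only
    rcases lt_trichotomy (f (e n)) (f (e m)) with h | h | h
    · exact h
    · have := hinj (heA n) (heA m) h
      have h4 : rk (e n) = rk (e m) := by rw [this]
      rw [hek, hek] at h4
      omega
    · have h4 := h1 _ (heA m) _ (heA n) h
      rw [hek, hek] at h4
      omega

theorem types_finite {r : ℝ≥0 → ProbabilityMeasure I} (hr : GoodPath r) (s : ℝ≥0)
    (hs : s ∈ QT) (hs0 : 0 < s) : {y : I | (s : ℝ≥0∞) < extinctionTime r y}.Finite := by
  obtain ⟨S, hSf, hS⟩ := hr.fin s hs hs0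
  refine hSf.subset fun y hy => ?_
  by_contra hyS
  refine absurd (show (s : ℝ≥0∞) < extinctionTime r y from hy) (not_lt.2 ?_)
  refine extinctionTime_le fun u hu => ?_
  have h0 : (r u : Measure I) Sᶜ = 0 := open_null hr Sᶜ hSf.isClosed.isOpen_compl s u hs hu hS
  exact measure_mono_null (Set.singleton_subset_iff.2 hyS) h0

theorem ancestral_infinite {r : ℝ≥0 → ProbabilityMeasure I} (hr : GoodPath r)
    (h0 : (r 0 : Measure I) = volume) : {x | Ancestral r x}.Infinite := by
  intro hfin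
  set A := {x | Ancestral r x} with hA
  have hnull : ∀ s ∈ QT, 0 < s → (r s : Measure I) Aᶜ = 0 := by
    intro s hs hs0
    obtain ⟨S, hSf, hS⟩ := hr.fin s hs hs0
    have hsub : Aᶜ ⊆ Sᶜ ∪ ⋃ x ∈ S \ A, {x} := by
      intro y hy
      by_cases hyS : y ∈ S
      · right
        rw [Set.biUnion_of_singleton]
        exact ⟨hyS, hy⟩
      · exact Or.inl hyS
    refine measure_mono_null hsub (measure_union_null hS ?_)
    rw [measure_biUnion_null_iff (hSf.sdiff).countable]
    intro x hx
    by_contra hne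
    exact hx.2 ⟨s, hs0, pos_iff_ne_zero.2 hne⟩
  have hex : ∀ n : ℕ, ∃ u ∈ QT, 0 < u ∧ u < 1 / ((n : ℝ≥0) + 1) := fun n =>
    QT_between (by positivity)
  choose u huQ hu1 hu2 using hex
  have hulim : Tendsto u atTop (𝓝[Set.Ici 0] 0) := by
    refine tendsto_nhdsWithin_iff.2 ⟨?_, Eventually.of_forall fun n => (hu1 n).le⟩
    have h1 : Tendsto (fun n : ℕ => 1 / ((n : ℝ≥0) + 1)) atTop (𝓝 0) := by
      rw [← NNReal.tendsto_coe]
      have := tendsto_one_div_add_atTop_nhds_zero_nat (𝕜 := ℝ)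
      refine this.congr fun m => ?_
      simp
    exact tendsto_of_tendsto_of_tendsto_of_le_of_le tendsto_const_nhds h1
      (fun n => (hu1 n).le) (fun n => (hu2 n).le)
  have hlim : Tendsto (fun n => r (u n)) atTop (𝓝 (r 0)) := (hr.rc 0).tendsto.comp hulim
  have hle := ProbabilityMeasure.le_liminf_measure_open_of_tendsto hlim
    hfin.isClosed.isOpen_compl
  have hzero : ∀ n, (r (u n) : Measure I) Aᶜ = 0 := fun n => hnull _ (huQ n) (hu1 n)
  simp_rw [hzero] at hle
  rw [liminf_const, h0] at hle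
  have h1 : (volume : Measure I) A = 0 := hfin.measure_zero _
  have h2 : (volume : Measure I) Set.univ ≤ volume A + volume Aᶜ := by
    rw [← Set.union_compl_self A]
    exact measure_union_le _ _
  rw [h1, measure_univ, zero_add] at h2
  exact absurd (h2.trans hle) (by simp)

theorem eves {Ω : Type*} {ρ : ℝ≥0 → Ω → ProbabilityMeasure I} {ω : Ω}
    (hr : GoodPath fun t => ρ t ω) (h0 : (ρ 0 ω : Measure I) = volume)
    (hE : ω ∉ EventE ρ) : ∃ e : ℕ → I, IsEveSequence (fun t => ρ t ω) e := by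
  have hinj : Set.InjOn (extinctionTime fun t => ρ t ω) {x | Ancestral (fun t => ρ t ω) x} := by
    intro x hx y hy hxy
    by_contra hne
    exact hE ⟨x, y, hne, hx, hy, hxy⟩
  obtain ⟨e, he1, he2⟩ := exists_strictAnti_enum {x | Ancestral (fun t => ρ t ω) x}
    (extinctionTime fun t => ρ t ω) hinj (ancestral_infinite hr h0) (by
      rintro x ⟨t, ht, hxt⟩
      obtain ⟨s, hsQ, hs0, hst⟩ := QT_between ht
      refine (types_finite hr s hsQ hs0).subset fun y hy => ?_
      have h1 : (s : ℝ≥0∞) < (t : ℝ≥0∞) := by exact_mod_cast hst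
      exact (h1.trans_le (le_extinctionTime (r := fun t => ρ t ω) hxt)).trans hy.2)
  exact ⟨e, he1, he2⟩

end Pool.Agent.Lib.MP_939494_pr
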