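import Pool.Agent.Lib.MP_939494_pr.Rates

/-!
# The extinction function of the dual process
-/

open MeasureTheory Finset Filter Topology
open scoped ENNReal NNReal unitInterval

namespace Pool.Agent.Lib.MP_939494_pr

/-- The generating function of the block counting process. -/
noncomputable def gg (Λ : Measure I) (s x : ℝ) (n : ℕ) : ℝ := bE Λ (fun k => x ^ k) n s

/-- The limit of the generating function for a large number of initial blocks. -/
noncomputable def G (Λ : Measure I) (s x : ℝ) : ℝ := ⨅ n, gg Λ s x n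

/-- Consequences of the representation of the generating function as a moment sequence. -/
structure Rep (Λ : Measure I) : Prop where
  anti : ∀ t : ℝ, 0 ≤ t → ∀ x : ℝ, 0 ≤ x → x ≤ 1 → ∀ n, gg Λ t x (n + 1) ≤ gg Λ t x n
  diff : ∀ t : ℝ, 0 ≤ t → ∀ x : ℝ, 0 ≤ x → x ≤ 1 → ∀ n : ℕ, ∀ j < n,
    gg Λ t x (n - j) - gg Λ t x n ≤ 2 * j / n

section basic

variable {Λ : Measure I}

theorem gg_nonneg {s x : ℝ} (hs : 0 ≤ s) (hx : 0 ≤ x) (n : ℕ) : 0 ≤ gg Λ s x n := by
  have := bE_mono Λ 0 zero_le_one (fun _ => (0 : ℝ)) (fun k => x ^ k)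
    (fun n _ => by positivity) n (Nat.zero_le _) s hs
  rwa [bE_const Λ 0 n s hs] at this

theorem gg_le_one {s x : ℝ} (hs : 0 ≤ s) (hx : 0 ≤ x) (hx1 : x ≤ 1) (n : ℕ) :
    gg Λ s x n ≤ 1 := by
  have := bE_mono Λ 0 zero_le_one (fun k => x ^ k) (fun _ => (1 : ℝ))
    (fun n _ => pow_le_one₀ hx hx1) n (Nat.zero_le _) s hs
  rwa [bE_const Λ 1 n s hs] at this

theorem gg_mono {s x y : ℝ} (hs : 0 ≤ s) (hx : 0 ≤ x) (hxy : x ≤ y) (n : ℕ) :
    gg Λ s x n ≤ gg Λ s y n :=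
  bE_mono Λ 0 zero_le_one _ _ (fun n _ => pow_le_pow_left₀ hx hxy n) n (Nat.zero_le _) s hs

theorem gg_one {s : ℝ} (hs : 0 ≤ s) (n : ℕ) : gg Λ s 1 n = 1 := by
  unfold gg
  simp_rw [one_pow]
  exact bE_const Λ 1 n s hs

theorem gg_bdd {s x : ℝ} (hs : 0 ≤ s) (hx : 0 ≤ x) :
    BddBelow (Set.range fun n => gg Λ s x n) :=
  ⟨0, by rintro _ ⟨n, rfl⟩; exact gg_nonneg hs hx n⟩

theorem G_le_gg {s x : ℝ} (hs : 0 ≤ s) (hx : 0 ≤ x) (n : ℕ) : G Λ s x ≤ gg Λ s x n :=
  ciInf_le (gg_bdd hs hx) n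

theorem le_G {s x c : ℝ} (h : ∀ n, c ≤ gg Λ s x n) : c ≤ G Λ s x := le_ciInf h

theorem G_nonneg {s x : ℝ} (hs : 0 ≤ s) (hx : 0 ≤ x) : 0 ≤ G Λ s x :=
  le_G fun n => gg_nonneg hs hx n

theorem G_le_one {s x : ℝ} (hs : 0 ≤ s) (hx : 0 ≤ x) (hx1 : x ≤ 1) : G Λ s x ≤ 1 :=
  (G_le_gg hs hx 0).trans (gg_le_one hs hx hx1 0)

theorem G_mono {s x y : ℝ} (hs : 0 ≤ s) (hx : 0 ≤ x) (hxy : x ≤ y) : G Λ s x ≤ G Λ s y :=
  le_G fun n => (G_le_gg hs hx n).trans (gg_mono hs hx hxy n)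

theorem G_one {s : ℝ} (hs : 0 ≤ s) : G Λ s 1 = 1 := by
  unfold G
  simp_rw [gg_one hs]
  exact ciInf_const

theorem gg_antitone (hR : Rep Λ) {s x : ℝ} (hs : 0 ≤ s) (hx : 0 ≤ x) (hx1 : x ≤ 1) :
    Antitone (gg Λ s x) := antitone_nat_of_succ_le fun n => hR.anti s hs x hx hx1 n

theorem G_tendsto (hR : Rep Λ) {s x : ℝ} (hs : 0 ≤ s) (hx : 0 ≤ x) (hx1 : x ≤ 1) :
    Tendsto (fun n => gg Λ s x n) atTop (𝓝 (G Λ s x)) :=
  tendsto_atTop_ciInf (gg_antitone hR hs hx hx1) (gg_bdd hs hx)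

theorem continuous_gg_x (s : ℝ) (n : ℕ) : Continuous fun x => gg Λ s x n := by
  unfold gg bE
  fun_prop

theorem measurable_G (s : ℝ) : Measurable fun x => G Λ s x := by
  unfold G
  exact Measurable.iInf fun n => (continuous_gg_x s n).measurable

/-- Superadditivity. -/
theorem gg_superadd {s x y : ℝ} (hs : 0 ≤ s) (hx : 0 ≤ x) (hy : 0 ≤ y) (n : ℕ) (hn : 1 ≤ n) :
    gg Λ s x n + gg Λ s y n ≤ gg Λ s (x + y) n := by
  unfold gg
  rw [← bE_add]
  refine bE_mono Λ 1 le_rfl _ _ (fun k hk => ?_) n hn s hs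
  exact pow_add_pow_le hx hy (by omega)

theorem G_superadd {s x y : ℝ} (hR : Rep Λ) (hs : 0 ≤ s) (hx : 0 ≤ x) (hy : 0 ≤ y)
    (hxy : x + y ≤ 1) : G Λ s x + G Λ s y ≤ G Λ s (x + y) := by
  refine le_G fun n => ?_
  have h1 := gg_superadd (Λ := Λ) hs hx hy (n + 1) (by omega)
  have h2 := hR.anti s hs (x + y) (by linarith) hxy n
  have h3 := G_le_gg (Λ := Λ) hs hx (n + 1)
  have h4 := G_le_gg (Λ := Λ) hs hy (n + 1)
  linarith

end basic

/-- The variance bound. -/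
theorem gg_sq_le {Λ : Measure I} [IsFiniteMeasure Λ] (hR : Rep Λ) {s x : ℝ} (hs : 0 ≤ s)
    (hx : 0 ≤ x) (hx1 : x ≤ 1) (n : ℕ) :
    gg Λ s (x ^ 2) n ≤ gg Λ s x n ^ 2 + 4 * Λ.real Set.univ * s := by
  refine bE_le_super Λ 0 zero_le_one (fun k => (x ^ 2) ^ k)
    (fun n s => gg Λ s x n ^ 2 + 4 * Λ.real Set.univ * s)
    (fun n s => 2 * gg Λ s x n * gen Λ (fun k => gg Λ s x k) n + 4 * Λ.real Set.univ)
    ?_ ?_ ?_ n (Nat.zero_le _) s hs
  · intro n _ t _
    have h1 := (hasDerivAt_bE Λ (fun k => x ^ k) n t).fun_pow 2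
    have h2 := (hasDerivAt_id t).const_mul (4 * Λ.real Set.univ)
    have h3 := h1.add h2
    refine h3.congr_deriv ?_
    simp only [gg]
    ring
  · intro n _ t ht
    have hab : ∀ j < n, |gg Λ t x (n - j) - gg Λ t x n| ≤ 2 * j / n := by
      intro j hj
      rw [abs_of_nonneg (sub_nonneg.2 (gg_antitone hR ht hx hx1 (Nat.sub_le n j)))]
      exact hR.diff t ht x hx hx1 n j hj
    have h1 := gamma_bound Λ (fun k => gg Λ t x k) n hab
    have h2 : gen Λ (fun k => gg Λ t x k ^ 2 + 4 * Λ.real Set.univ * t) n =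
        2 * gg Λ t x n * gen Λ (fun k => gg Λ t x k) n +
        ∑ k ∈ Finset.Icc 2 n, rate Λ n k * (gg Λ t x (n + 1 - k) - gg Λ t x n) ^ 2 := by
      unfold gen
      rw [Finset.mul_sum, ← Finset.sum_add_distrib]
      refine Finset.sum_congr rfl fun k _ => ?_
      ring
    rw [h2]
    linarith
  · intro n _
    simp only [gg, bE_zero, mul_zero, add_zero]
    rw [← pow_mul, ← pow_mul, mul_comm]

theorem G_sq_le {Λ : Measure I} [IsFiniteMeasure Λ] (hR : Rep Λ) {s x : ℝ} (hs : 0 ≤ s)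
    (hx : 0 ≤ x) (hx1 : x ≤ 1) :
    G Λ s (x ^ 2) ≤ G Λ s x ^ 2 + 4 * Λ.real Set.univ * s := by
  have h1 : Tendsto (fun n => gg Λ s x n ^ 2 + 4 * Λ.real Set.univ * s) atTop
      (𝓝 (G Λ s x ^ 2 + 4 * Λ.real Set.univ * s)) :=
    ((G_tendsto hR hs hx hx1).pow 2).add_const _
  refine ge_of_tendsto' h1 fun n => ?_
  exact (G_le_gg hs (by positivity) n).trans (gg_sq_le hR hs hx hx1 n)

/-- Small time bound. -/
theorem G_small_time {Λ : Measure I} [IsFiniteMeasure Λ] (h1 : Λ {1} = 0) {x : ℝ}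
    (hx0 : 0 < x) (hx1 : x < 1) (ε : ℝ) (hε : 0 < ε) :
    ∃ K : ℝ, 0 < K ∧ ∀ t : ℝ, 0 ≤ t → G Λ t x ≤ ε / K * (Real.exp (K * t) - 1) := by
  obtain ⟨K, hK, hgen⟩ := gen_pow_le Λ h1 x hx0 hx1 ε hε
  refine ⟨K, hK, fun t ht => ?_⟩
  have hbound : ∀ n, gg Λ t x n ≤ Real.exp (K * t) * x ^ n + ε / K * (Real.exp (K * t) - 1) := by
    intro n
    refine bE_le_super Λ 0 zero_le_one (fun k => x ^ k)
      (fun n t => Real.exp (K * t) * x ^ n + ε / K * (Real.exp (K * t) - 1))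
      (fun n t => Real.exp (K * t) * K * x ^ n + ε / K * (Real.exp (K * t) * K))
      ?_ ?_ ?_ n (Nat.zero_le _) t ht
    · intro n _ t _
      have h1 : HasDerivAt (fun t => Real.exp (K * t)) (Real.exp (K * t) * K) t := by
        have := ((hasDerivAt_id t).const_mul K).exp
        simpa using this
      exact (h1.mul_const _).add ((h1.sub_const 1).const_mul _)
    · intro n _ t _
      have h2 : gen Λ (fun k => Real.exp (K * t) * x ^ k + ε / K * (Real.exp (K * t) - 1)) n =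
          Real.exp (K * t) * gen Λ (fun k => x ^ k) n := by
        unfold gen
        rw [Finset.mul_sum]
        refine Finset.sum_congr rfl fun k _ => ?_
        ring
      rw [h2]
      have h3 : Real.exp (K * t) * K * x ^ n + ε / K * (Real.exp (K * t) * K) =
          Real.exp (K * t) * (ε + K * x ^ n) := by
        field_simp
        ring
      rw [h3]
      exact mul_le_mul_of_nonneg_left (hgen n) (Real.exp_pos _).le
    · intro n _
      simp
  have hlim : Tendsto (fun n : ℕ => Real.exp (K * t) * x ^ n + ε / K * (Real.exp (K * t) - 1))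
      atTop (𝓝 (Real.exp (K * t) * 0 + ε / K * (Real.exp (K * t) - 1))) :=
    ((tendsto_pow_atTop_nhds_zero_of_lt_one hx0.le hx1).const_mul _).add_const _
  rw [mul_zero, zero_add] at hlim
  exact ge_of_tendsto' hlim fun n => (G_le_gg ht hx0.le n).trans (hbound n)

/-- `G_t(x) = o(t)` as `t → 0`. -/
theorem G_little_o {Λ : Measure I} [IsFiniteMeasure Λ] (h1 : Λ {1} = 0) {x : ℝ}
    (hx0 : 0 < x) (hx1 : x < 1) (ε : ℝ) (hε : 0 < ε) :
    ∃ t₀ : ℝ, 0 < t₀ ∧ ∀ t : ℝ, 0 ≤ t → t ≤ t₀ → G Λ t x ≤ ε * t := by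
  obtain ⟨K, hK, h⟩ := G_small_time h1 hx0 hx1 (ε / 2) (by positivity)
  refine ⟨1 / K, by positivity, fun t ht ht' => (h t ht).trans ?_⟩
  have hKt : K * t ≤ 1 := by
    rw [le_div_iff₀ hK] at ht'
    linarith
  have hKt0 : 0 ≤ K * t := by positivity
  have h2 := Real.abs_exp_sub_one_le (x := K * t) (by rw [abs_of_nonneg hKt0]; exact hKt)
  rw [abs_of_nonneg hKt0] at h2
  have h3 := (abs_le.1 h2).2
  calc ε / 2 / K * (Real.exp (K * t) - 1) ≤ ε / 2 / K * (2 * (K * t)) :=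
        mul_le_mul_of_nonneg_left h3 (by positivity)
    _ = ε * t := by field_simp

/-- Lower bound for the generating function when the process comes down from infinity. -/
theorem gg_lower {Λ : Measure I} {s x ε : ℝ} {K : ℕ} (hs : 0 ≤ s)
    (hK : ∀ n : ℕ, ∑ π : Part n with K < π.parts.card, coalProb Λ n s π ≤ ε)
    (hx : 0 ≤ x) (hx1 : x ≤ 1) (n : ℕ) : (1 - ε) * x ^ K ≤ gg Λ s x n := by
  have h1 : ∑ π : Part n with K < π.parts.card, coalProb Λ n s π +
      ∑ π : Part n with ¬ K < π.parts.card, coalProb Λ n s π = 1 := by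
    rw [Finset.sum_filter_add_sum_filter_not, coalProb_sum Λ n s hs]
  have h2 := hK n
  have h3 : 1 - ε ≤ ∑ π : Part n with ¬ K < π.parts.card, coalProb Λ n s π := by linarith
  have hxK : 0 ≤ x ^ K := by positivity
  calc (1 - ε) * x ^ K
      ≤ (∑ π : Part n with ¬ K < π.parts.card, coalProb Λ n s π) * x ^ K :=
        mul_le_mul_of_nonneg_right h3 hxK
    _ = ∑ π : Part n with ¬ K < π.parts.card, coalProb Λ n s π * x ^ K := by
        rw [Finset.sum_mul]
    _ ≤ ∑ π : Part n with ¬ K < π.parts.card, coalProb Λ n s π * x ^ π.parts.card := by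
        refine Finset.sum_le_sum fun π hπ => ?_
        rw [Finset.mem_filter] at hπ
        exact mul_le_mul_of_nonneg_left (pow_le_pow_of_le_one hx hx1 (by omega))
          (coalProb_nonneg Λ n s hs π)
    _ ≤ ∑ π : Part n, coalProb Λ n s π * x ^ π.parts.card := by
        refine Finset.sum_le_sum_of_subset_of_nonneg (Finset.filter_subset _ _) fun π _ _ => ?_
        exact mul_nonneg (coalProb_nonneg Λ n s hs π) (by positivity)
    _ = gg Λ s x n := rfl

theorem G_lower {Λ : Measure I} (hC : ComesDownFromInfinity Λ) {s ε : ℝ} (hs : 0 < s)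
    (hε : 0 < ε) : ∃ K : ℕ, ∀ x : ℝ, 0 ≤ x → x ≤ 1 → (1 - ε) * x ^ K ≤ G Λ s x := by
  obtain ⟨K, hK⟩ := hC s hs ε hε
  exact ⟨K, fun x hx hx1 => le_G fun n => gg_lower hs.le hK hx hx1 n⟩

/-- `G_s(x) → 1` as `x → 1`. -/
theorem G_near_one {Λ : Measure I} (hC : ComesDownFromInfinity Λ) {s ε : ℝ} (hs : 0 < s)
    (hε : 0 < ε) : ∃ δ : ℝ, 0 < δ ∧ δ < 1 ∧ ∀ x : ℝ, 1 - δ ≤ x → x ≤ 1 → 1 - ε ≤ G Λ s x := by
  obtain ⟨K, hK⟩ := G_lower hC hs (ε := ε / 2) (by positivity)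
  have hcont : Tendsto (fun x : ℝ => (1 - ε / 2) * x ^ K) (𝓝 1) (𝓝 ((1 - ε / 2) * 1 ^ K)) :=
    (Continuous.tendsto (by fun_prop) 1)
  rw [one_pow, mul_one] at hcont
  have h2 : ∀ᶠ x in 𝓝 (1 : ℝ), 1 - ε < (1 - ε / 2) * x ^ K :=
    hcont.eventually (lt_mem_nhds (by linarith))
  rw [Metric.eventually_nhds_iff] at h2
  obtain ⟨δ, hδ, h3⟩ := h2
  refine ⟨min (δ / 2) (1 / 2), by positivity, ?_, fun x hx hx1 => ?_⟩
  · exact (min_le_right _ _).trans_lt (by norm_num)
  · have h4 : 1 - δ / 2 ≤ x := by linarith [min_le_left (δ / 2) (1 / 2 : ℝ)]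
    have h5 : (1 : ℝ) / 2 ≤ x := by linarith [min_le_right (δ / 2) (1 / 2 : ℝ)]
    have h6 := h3 (y := x) (by
      rw [Real.dist_eq, abs_lt]
      constructor <;> linarith)
    exact h6.le.trans (hK x (by linarith) hx1)

/-- The semigroup is uniformly continuous in time away from zero. -/
theorem gg_time {Λ : Measure I} (hC : ComesDownFromInfinity Λ) {x : ℝ} (hx : 0 ≤ x)
    (hx1 : x ≤ 1) (s₀ : ℝ) (hs₀ : 0 < s₀) (ε : ℝ) (hε : 0 < ε) :
    ∀ᶠ s in 𝓝 s₀, ∀ n, |gg Λ s x n - gg Λ s₀ x n| ≤ ε := by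
  obtain ⟨K, hK⟩ := hC (s₀ / 2) (by positivity) (ε / 2) (by positivity)
  have hcont : ∀ m : ℕ, Continuous fun s => gg Λ s x m := fun m => by
    have h : Differentiable ℝ fun s => gg Λ s x m := fun s =>
      (hasDerivAt_bE Λ (fun k => x ^ k) m s).differentiableAt
    exact h.continuous
  have hev : ∀ᶠ s in 𝓝 s₀, ∀ m ∈ Finset.range (K + 1),
      |gg Λ (s - s₀ / 2) x m - gg Λ (s₀ - s₀ / 2) x m| < ε / 2 := by
    rw [Filter.eventually_all_finset]
    intro m _
    have h1 : Tendsto (fun s => gg Λ (s - s₀ / 2) x m) (𝓝 s₀)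
        (𝓝 (gg Λ (s₀ - s₀ / 2) x m)) :=
      ((hcont m).comp (continuous_id.sub continuous_const)).tendsto s₀
    have h2 := Metric.tendsto_nhds.1 h1 (ε / 2) (by positivity)
    filter_upwards [h2] with s hs
    rwa [Real.dist_eq] at hs
  filter_upwards [hev, lt_mem_nhds (show s₀ / 2 < s₀ by linarith)] with s hs hs2 n
  have hsplit : ∀ r, gg Λ r x n = bE Λ (fun k => gg Λ (r - s₀ / 2) x k) n (s₀ / 2) := by
    intro r
    have := bE_semigroup Λ (fun k => x ^ k) n (r - s₀ / 2) (s₀ / 2) (by positivity)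
    rw [sub_add_cancel] at this
    exact this
  rw [hsplit s, hsplit s₀, ← bE_sub]
  have hb : bE Λ (fun k => ε / 2 + if K < k then (1 : ℝ) else 0) n (s₀ / 2) ≤ ε := by
    rw [bE_add, bE_const Λ _ n _ (by positivity)]
    have h5 : bE Λ (fun k => if K < k then (1 : ℝ) else 0) n (s₀ / 2) =
        ∑ π : Part n with K < π.parts.card, coalProb Λ n (s₀ / 2) π := by
      unfold bE
      rw [Finset.sum_filter]
      refine Finset.sum_congr rfl fun π _ => ?_
      by_cases hk : K < π.parts.card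
      · rw [if_pos hk]
        simp only
        rw [if_pos hk, mul_one]
      · rw [if_neg hk]
        simp only
        rw [if_neg hk, mul_zero]
    rw [h5]
    linarith [hK n]
  have hpt : ∀ k, |gg Λ (s - s₀ / 2) x k - gg Λ (s₀ - s₀ / 2) x k| ≤
      ε / 2 + if K < k then (1 : ℝ) else 0 := by
    intro k
    split_ifs with hk
    · have h6 := gg_nonneg (Λ := Λ) (s := s - s₀ / 2) (by linarith) hx k
      have h7 := gg_le_one (Λ := Λ) (s := s - s₀ / 2) (by linarith) hx hx1 k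
      have h8 := gg_nonneg (Λ := Λ) (s := s₀ - s₀ / 2) (by linarith) hx k
      have h9 := gg_le_one (Λ := Λ) (s := s₀ - s₀ / 2) (by linarith) hx hx1 k
      rw [abs_le]
      constructor <;> linarith
    · have := hs k (Finset.mem_range.2 (by omega))
      linarith
  rw [abs_le]
  constructor
  · have h10 := bE_mono Λ 0 zero_le_one
      (fun k => (-1) * (ε / 2 + if K < k then (1 : ℝ) else 0))
      (fun k => gg Λ (s - s₀ / 2) x k - gg Λ (s₀ - s₀ / 2) x k)
      (fun k _ => by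
        have := (abs_le.1 (hpt k)).1
        linarith) n (Nat.zero_le _) (s₀ / 2) (by positivity)
    rw [bE_smul] at h10
    linarith
  · have h10 := bE_mono Λ 0 zero_le_one
      (fun k => gg Λ (s - s₀ / 2) x k - gg Λ (s₀ - s₀ / 2) x k)
      (fun k => (ε / 2 + if K < k then (1 : ℝ) else 0))
      (fun k _ => (abs_le.1 (hpt k)).2) n (Nat.zero_le _) (s₀ / 2) (by positivity)
    linarith

theorem G_continuousAt {Λ : Measure I} (hC : ComesDownFromInfinity Λ) {x : ℝ} (hx : 0 ≤ x)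
    (hx1 : x ≤ 1) (s₀ : ℝ) (hs₀ : 0 < s₀) : ContinuousAt (fun s => G Λ s x) s₀ := by
  rw [Metric.continuousAt_iff']
  intro ε hε
  filter_upwards [gg_time hC hx hx1 s₀ hs₀ (ε / 2) (by positivity), lt_mem_nhds hs₀] with s hs hs2
  rw [Real.dist_eq]
  have h1 : G Λ s x ≤ G Λ s₀ x + ε / 2 := by
    have : G Λ s x - ε / 2 ≤ G Λ s₀ x := le_G fun n => by
      have := (abs_le.1 (hs n)).2
      have h2 := G_le_gg (Λ := Λ) hs2.le hx n
      linarith
    linarith
  have h2 : G Λ s₀ x ≤ G Λ s x + ε / 2 := by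
    have : G Λ s₀ x - ε / 2 ≤ G Λ s x := le_G fun n => by
      have := (abs_le.1 (hs n)).1
      have h2 := G_le_gg (Λ := Λ) hs₀.le hx n
      linarith
    linarith
  rw [abs_lt]
  constructor <;> linarith

/-- The key lemma: at some rational time, one of two types dies and the other one survives with
probability bounded below. -/
theorem key_gap {Λ : Measure I} [IsFiniteMeasure Λ] (hR : Rep Λ) (h1 : Λ {1} = 0)
    (hC : ComesDownFromInfinity Λ) :
    ∃ c : ℝ, 0 < c ∧ c < 1 ∧ ∀ p q : ℝ, 0 < p → p ≤ q → p + q ≤ 1 →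
      ∃ s : ℚ, 0 < s ∧ s ≤ 1 ∧ c ≤ G Λ s (1 - p) - G Λ s (1 - p - q) := by
  have hL : 0 ≤ Λ.real Set.univ := measureReal_nonneg
  set L := Λ.real Set.univ with hLdef
  -- a time for which the variance is small
  obtain ⟨s₁, hs₁, hs₁1, hs₁L⟩ : ∃ s₁ : ℝ, 0 < s₁ ∧ s₁ ≤ 1 ∧ 4 * L * s₁ ≤ 1 / 8 := by
    refine ⟨1 / (32 * (L + 1)), by positivity, ?_, ?_⟩
    · rw [div_le_one (by positivity)]
      linarith
    · rw [mul_one_div, div_le_iff₀ (by positivity)]
      linarith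
  obtain ⟨δ, hδ, hδ1, hnear⟩ := G_near_one hC (s := s₁) (ε := 1 / 4) hs₁ (by norm_num)
  obtain ⟨K, hK⟩ := G_lower hC (s := 1) (ε := 1 / 2) one_pos (by norm_num)
  refine ⟨min (7 / 64) ((1 - 1 / 2) * δ ^ K), ?_, ?_, ?_⟩
  · have : 0 < δ ^ K := by positivity
    have h2 : (0 : ℝ) < (1 - 1 / 2) * δ ^ K := by linarith
    exact lt_min (by norm_num) h2
  · exact (min_le_left _ _).trans_lt (by norm_num)
  · intro p q hp hpq hsum
    rcases le_or_gt δ p with hδp | hδp
    · refine ⟨1, one_pos, le_rfl, ?_⟩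
      rw [Rat.cast_one]
      have h3 := G_superadd (Λ := Λ) (s := 1) (x := 1 - p - q) (y := q) hR zero_le_one
        (by linarith) (by linarith) (by linarith)
      rw [sub_add_cancel] at h3
      have h4 := hK q (by linarith) (by linarith)
      have h5 : δ ^ K ≤ q ^ K := pow_le_pow_left₀ hδ.le (by linarith) K
      have h6 := min_le_right (7 / 64) ((1 - 1 / 2) * δ ^ K)
      linarith
    · -- small `p`
      set x := 1 - p with hx
      have hx0 : 0 < x := by linarith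
      have hx1 : x < 1 := by linarith
      have hbig : 3 / 4 ≤ G Λ s₁ x := by
        have := hnear x (by linarith) hx1.le
        linarith
      obtain ⟨t₀, ht₀, hsmall⟩ := G_little_o h1 hx0 hx1 (1 / 4) (by norm_num)
      set s₂ := min t₀ s₁ with hs₂
      have hs₂0 : 0 < s₂ := lt_min ht₀ hs₁
      have hlow : G Λ s₂ x ≤ 1 / 4 := by
        have h7 := hsmall s₂ hs₂0.le (min_le_left _ _)
        have h8 : s₂ ≤ 1 := (min_le_right _ _).trans hs₁1
        linarith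
      have hcont : ContinuousOn (fun s => G Λ s x) (Set.Icc s₂ s₁) := fun s hs =>
        (G_continuousAt hC hx0.le hx1.le s (lt_of_lt_of_le hs₂0 hs.1)).continuousWithinAt
      have hivt := intermediate_value_Icc (min_le_right t₀ s₁) hcont
      obtain ⟨s₃, hs₃, hs₃G⟩ := hivt (show (1 / 2 : ℝ) ∈ Set.Icc (G Λ s₂ x) (G Λ s₁ x) from
        ⟨by linarith, by linarith⟩)
      simp only at hs₃G
      have hs₃0 : 0 < s₃ := lt_of_lt_of_le hs₂0 hs₃.1
      have hs₃1 : s₃ < s₁ := by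
        refine lt_of_le_of_ne hs₃.2 fun h => ?_
        rw [h] at hs₃G
        linarith
      have hct := G_continuousAt hC hx0.le hx1.le s₃ hs₃0
      have hev : ∀ᶠ s in 𝓝 s₃, (3 / 8 < G Λ s x ∧ G Λ s x < 5 / 8) ∧ 0 < s ∧ s < s₁ := by
        refine ((hct.eventually (lt_mem_nhds (show 3 / 8 < G Λ s₃ x by rw [hs₃G]; norm_num))).and
          (hct.eventually (gt_mem_nhds (show G Λ s₃ x < 5 / 8 by rw [hs₃G]; norm_num)))).and
          ((lt_mem_nhds hs₃0).and (gt_mem_nhds hs₃1))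
      rw [Metric.eventually_nhds_iff] at hev
      obtain ⟨η, hη, hev⟩ := hev
      obtain ⟨s, hs1, hs2⟩ := exists_rat_btwn (show s₃ < s₃ + η by linarith)
      have hdist : dist (s : ℝ) s₃ < η := by
        rw [Real.dist_eq, abs_lt]
        constructor <;> linarith
      obtain ⟨⟨h38, h58⟩, hs0, hsle⟩ := hev hdist
      refine ⟨s, by exact_mod_cast hs0, ?_, ?_⟩
      · have : (s : ℝ) ≤ 1 := by linarith
        exact_mod_cast this
      · have h9 : G Λ s (1 - p - q) ≤ G Λ s (x ^ 2) := by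
          refine G_mono hs0.le (by linarith) ?_
          rw [hx]
          nlinarith [sq_nonneg p]
        have h10 := G_sq_le hR hs0.le hx0.le hx1.le
        have h11 : 4 * L * s ≤ 1 / 8 := by
          have : 4 * L * s ≤ 4 * L * s₁ := mul_le_mul_of_nonneg_left hsle.le (by linarith)
          linarith
        have h12 := min_le_left (7 / 64) ((1 - 1 / 2) * δ ^ K)
        nlinarith

end Pool.Agent.Lib.MP_939494_pr
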