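import Pool.Agent.Lib.MP_939494_pr.Core

/-!
# Two disjoint sets of types do not die at the same time: the main argument
-/

open MeasureTheory Finset Filter Topology
open scoped ENNReal NNReal unitInterval

namespace Pool.Agent.Lib.MP_939494_pr

section

variable {Λ : Measure I} {Ω : Type*} [mΩ : MeasurableSpace Ω] {μ : Measure Ω}
  {ℱ : Filtration ℝ≥0 mΩ} {ρ : ℝ≥0 → Ω → ProbabilityMeasure I}

/-- Both sets are alive. -/
def Al (ρ : ℝ≥0 → Ω → ProbabilityMeasure I) (U V : Set I) (t : ℝ≥0) : Set Ω :=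
  {ω | 0 < X ρ U t ω ∧ 0 < X ρ V t ω}

/-- Both sets are alive at some rational time and both are dead `r` units of time later. -/
def AR (ρ : ℝ≥0 → Ω → ProbabilityMeasure I) (U V : Set I) (r : ℝ≥0) : Set Ω :=
  {ω | ∃ t ∈ QT, ω ∈ Al ρ U V t ∧ ∀ u ∈ QT, t + r ≤ u → X ρ U u ω = 0 ∧ X ρ V u ω = 0}

/-- Both sets die at the same time. -/
def AA (ρ : ℝ≥0 → Ω → ProbabilityMeasure I) (U V : Set I) : Set Ω :=
  ⋂ m : ℕ, AR ρ U V (1 / ((m : ℝ≥0) + 1))

theorem Al_measurable (h : IsLambdaFlemingViot Λ μ ℱ ρ) (U V : Set I) (hU : MeasurableSet U)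
    (hV : MeasurableSet V) (t : ℝ≥0) : MeasurableSet[ℱ t] (Al ρ U V t) :=
  (X_measurable h U hU t measurableSet_Ioi).inter (X_measurable h V hV t measurableSet_Ioi)

theorem AR_measurable (h : IsLambdaFlemingViot Λ μ ℱ ρ) (U V : Set I) (hU : MeasurableSet U)
    (hV : MeasurableSet V) (r : ℝ≥0) : MeasurableSet (AR ρ U V r) := by
  have e : AR ρ U V r = ⋃ t ∈ QT, (Al ρ U V t ∩ ⋂ u ∈ QT, {ω | t + r ≤ u →
      X ρ U u ω = 0 ∧ X ρ V u ω = 0}) := by
    ext ω
    simp only [AR, Set.mem_ofPred_eq, Set.mem_iUnion, Set.mem_inter_iff, Set.mem_iInter,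
      exists_prop]
  rw [e]
  refine MeasurableSet.biUnion QT_countable fun t _ => ?_
  refine (ℱ.le t _ (Al_measurable h U V hU hV t)).inter ?_
  refine MeasurableSet.biInter QT_countable fun u _ => ?_
  by_cases hu : t + r ≤ u
  · have e2 : {ω | t + r ≤ u → X ρ U u ω = 0 ∧ X ρ V u ω = 0} =
        {ω | X ρ U u ω = 0} ∩ {ω | X ρ V u ω = 0} := by
      ext ω
      simp [hu]
    rw [e2]
    exact (X_measurable' h U hU u (measurableSet_singleton 0)).inter
      (X_measurable' h V hV u (measurableSet_singleton 0))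
  · have e2 : {ω | t + r ≤ u → X ρ U u ω = 0 ∧ X ρ V u ω = 0} = Set.univ := by
      ext ω
      simp [hu]
    rw [e2]
    exact MeasurableSet.univ

omit mΩ in
theorem AR_mono (U V : Set I) {r r' : ℝ≥0} (hr : r ≤ r') : AR ρ U V r ⊆ AR ρ U V r' := by
  rintro ω ⟨t, ht, hal, hdead⟩
  exact ⟨t, ht, hal, fun u hu hle => hdead u hu (le_trans (add_le_add_right hr t) hle)⟩

variable [IsProbabilityMeasure μ]

theorem absorb_all (h : IsLambdaFlemingViot Λ μ ℱ ρ) (W : Set I) (hW : MeasurableSet W) :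
    ∀ᵐ ω ∂μ, ∀ s ∈ QT, ∀ t ∈ QT, s ≤ t → X ρ W s ω = 0 → X ρ W t ω = 0 := by
  rw [ae_ball_iff QT_countable]
  intro s _
  rw [ae_ball_iff QT_countable]
  intro t _
  by_cases hst : s ≤ t
  · filter_upwards [absorb h W hW s t hst] with ω hω _
    exact hω
  · exact ae_of_all _ fun ω h' => absurd h' hst

variable [IsFiniteMeasure Λ]

theorem imm_all (h : IsLambdaFlemingViot Λ μ ℱ ρ) (h1 : Λ {1} = 0) (W : Set I)
    (hW : MeasurableSet W) :
    ∀ᵐ ω ∂μ, ∀ t ∈ QT, 0 < X ρ W t ω → ∃ m : ℕ, 0 < X ρ W (t + 1 / ((m : ℝ≥0) + 1)) ω := by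
  rw [ae_ball_iff QT_countable]
  intro t _
  set P : Set Ω := {ω | 0 < X ρ W t ω} with hP
  have hPm : MeasurableSet[ℱ t] P := X_measurable h W hW t measurableSet_Ioi
  have hPm' : MeasurableSet P := ℱ.le t _ hPm
  have hlim : Tendsto (fun m : ℕ => ∫ ω in P, G Λ (((1 / ((m : ℝ≥0) + 1) : ℝ≥0)) : ℝ)
      (1 - X ρ W t ω) ∂μ) atTop (𝓝 (∫ _ in P, (0 : ℝ) ∂μ)) := by
    refine tendsto_integral_of_dominated_convergence (fun _ => (1 : ℝ))
      (fun m => (integrable_G h W hW t (1 / ((m : ℝ≥0) + 1))).aestronglyMeasurable.restrict)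
      (integrable_const _) ?_ ?_
    · intro m
      refine ae_of_all _ fun ω => ?_
      have h0 := X_nonneg (ρ := ρ) W t ω
      have h1 := X_le_one (ρ := ρ) W t ω
      rw [Real.norm_eq_abs, abs_of_nonneg (G_nonneg (NNReal.coe_nonneg _) (by linarith))]
      exact G_le_one (NNReal.coe_nonneg _) (by linarith) (by linarith)
    · refine (ae_restrict_iff' hPm').2 (ae_of_all _ fun ω hω => ?_)
      have h0 : 0 < X ρ W t ω := hω
      have h2 := X_le_one (ρ := ρ) W t ω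
      exact G_tendsto_zero h1 (by linarith) (by linarith)
  rw [integral_zero] at hlim
  set N : Set Ω := {ω | 0 < X ρ W t ω ∧ ∀ m : ℕ, X ρ W (t + 1 / ((m : ℝ≥0) + 1)) ω = 0} with hN
  have hle : ∀ m : ℕ, μ.real N ≤ ∫ ω in P, G Λ (((1 / ((m : ℝ≥0) + 1) : ℝ≥0)) : ℝ)
      (1 - X ρ W t ω) ∂μ := by
    intro m
    rw [← dead_prob' h W hW t (1 / ((m : ℝ≥0) + 1)) P hPm]
    exact measureReal_mono fun ω hω => ⟨hω.1, hω.2 m⟩
  have h0 : μ.real N ≤ 0 := ge_of_tendsto' hlim hle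
  have h2 : μ.real N = 0 := le_antisymm h0 measureReal_nonneg
  rw [measureReal_eq_zero_iff] at h2
  rw [ae_iff]
  refine measure_mono_null ?_ h2
  intro ω hω
  simp only [Set.mem_ofPred_eq, Classical.not_imp, not_exists, not_lt] at hω
  exact ⟨hω.1, fun m => le_antisymm (hω.2 m) (X_nonneg _ _ _)⟩

/-- On the event that both sets die at the same time, at no rational time exactly one of them is
alive. -/
theorem AA_not_one (h : IsLambdaFlemingViot Λ μ ℱ ρ) (h1 : Λ {1} = 0) (U V : Set I)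
    (hU : MeasurableSet U) (hV : MeasurableSet V) :
    ∀ᵐ ω ∂μ, ω ∈ AA ρ U V → ∀ t ∈ QT, ¬ (X ρ U t ω = 0 ∧ 0 < X ρ V t ω) ∧
      ¬ (X ρ V t ω = 0 ∧ 0 < X ρ U t ω) := by
  filter_upwards [absorb_all h U hU, absorb_all h V hV, imm_all h h1 U hU, imm_all h h1 V hV]
    with ω aU aV iU iV hA t ht
  constructor
  · rintro ⟨hU0, hV0⟩
    obtain ⟨m, hm⟩ := iV t ht hV0
    obtain ⟨u, hu, ⟨hu1, _⟩, hdead⟩ := Set.mem_iInter.1 hA m
    have hlt : u ≤ t := by
      by_contra hcon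
      have := aU t ht u hu (not_le.1 hcon).le hU0
      linarith
    have := (hdead (t + 1 / ((m : ℝ≥0) + 1)) (QT_add ht (QT_inv m))
      (add_le_add_left hlt _)).2
    linarith
  · rintro ⟨hV0, hU0⟩
    obtain ⟨m, hm⟩ := iU t ht hU0
    obtain ⟨u, hu, ⟨_, hu1⟩, hdead⟩ := Set.mem_iInter.1 hA m
    have hlt : u ≤ t := by
      by_contra hcon
      have := aV t ht u hu (not_le.1 hcon).le hV0
      linarith
    have := (hdead (t + 1 / ((m : ℝ≥0) + 1)) (QT_add ht (QT_inv m))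
      (add_le_add_left hlt _)).1
    linarith

theorem QT_of_rat (q : ℚ) (hq : 0 ≤ q) : ∃ t ∈ QT, (t : ℝ) = q := by
  have : (0 : ℝ) ≤ (q : ℝ) := by exact_mod_cast hq
  exact ⟨⟨_, this⟩, ⟨q, rfl⟩, rfl⟩

omit [IsFiniteMeasure Λ] in
/-- The probability that both sets are alive at time `n` decays geometrically. -/
theorem Al_pow (h : IsLambdaFlemingViot Λ μ ℱ ρ) (U V : Set I) (hU : MeasurableSet U)
    (hV : MeasurableSet V) (hd : Disjoint U V) (c : ℝ) (hc1 : c ≤ 1)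
    (hgap : ∀ p q : ℝ, 0 < p → p ≤ q → p + q ≤ 1 →
      ∃ s : ℚ, 0 < s ∧ s ≤ 1 ∧ c ≤ G Λ s (1 - p) - G Λ s (1 - p - q)) (n : ℕ) :
    μ (Al ρ U V (n : ℝ≥0)) ≤ ENNReal.ofReal (1 - c) ^ n := by
  induction n with
  | zero => simpa using prob_le_one
  | succ n ih =>
    have hK := lemK h U V hU hV hd (n : ℝ≥0) c hc1 hgap (Al ρ U V (n : ℝ≥0))
      (Al_measurable h U V hU hV _) (fun ω hω => hω) (Al ρ U V ((n + 1 : ℕ) : ℝ≥0)) (by
        filter_upwards [absorb_all h U hU, absorb_all h V hV] with ω aU aV hal q hq _ hq1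
        have hle : (n : ℝ≥0) + q ≤ ((n + 1 : ℕ) : ℝ≥0) := by
          push_cast
          exact add_le_add_right hq1 _
        have hqq := QT_add (QT_natCast n) hq
        constructor
        · rintro ⟨h0, _⟩
          have := aU _ hqq _ (QT_natCast (n + 1)) hle h0
          have h2 := hal.1
          linarith
        · rintro ⟨h0, _⟩
          have := aV _ hqq _ (QT_natCast (n + 1)) hle h0
          have h2 := hal.2
          linarith)
    have hsub : μ (Al ρ U V ((n + 1 : ℕ) : ℝ≥0)) ≤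
        μ (Al ρ U V (n : ℝ≥0) ∩ Al ρ U V ((n + 1 : ℕ) : ℝ≥0)) := by
      refine measure_mono_ae ?_
      filter_upwards [absorb_all h U hU, absorb_all h V hV] with ω aU aV hal
      have hle : (n : ℝ≥0) ≤ ((n + 1 : ℕ) : ℝ≥0) := by
        push_cast
        exact le_add_of_nonneg_right zero_le_one
      refine ⟨⟨?_, ?_⟩, hal⟩
      · refine lt_of_le_of_ne (X_nonneg _ _ _) fun h0 => ?_
        have := aU _ (QT_natCast n) _ (QT_natCast (n + 1)) hle h0.symm
        have h2 := hal.1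
        linarith
      · refine lt_of_le_of_ne (X_nonneg _ _ _) fun h0 => ?_
        have := aV _ (QT_natCast n) _ (QT_natCast (n + 1)) hle h0.symm
        have h2 := hal.2
        linarith
    calc μ (Al ρ U V ((n + 1 : ℕ) : ℝ≥0)) ≤ _ := hsub
      _ ≤ ENNReal.ofReal (1 - c) * μ (Al ρ U V (n : ℝ≥0)) := hK
      _ ≤ ENNReal.ofReal (1 - c) * ENNReal.ofReal (1 - c) ^ n := by gcongr
      _ = ENNReal.ofReal (1 - c) ^ (n + 1) := by rw [pow_succ']

/-- The set of `ω` for which the total mass at grid time `i` is small and both are alive. -/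
def Cg (ρ : ℝ≥0 → Ω → ProbabilityMeasure I) (U V : Set I) (δ : ℝ) (k i : ℕ) : Set Ω :=
  {ω | X ρ (U ∪ V) ((i : ℝ≥0) / ((k : ℝ≥0) + 1)) ω ≤ δ} ∩
    Al ρ U V ((i : ℝ≥0) / ((k : ℝ≥0) + 1))

/-- The first grid time. -/
def Bf (ρ : ℝ≥0 → Ω → ProbabilityMeasure I) (U V : Set I) (δ : ℝ) (k i : ℕ) : Set Ω :=
  Cg ρ U V δ k i \ ⋃ j ∈ Finset.range i, Cg ρ U V δ k j

theorem grid_mono (k : ℕ) {i j : ℕ} (hij : i ≤ j) :
    (i : ℝ≥0) / ((k : ℝ≥0) + 1) ≤ (j : ℝ≥0) / ((k : ℝ≥0) + 1) := by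
  have : (i : ℝ≥0) ≤ j := by exact_mod_cast hij
  gcongr

omit [IsProbabilityMeasure μ] [IsFiniteMeasure Λ] in
theorem Cg_measurable (h : IsLambdaFlemingViot Λ μ ℱ ρ) (U V : Set I) (hU : MeasurableSet U)
    (hV : MeasurableSet V) (δ : ℝ) (k i : ℕ) :
    MeasurableSet[ℱ ((i : ℝ≥0) / ((k : ℝ≥0) + 1))] (Cg ρ U V δ k i) :=
  (X_measurable h (U ∪ V) (hU.union hV) _ measurableSet_Iic).inter
    (Al_measurable h U V hU hV _)

omit [IsProbabilityMeasure μ] [IsFiniteMeasure Λ] in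
theorem Bf_measurable (h : IsLambdaFlemingViot Λ μ ℱ ρ) (U V : Set I) (hU : MeasurableSet U)
    (hV : MeasurableSet V) (δ : ℝ) (k i : ℕ) :
    MeasurableSet[ℱ ((i : ℝ≥0) / ((k : ℝ≥0) + 1))] (Bf ρ U V δ k i) := by
  refine (Cg_measurable h U V hU hV δ k i).diff ?_
  refine Finset.measurableSet_biUnion _ fun j hj => ?_
  exact ℱ.mono (grid_mono k (Finset.mem_range.1 hj).le) _ (Cg_measurable h U V hU hV δ k j)

omit mΩ in
theorem Bf_disjoint (U V : Set I) (δ : ℝ) (k : ℕ) (s : Set ℕ) :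
    s.PairwiseDisjoint (Bf ρ U V δ k) := by
  have aux : ∀ i j : ℕ, i < j → Disjoint (Bf ρ U V δ k i) (Bf ρ U V δ k j) := by
    intro i j hij
    rw [Set.disjoint_left]
    intro ω hi hj
    refine hj.2 ?_
    simp only [Set.mem_iUnion, exists_prop]
    exact ⟨i, Finset.mem_range.2 hij, hi.1⟩
  intro i _ j _ hij
  rcases lt_or_gt_of_ne hij with h | h
  · exact aux i j h
  · exact (aux j i h).symm

omit mΩ in
theorem mem_biUnion_Bf (U V : Set I) (δ : ℝ) (k M : ℕ) (ω : Ω) (i : ℕ) (hi : i < M)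
    (hω : ω ∈ Cg ρ U V δ k i) : ω ∈ ⋃ i ∈ Finset.range M, Bf ρ U V δ k i := by
  classical
  have hex : ∃ i, ω ∈ Cg ρ U V δ k i := ⟨i, hω⟩
  have hle : Nat.find hex ≤ i := Nat.find_min' hex hω
  simp only [Set.mem_iUnion, exists_prop]
  refine ⟨Nat.find hex, Finset.mem_range.2 (by omega), Nat.find_spec hex, ?_⟩
  simp only [Set.mem_iUnion, exists_prop, not_exists, not_and]
  intro j hj
  exact Nat.find_min hex (Finset.mem_range.1 hj)

end

end Pool.Agent.Lib.MP_939494_pr
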