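import Pool.Agent.Lib.MP_939494_pr.Defs

/-!
# Merging blocks of a partition
-/

open MeasureTheory Finset
open scoped ENNReal NNReal unitInterval

namespace Pool.Agent.Lib.MP_939494_pr

/-- The partition obtained from `π` by merging the blocks in `J`. -/
def mergeP {n : ℕ} (π : Part n) (J : Finset (Finset (Fin n))) (hJ : J ⊆ π.parts)
    (hne : J.Nonempty) : Part n :=
  Finpartition.ofExistsUnique (insert (J.sup id) (π.parts \ J)) (fun p _ => Finset.subset_univ p)
    (by
      intro a _
      obtain ⟨B, ⟨hB, haB⟩, huniq⟩ := π.existsUnique_mem (Finset.mem_univ a)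
      by_cases hBJ : B ∈ J
      · refine ⟨J.sup id, ⟨mem_insert_self _ _, Finset.mem_sup.2 ⟨B, hBJ, haB⟩⟩, ?_⟩
        rintro C ⟨hC, haC⟩
        rcases mem_insert.1 hC with h | h
        · exact h
        · rw [mem_sdiff] at h
          have := huniq C ⟨h.1, haC⟩
          exact absurd (this ▸ hBJ) h.2
      · refine ⟨B, ⟨mem_insert_of_mem (mem_sdiff.2 ⟨hB, hBJ⟩), haB⟩, ?_⟩
        rintro C ⟨hC, haC⟩
        rcases mem_insert.1 hC with h | h
        · subst h
          obtain ⟨D, hD, haD⟩ := Finset.mem_sup.1 haC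
          have := huniq D ⟨hJ hD, haD⟩
          exact absurd (this ▸ hD) hBJ
        · exact huniq C ⟨(mem_sdiff.1 h).1, haC⟩)
    (by
      intro h
      rcases mem_insert.1 h with h | h
      · obtain ⟨B, hB⟩ := hne
        obtain ⟨a, ha⟩ := π.nonempty_of_mem_parts (hJ hB)
        have : a ∈ J.sup id := Finset.mem_sup.2 ⟨B, hB, ha⟩
        rw [← h] at this
        simp at this
      · exact π.empty_notMem_parts (mem_sdiff.1 h).1)

theorem mergeP_parts {n : ℕ} (π : Part n) (J : Finset (Finset (Fin n))) (hJ : J ⊆ π.parts)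
    (hne : J.Nonempty) : (mergeP π J hJ hne).parts = insert (J.sup id) (π.parts \ J) := rfl

theorem mergeP_card {n : ℕ} (π : Part n) (J : Finset (Finset (Fin n))) (hJ : J ⊆ π.parts)
    (hne : J.Nonempty) : (mergeP π J hJ hne).parts.card = π.parts.card + 1 - J.card := by
  have hnot : J.sup id ∉ π.parts \ J := by
    intro h
    rw [mem_sdiff] at h
    obtain ⟨B, hB⟩ := hne
    obtain ⟨a, ha⟩ := π.nonempty_of_mem_parts (hJ hB)
    have hmem : a ∈ J.sup id := Finset.mem_sup.2 ⟨B, hB, ha⟩
    have := π.eq_of_mem_parts (hJ hB) h.1 ha hmem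
    exact h.2 (this ▸ hB)
  rw [mergeP_parts, card_insert_of_notMem hnot, card_sdiff_of_subset hJ]
  have := card_le_card hJ
  omega

theorem eq_mergeP_iff {n : ℕ} (π π' : Part n) (J : Finset (Finset (Fin n))) (hJ : J ⊆ π.parts)
    (hne : J.Nonempty) :
    π'.parts = insert (J.sup id) (π.parts \ J) ↔ π' = mergeP π J hJ hne := by
  constructor
  · intro h
    exact Finpartition.ext h
  · intro h
    rw [h]
    rfl

/-- The action of the generator on a function of the partition. -/
theorem generator_apply (Λ : Measure I) (n : ℕ) (π : Part n) (φ : Part n → ℝ) :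
    ∑ π', coalGenerator Λ n π π' * φ π' =
      ∑ J ∈ (π.parts.powerset).attach, if h : 2 ≤ J.1.card then
        mergeRate Λ π.parts.card J.1.card *
          (φ (mergeP π J.1 (mem_powerset.1 J.2) (card_pos.1 (by omega))) - φ π) else 0 := by
  unfold coalGenerator
  simp_rw [Finset.sum_mul]
  rw [Finset.sum_comm, Finset.sum_filter, ← Finset.sum_attach]
  refine Finset.sum_congr rfl fun J _ => ?_
  split_ifs with h
  · have hJ := mem_powerset.1 J.2
    have hne : J.1.Nonempty := card_pos.1 (by omega)
    have h1 : ∀ π' : Part n, (π'.parts = insert (J.1.sup id) (π.parts \ J.1)) =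
        (π' = mergeP π J.1 hJ hne) := fun π' => propext (eq_mergeP_iff π π' J.1 hJ hne)
    simp_rw [h1, mul_assoc, ← Finset.mul_sum, sub_mul, Finset.sum_sub_distrib]
    simp
  · rfl

end Pool.Agent.Lib.MP_939494_pr
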