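import Pool.Agent.Lib.MP_939494_pr.Main

/-!
# Simultaneous extinction of two disjoint sets of types has probability zero
-/

open MeasureTheory Finset Filter Topology
open scoped ENNReal NNReal unitInterval

namespace Pool.Agent.Lib.MP_939494_pr

section

variable {Λ : Measure I} {Ω : Type*} [mΩ : MeasurableSpace Ω] {μ : Measure Ω}
  {ℱ : Filtration ℝ≥0 mΩ} {ρ : ℝ≥0 → Ω → ProbabilityMeasure I} [IsProbabilityMeasure μ]
  [IsFiniteMeasure Λ]

omit [IsFiniteMeasure Λ] in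
/-- Step 1 for one grid time. -/
theorem step1 (h : IsLambdaFlemingViot Λ μ ℱ ρ) (U V : Set I) (hU : MeasurableSet U)
    (hV : MeasurableSet V) (hd : Disjoint U V) (δ : ℝ) (hδ1 : δ < 1) (k i : ℕ)
    (r : ℝ≥0) (hr : r ∈ QT) :
    μ.real (Bf ρ U V δ k i) ≤ μ.real (Bf ρ U V δ k i ∩ AR ρ U V r) +
      (1 - G Λ (r : ℝ) (1 - δ)) * μ.real (Bf ρ U V δ k i) := by
  set t : ℝ≥0 := (i : ℝ≥0) / ((k : ℝ≥0) + 1) with ht
  have htQ : t ∈ QT := QT_div i k
  set B := Bf ρ U V δ k i with hB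
  have hBm : MeasurableSet[ℱ t] B := Bf_measurable h U V hU hV δ k i
  have hBm' : MeasurableSet B := ℱ.le t _ hBm
  have h1 := dead_prob' h (U ∪ V) (hU.union hV) t r B hBm
  have h2 : ∫ _ in B, G Λ (r : ℝ) (1 - δ) ∂μ ≤
      ∫ ω in B, G Λ (r : ℝ) (1 - X ρ (U ∪ V) t ω) ∂μ := by
    refine setIntegral_mono_on (integrable_const _).integrableOn
      (integrable_G h (U ∪ V) (hU.union hV) t r).integrableOn hBm' fun ω hω => ?_
    have h3 : X ρ (U ∪ V) t ω ≤ δ := hω.1.1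
    exact G_mono (NNReal.coe_nonneg r) (by linarith) (by linarith)
  rw [setIntegral_const, smul_eq_mul] at h2
  have h3 : μ.real (B ∩ {ω | X ρ (U ∪ V) (t + r) ω = 0}) ≤ μ.real (B ∩ AR ρ U V r) := by
    refine ENNReal.toReal_mono (measure_ne_top _ _) (measure_mono_ae ?_)
    filter_upwards [absorb_all h U hU, absorb_all h V hV] with ω aU aV hω
    have h4 := X_union (ρ := ρ) U V hV hd (t + r) ω
    have h5 : X ρ (U ∪ V) (t + r) ω = 0 := hω.2
    have h6 := X_nonneg (ρ := ρ) U (t + r) ω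
    have h7 := X_nonneg (ρ := ρ) V (t + r) ω
    refine ⟨hω.1, t, htQ, hω.1.1.2, fun u hu hle => ⟨?_, ?_⟩⟩
    · exact aU _ (QT_add htQ hr) u hu hle (by linarith)
    · exact aV _ (QT_add htQ hr) u hu hle (by linarith)
  linarith

omit [IsFiniteMeasure Λ] in
/-- Step 3 for one grid time. -/
theorem step3 (h : IsLambdaFlemingViot Λ μ ℱ ρ) (U V : Set I) (hU : MeasurableSet U)
    (hV : MeasurableSet V) (δ : ℝ) (hδ1 : δ < 1) (s r : ℝ≥0) :
    μ.real ({ω | δ < X ρ (U ∪ V) s ω} ∩ {ω | X ρ (U ∪ V) (s + r) ω = 0}) ≤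
      G Λ (r : ℝ) (1 - δ) := by
  have hm : MeasurableSet[ℱ s] {ω | δ < X ρ (U ∪ V) s ω} :=
    X_measurable h (U ∪ V) (hU.union hV) s measurableSet_Ioi
  have hm' := ℱ.le s _ hm
  have hG0 : 0 ≤ G Λ (r : ℝ) (1 - δ) := G_nonneg (NNReal.coe_nonneg r) (by linarith)
  rw [dead_prob' h (U ∪ V) (hU.union hV) s r _ hm]
  have h2 : ∫ ω in {ω | δ < X ρ (U ∪ V) s ω}, G Λ (r : ℝ) (1 - X ρ (U ∪ V) s ω) ∂μ ≤
      ∫ _ in {ω | δ < X ρ (U ∪ V) s ω}, G Λ (r : ℝ) (1 - δ) ∂μ := by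
    refine setIntegral_mono_on (integrable_G h (U ∪ V) (hU.union hV) s r).integrableOn
      (integrable_const _).integrableOn hm' fun ω hω => ?_
    have h3 : δ < X ρ (U ∪ V) s ω := hω
    have h4 := X_le_one (ρ := ρ) (U ∪ V) s ω
    exact G_mono (NNReal.coe_nonneg r) (by linarith) (by linarith)
  rw [setIntegral_const, smul_eq_mul] at h2
  have h3 : μ.real {ω | δ < X ρ (U ∪ V) s ω} ≤ 1 := measureReal_le_one
  have h4 : μ.real {ω | δ < X ρ (U ∪ V) s ω} * G Λ (r : ℝ) (1 - δ) ≤ 1 * G Λ (r : ℝ) (1 - δ) :=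
    mul_le_mul_of_nonneg_right h3 hG0
  linarith

/-- The main inequality. -/
theorem main_ineq (h : IsLambdaFlemingViot Λ μ ℱ ρ) (h1 : Λ {1} = 0) (U V : Set I)
    (hU : MeasurableSet U) (hV : MeasurableSet V) (hd : Disjoint U V) (c : ℝ) (hc1 : c ≤ 1)
    (hgap : ∀ p q : ℝ, 0 < p → p ≤ q → p + q ≤ 1 →
      ∃ s : ℚ, 0 < s ∧ s ≤ 1 ∧ c ≤ G Λ s (1 - p) - G Λ s (1 - p - q))
    (δ : ℝ) (hδ0 : 0 < δ) (hδ1 : δ < 1) (r : ℝ≥0) (hr : r ∈ QT) (T k : ℕ) :
    μ.real (AA ρ U V) ≤ (1 - c) * (μ.real (AR ρ U V r) + (1 - G Λ (r : ℝ) (1 - δ))) +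
      ((T : ℝ) * ((k : ℝ) + 1) + 1) * G Λ (2 / ((k : ℝ) + 1)) (1 - δ) + (1 - c) ^ T := by
  set M := T * (k + 1) + 1 with hM
  set B := ⋃ i ∈ Finset.range M, Bf ρ U V δ k i with hBdef
  have hG0 : 0 ≤ 1 - G Λ (r : ℝ) (1 - δ) := by
    have := G_le_one (Λ := Λ) (NNReal.coe_nonneg r) (show 0 ≤ 1 - δ by linarith) (by linarith)
    linarith
  have hBfm : ∀ i, MeasurableSet (Bf ρ U V δ k i) := fun i =>
    ℱ.le _ _ (Bf_measurable h U V hU hV δ k i)
  have hBm : MeasurableSet B := Finset.measurableSet_biUnion _ fun i _ => hBfm i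
  have hARm := AR_measurable h U V hU hV r
  have hAAm : MeasurableSet (AA ρ U V) :=
    MeasurableSet.iInter fun m => AR_measurable h U V hU hV _
  have hBsum : μ.real B = ∑ i ∈ Finset.range M, μ.real (Bf ρ U V δ k i) :=
    measureReal_biUnion_finset (Bf_disjoint U V δ k _) fun i _ => hBfm i
  -- step 1
  have hs1 : μ.real B ≤ μ.real (AR ρ U V r) + (1 - G Λ (r : ℝ) (1 - δ)) := by
    have h2 : μ.real B ≤ μ.real (B ∩ AR ρ U V r) + (1 - G Λ (r : ℝ) (1 - δ)) * μ.real B := by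
      have h3 : μ.real (B ∩ AR ρ U V r) =
          ∑ i ∈ Finset.range M, μ.real (Bf ρ U V δ k i ∩ AR ρ U V r) := by
        rw [hBdef, Set.iUnion₂_inter]
        refine measureReal_biUnion_finset ?_ fun i _ => (hBfm i).inter hARm
        intro i hi j hj hij
        exact Disjoint.mono Set.inter_subset_left Set.inter_subset_left
          (Bf_disjoint U V δ k _ hi hj hij)
      rw [h3, hBsum, Finset.mul_sum, ← Finset.sum_add_distrib]
      exact Finset.sum_le_sum fun i _ => step1 h U V hU hV hd δ hδ1 k i r hr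
    have h4 : μ.real (B ∩ AR ρ U V r) ≤ μ.real (AR ρ U V r) :=
      measureReal_mono Set.inter_subset_right
    have h5 : μ.real B ≤ 1 := measureReal_le_one
    have h6 : (1 - G Λ (r : ℝ) (1 - δ)) * μ.real B ≤ (1 - G Λ (r : ℝ) (1 - δ)) * 1 :=
      mul_le_mul_of_nonneg_left h5 hG0
    linarith
  -- step 2
  have hs2 : μ.real (B ∩ AA ρ U V) ≤ (1 - c) * μ.real B := by
    have h2 : ∀ i, μ (Bf ρ U V δ k i ∩ AA ρ U V) ≤
        ENNReal.ofReal (1 - c) * μ (Bf ρ U V δ k i) := by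
      intro i
      refine lemK h U V hU hV hd ((i : ℝ≥0) / ((k : ℝ≥0) + 1)) c hc1 hgap _
        (Bf_measurable h U V hU hV δ k i) (fun ω hω => hω.1.2) (AA ρ U V) ?_
      filter_upwards [AA_not_one h h1 U V hU hV] with ω hω hA q hq _ _
      exact hω hA _ (QT_add (QT_div i k) hq)
    have h3 : μ (B ∩ AA ρ U V) ≤ ENNReal.ofReal (1 - c) * μ B := by
      calc μ (B ∩ AA ρ U V) = μ (⋃ i ∈ Finset.range M, (Bf ρ U V δ k i ∩ AA ρ U V)) := by
            rw [hBdef, Set.iUnion₂_inter]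
        _ ≤ ∑ i ∈ Finset.range M, μ (Bf ρ U V δ k i ∩ AA ρ U V) :=
            measure_biUnion_finset_le _ _
        _ ≤ ∑ i ∈ Finset.range M, ENNReal.ofReal (1 - c) * μ (Bf ρ U V δ k i) :=
            Finset.sum_le_sum fun i _ => h2 i
        _ = ENNReal.ofReal (1 - c) * μ B := by
            rw [← Finset.mul_sum, hBdef,
              measure_biUnion_finset (Bf_disjoint U V δ k _) fun i _ => hBfm i]
    have h4 := ENNReal.toReal_mono
      (ENNReal.mul_ne_top ENNReal.ofReal_ne_top (measure_ne_top _ _)) h3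
    rw [ENNReal.toReal_mul, ENNReal.toReal_ofReal (by linarith)] at h4
    exact h4
  -- step 3
  have hs3 : μ.real (AA ρ U V \ B) ≤
      ((T : ℝ) * ((k : ℝ) + 1) + 1) * G Λ (2 / ((k : ℝ) + 1)) (1 - δ) + (1 - c) ^ T := by
    set F : ℕ → Set Ω := fun i => {ω | δ < X ρ (U ∪ V) ((i : ℝ≥0) / ((k : ℝ≥0) + 1)) ω} ∩
      {ω | X ρ (U ∪ V) ((i : ℝ≥0) / ((k : ℝ≥0) + 1) + 2 / ((k : ℝ≥0) + 1)) ω = 0} with hF
    have hsub : μ.real (AA ρ U V \ B) ≤
        μ.real ((⋃ i ∈ Finset.range M, F i) ∪ Al ρ U V (T : ℝ≥0)) := by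
      refine ENNReal.toReal_mono (measure_ne_top _ _) (measure_mono_ae ?_)
      filter_upwards [absorb_all h U hU, absorb_all h V hV] with ω aU aV hω
      obtain ⟨t, ht, ⟨htU, htV⟩, hdead⟩ := Set.mem_iInter.1 hω.1 k
      -- the grid index
      have hk : (0 : ℝ≥0) < (k : ℝ≥0) + 1 := by positivity
      set i := ⌊t * ((k : ℝ≥0) + 1)⌋₊ with hi
      have hi1 : (i : ℝ≥0) / ((k : ℝ≥0) + 1) ≤ t := by
        rw [div_le_iff₀ hk]
        exact Nat.floor_le zero_le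
      have hi2 : t < ((i : ℝ≥0) + 1) / ((k : ℝ≥0) + 1) := by
        rw [lt_div_iff₀ hk]
        exact Nat.lt_floor_add_one _
      have hiQ : (i : ℝ≥0) / ((k : ℝ≥0) + 1) ∈ QT := QT_div i k
      have hali : ω ∈ Al ρ U V ((i : ℝ≥0) / ((k : ℝ≥0) + 1)) := by
        refine ⟨lt_of_le_of_ne (X_nonneg _ _ _) fun h0 => ?_,
          lt_of_le_of_ne (X_nonneg _ _ _) fun h0 => ?_⟩
        · have := aU _ hiQ t ht hi1 h0.symm
          linarith
        · have := aV _ hiQ t ht hi1 h0.symm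
          linarith
      have hend : t + 1 / ((k : ℝ≥0) + 1) ≤
          (i : ℝ≥0) / ((k : ℝ≥0) + 1) + 2 / ((k : ℝ≥0) + 1) := by
        have e : (i : ℝ≥0) / ((k : ℝ≥0) + 1) + 2 / ((k : ℝ≥0) + 1) =
            ((i : ℝ≥0) + 1) / ((k : ℝ≥0) + 1) + 1 / ((k : ℝ≥0) + 1) := by
          rw [← add_div, ← add_div]
          congr 1
          ring
        rw [e]
        exact add_le_add_left hi2.le _
      have h2Q : (2 : ℝ≥0) / ((k : ℝ≥0) + 1) ∈ QT := by
        have := QT_div 2 k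
        simpa using this
      have hdd := hdead _ (QT_add hiQ h2Q) hend
      have hdu : X ρ (U ∪ V) ((i : ℝ≥0) / ((k : ℝ≥0) + 1) + 2 / ((k : ℝ≥0) + 1)) ω = 0 := by
        rw [X_union U V hV hd, hdd.1, hdd.2, add_zero]
      rcases Nat.lt_or_ge i M with hiM | hiM
      · left
        simp only [Set.mem_iUnion, exists_prop]
        refine ⟨i, Finset.mem_range.2 hiM, ?_, hdu⟩
        by_contra hcon
        refine hω.2 (mem_biUnion_Bf U V δ k M ω i hiM ⟨?_, hali⟩)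
        rw [Set.mem_ofPred_eq, not_lt] at hcon
        exact hcon
      · right
        have hTt : (T : ℝ≥0) ≤ t := by
          refine le_trans ?_ hi1
          rw [le_div_iff₀ hk]
          have : T * (k + 1) ≤ i := by omega
          exact_mod_cast this
        refine ⟨lt_of_le_of_ne (X_nonneg _ _ _) fun h0 => ?_,
          lt_of_le_of_ne (X_nonneg _ _ _) fun h0 => ?_⟩
        · have := aU _ (QT_natCast T) t ht hTt h0.symm
          linarith
        · have := aV _ (QT_natCast T) t ht hTt h0.symm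
          linarith
    have hFi : ∀ i, μ.real (F i) ≤ G Λ (2 / ((k : ℝ) + 1)) (1 - δ) := by
      intro i
      have := step3 h U V hU hV δ hδ1 ((i : ℝ≥0) / ((k : ℝ≥0) + 1)) (2 / ((k : ℝ≥0) + 1))
      push_cast at this
      exact this
    have hAl : μ.real (Al ρ U V (T : ℝ≥0)) ≤ (1 - c) ^ T := by
      have h2 := Al_pow h U V hU hV hd c hc1 hgap T
      have h3 := ENNReal.toReal_mono (by finiteness) h2
      rw [ENNReal.toReal_pow, ENNReal.toReal_ofReal (by linarith)] at h3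
      exact h3
    calc μ.real (AA ρ U V \ B) ≤ _ := hsub
      _ ≤ μ.real (⋃ i ∈ Finset.range M, F i) + μ.real (Al ρ U V (T : ℝ≥0)) :=
          measureReal_union_le _ _
      _ ≤ ∑ i ∈ Finset.range M, μ.real (F i) + (1 - c) ^ T :=
          add_le_add (measureReal_biUnion_finset_le _ _) hAl
      _ ≤ ∑ _i ∈ Finset.range M, G Λ (2 / ((k : ℝ) + 1)) (1 - δ) + (1 - c) ^ T :=
          add_le_add (Finset.sum_le_sum fun i _ => hFi i) le_rfl
      _ = _ := by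
          rw [Finset.sum_const, Finset.card_range, nsmul_eq_mul, hM]
          push_cast
          ring
  have hsplit : μ.real (AA ρ U V) ≤ μ.real (B ∩ AA ρ U V) + μ.real (AA ρ U V \ B) := by
    rw [Set.inter_comm, measureReal_inter_add_sdiff hBm]
  have h7 : (1 - c) * μ.real B ≤
      (1 - c) * (μ.real (AR ρ U V r) + (1 - G Λ (r : ℝ) (1 - δ))) :=
    mul_le_mul_of_nonneg_left hs1 (by linarith)
  linarith

theorem AA_le (h : IsLambdaFlemingViot Λ μ ℱ ρ) (h1 : Λ {1} = 0)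
    (hC : ComesDownFromInfinity Λ) (U V : Set I)
    (hU : MeasurableSet U) (hV : MeasurableSet V) (hd : Disjoint U V) (c : ℝ) (hc0 : 0 < c)
    (hc1 : c ≤ 1)
    (hgap : ∀ p q : ℝ, 0 < p → p ≤ q → p + q ≤ 1 →
      ∃ s : ℚ, 0 < s ∧ s ≤ 1 ∧ c ≤ G Λ s (1 - p) - G Λ s (1 - p - q))
    (r : ℝ≥0) (hr : r ∈ QT) (hr0 : 0 < r) :
    μ.real (AA ρ U V) ≤ (1 - c) * μ.real (AR ρ U V r) := by
  refine le_of_forall_pos_le_add fun ε hε => ?_
  obtain ⟨δ, hδ0, hδ1, hδ⟩ := G_near_one hC (s := (r : ℝ)) (ε := ε / 3)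
    (by exact_mod_cast hr0) (by positivity)
  have hGδ := hδ (1 - δ) le_rfl (by linarith)
  obtain ⟨T, hT⟩ : ∃ T : ℕ, (1 - c) ^ T ≤ ε / 3 := by
    have := tendsto_pow_atTop_nhds_zero_of_lt_one (r := 1 - c) (by linarith) (by linarith)
    obtain ⟨T, hT⟩ := (this.eventually (gt_mem_nhds (show 0 < ε / 3 by positivity))).exists
    exact ⟨T, hT.le⟩
  have hT0 : (0 : ℝ) ≤ T := Nat.cast_nonneg T
  obtain ⟨t₀, ht₀, hsmall⟩ := G_little_o h1 (x := 1 - δ) (by linarith) (by linarith)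
    (ε / (6 * ((T : ℝ) + 1))) (by positivity)
  obtain ⟨k, hk⟩ : ∃ k : ℕ, 2 / ((k : ℝ) + 1) ≤ t₀ := by
    obtain ⟨k, hk⟩ := exists_nat_gt (2 / t₀)
    refine ⟨k, ?_⟩
    rw [div_le_iff₀ (by positivity)]
    rw [div_lt_iff₀ ht₀] at hk
    nlinarith
  have hmain := main_ineq h h1 U V hU hV hd c hc1 hgap δ hδ0 hδ1 r hr T k
  have hGk := hsmall (2 / ((k : ℝ) + 1)) (by positivity) hk
  have hk0 : (0 : ℝ) ≤ k := Nat.cast_nonneg k
  have h5 : ((T : ℝ) * ((k : ℝ) + 1) + 1) * G Λ (2 / ((k : ℝ) + 1)) (1 - δ) ≤ ε / 3 := by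
    have h6 : ((T : ℝ) * ((k : ℝ) + 1) + 1) ≤ ((T : ℝ) + 1) * ((k : ℝ) + 1) := by nlinarith
    have hG0 : 0 ≤ G Λ (2 / ((k : ℝ) + 1)) (1 - δ) := G_nonneg (by positivity) (by linarith)
    calc ((T : ℝ) * ((k : ℝ) + 1) + 1) * G Λ (2 / ((k : ℝ) + 1)) (1 - δ)
        ≤ (((T : ℝ) + 1) * ((k : ℝ) + 1)) * G Λ (2 / ((k : ℝ) + 1)) (1 - δ) :=
          mul_le_mul_of_nonneg_right h6 hG0
      _ ≤ (((T : ℝ) + 1) * ((k : ℝ) + 1)) * (ε / (6 * ((T : ℝ) + 1)) * (2 / ((k : ℝ) + 1))) :=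
          mul_le_mul_of_nonneg_left hGk (by positivity)
      _ = ε / 3 := by
          field_simp
          norm_num
  have h7 : (1 - c) * (μ.real (AR ρ U V r) + (1 - G Λ (r : ℝ) (1 - δ))) ≤
      (1 - c) * μ.real (AR ρ U V r) + ε / 3 := by
    have h8 : 0 ≤ 1 - G Λ (r : ℝ) (1 - δ) := by
      have := G_le_one (Λ := Λ) (NNReal.coe_nonneg r) (show 0 ≤ 1 - δ by linarith) (by linarith)
      linarith
    have h9 : (1 - c) * (1 - G Λ (r : ℝ) (1 - δ)) ≤ 1 * (1 - G Λ (r : ℝ) (1 - δ)) :=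
      mul_le_mul_of_nonneg_right (by linarith) h8
    linarith
  linarith

/-- Two disjoint sets of types die at the same time with probability zero. -/
theorem AA_null (h : IsLambdaFlemingViot Λ μ ℱ ρ) (h1 : Λ {1} = 0)
    (hC : ComesDownFromInfinity Λ) (U V : Set I)
    (hU : MeasurableSet U) (hV : MeasurableSet V) (hd : Disjoint U V) :
    ∀ᵐ ω ∂μ, ω ∉ AA ρ U V := by
  obtain ⟨c, hc0, hc1, hgap⟩ := key_gap (rep h) h1 hC
  have hle : ∀ m : ℕ, μ.real (AA ρ U V) ≤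
      (1 - c) * μ.real (AR ρ U V (1 / ((m : ℝ≥0) + 1))) := fun m =>
    AA_le h h1 hC U V hU hV hd c hc0 hc1.le hgap _ (QT_inv m) (by positivity)
  have hanti : Antitone fun m : ℕ => AR ρ U V (1 / ((m : ℝ≥0) + 1)) := by
    intro m m' hmm
    refine AR_mono U V ?_
    have : (m : ℝ≥0) ≤ m' := by exact_mod_cast hmm
    gcongr
  have hlim : Tendsto (fun m : ℕ => μ (AR ρ U V (1 / ((m : ℝ≥0) + 1)))) atTop
      (𝓝 (μ (AA ρ U V))) :=
    tendsto_measure_iInter_atTop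
      (fun m => (AR_measurable h U V hU hV _).nullMeasurableSet) hanti ⟨0, measure_ne_top _ _⟩
  have hlim2 : Tendsto (fun m : ℕ => (1 - c) * μ.real (AR ρ U V (1 / ((m : ℝ≥0) + 1)))) atTop
      (𝓝 ((1 - c) * μ.real (AA ρ U V))) :=
    ((ENNReal.tendsto_toReal (measure_ne_top _ _)).comp hlim).const_mul _
  have h2 : μ.real (AA ρ U V) ≤ (1 - c) * μ.real (AA ρ U V) := ge_of_tendsto' hlim2 hle
  have h3 : 0 ≤ μ.real (AA ρ U V) := measureReal_nonneg
  have h4 : μ.real (AA ρ U V) = 0 := by nlinarith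
  rw [measureReal_eq_zero_iff] at h4
  exact measure_eq_zero_iff_ae_notMem.1 h4

/-- Two disjoint sets of types are not both alive forever. -/
theorem not_forever (h : IsLambdaFlemingViot Λ μ ℱ ρ) (h1 : Λ {1} = 0)
    (hC : ComesDownFromInfinity Λ) (U V : Set I)
    (hU : MeasurableSet U) (hV : MeasurableSet V) (hd : Disjoint U V) :
    ∀ᵐ ω ∂μ, ∃ n : ℕ, ω ∉ Al ρ U V (n : ℝ≥0) := by
  obtain ⟨c, hc0, hc1, hgap⟩ := key_gap (rep h) h1 hC
  have hle : ∀ n : ℕ, μ (⋂ n : ℕ, Al ρ U V (n : ℝ≥0)) ≤ ENNReal.ofReal (1 - c) ^ n := fun n =>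
    (measure_mono (Set.iInter_subset _ n)).trans (Al_pow h U V hU hV hd c hc1.le hgap n)
  have hlim : Tendsto (fun n : ℕ => ENNReal.ofReal (1 - c) ^ n) atTop (𝓝 0) := by
    refine ENNReal.tendsto_pow_atTop_nhds_zero_of_lt_one ?_
    rw [ENNReal.ofReal_lt_one]
    linarith
  have h0 : μ (⋂ n : ℕ, Al ρ U V (n : ℝ≥0)) = 0 :=
    le_antisymm (ge_of_tendsto' hlim hle) zero_le
  filter_upwards [measure_eq_zero_iff_ae_notMem.1 h0] with ω hω
  by_contra hcon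
  push Not at hcon
  exact hω (Set.mem_iInter.2 hcon)

end

end Pool.Agent.Lib.MP_939494_pr
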