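import Pool.Agent.Lib.MP_939494_pr.Gfun

/-!
# Moments and extinction probabilities of the Fleming-Viot process
-/

open MeasureTheory Finset Filter Topology
open scoped ENNReal NNReal unitInterval

namespace Pool.Agent.Lib.MP_939494_pr

section

variable {Λ : Measure I} {Ω : Type*} [mΩ : MeasurableSpace Ω] {μ : Measure Ω}
  {ℱ : Filtration ℝ≥0 mΩ} {ρ : ℝ≥0 → Ω → ProbabilityMeasure I}

/-- The mass of a set, as a real number. -/
noncomputable def X (ρ : ℝ≥0 → Ω → ProbabilityMeasure I) (W : Set I) (t : ℝ≥0) (ω : Ω) : ℝ :=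
  (ρ t ω : Measure I).real W

omit mΩ in
theorem X_nonneg (W : Set I) (t : ℝ≥0) (ω : Ω) : 0 ≤ X ρ W t ω := measureReal_nonneg

omit mΩ in
theorem X_le_one (W : Set I) (t : ℝ≥0) (ω : Ω) : X ρ W t ω ≤ 1 := measureReal_le_one

omit mΩ in
theorem X_compl (W : Set I) (hW : MeasurableSet W) (t : ℝ≥0) (ω : Ω) :
    X ρ Wᶜ t ω = 1 - X ρ W t ω := by
  unfold X
  rw [probReal_compl_eq_one_sub hW]

theorem X_measurable (h : IsLambdaFlemingViot Λ μ ℱ ρ) (W : Set I) (hW : MeasurableSet W)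
    (t : ℝ≥0) : Measurable[ℱ t] (X ρ W t) :=
  (h.adapted t W hW).ennreal_toReal

theorem X_measurable' (h : IsLambdaFlemingViot Λ μ ℱ ρ) (W : Set I) (hW : MeasurableSet W)
    (t : ℝ≥0) : Measurable (X ρ W t) :=
  (X_measurable h W hW t).mono (ℱ.le t) le_rfl

theorem box_lintegral (ν : Measure I) [IsProbabilityMeasure ν] (W : Set I)
    (hW : MeasurableSet W) (ι : Type*) [Fintype ι] :
    ∫⁻ y, (Set.pi Set.univ fun _ : ι => W).indicator (fun _ => (1 : ℝ≥0∞)) y
      ∂(Measure.pi fun _ : ι => ν) = ν W ^ Fintype.card ι := by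
  rw [lintegral_indicator (MeasurableSet.univ_pi fun _ => hW), lintegral_const,
    Measure.restrict_apply MeasurableSet.univ, Set.univ_inter, Measure.pi_pi, one_mul,
    Finset.prod_const, Finset.card_univ]

theorem box_comp {n : ℕ} (π : Part n) (W : Set I) (z : π.parts → I) :
    (Set.pi Set.univ fun _ : Fin n => W).indicator (fun _ => (1 : ℝ≥0∞))
      (fun i => z (blockOf π i)) =
    (Set.pi Set.univ fun _ : π.parts => W).indicator (fun _ => (1 : ℝ≥0∞)) z := by
  have : ((fun i => z (blockOf π i)) ∈ Set.pi Set.univ fun _ : Fin n => W) ↔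
      z ∈ Set.pi Set.univ fun _ : π.parts => W := by
    simp only [Set.mem_pi, Set.mem_univ, true_imp_iff]
    constructor
    · intro hz B
      obtain ⟨i, hi⟩ := π.nonempty_of_mem_parts B.2
      have h1 : blockOf π i = B := Subtype.ext (π.part_eq_of_mem B.2 hi)
      rw [← h1]
      exact hz i
    · intro hz i
      exact hz _
  by_cases hz : z ∈ Set.pi Set.univ fun _ : π.parts => W
  · rw [Set.indicator_of_mem hz, Set.indicator_of_mem (this.2 hz)]
  · rw [Set.indicator_of_notMem hz, Set.indicator_of_notMem (fun h => hz (this.1 h))]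

theorem moment_lintegral (h : IsLambdaFlemingViot Λ μ ℱ ρ) (W : Set I) (hW : MeasurableSet W)
    (n : ℕ) (s t : ℝ≥0) (hst : s ≤ t) (A : Set Ω) (hA : MeasurableSet[ℱ s] A) :
    ∫⁻ ω in A, (ρ t ω : Measure I) W ^ n ∂μ =
      ∫⁻ ω in A, ∑ π : Part n, ENNReal.ofReal (coalProb Λ n ((t : ℝ) - (s : ℝ)) π) *
        (ρ s ω : Measure I) W ^ π.parts.card ∂μ := by
  have hd := h.duality n ((Set.pi Set.univ fun _ : Fin n => W).indicator (fun _ => (1 : ℝ≥0∞)))
    (measurable_const.indicator (MeasurableSet.univ_pi fun _ => hW)) s t hst A hA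
  simp_rw [box_comp, box_lintegral _ W hW] at hd
  simp only [Fintype.card_fin, Fintype.card_coe] at hd
  exact hd

theorem moment (h : IsLambdaFlemingViot Λ μ ℱ ρ) (W : Set I) (hW : MeasurableSet W)
    (n : ℕ) (s t : ℝ≥0) (hst : s ≤ t) (A : Set Ω) (hA : MeasurableSet[ℱ s] A) :
    ∫ ω in A, X ρ W t ω ^ n ∂μ = ∫ ω in A, gg Λ ((t : ℝ) - (s : ℝ)) (X ρ W s ω) n ∂μ := by
  have hts : (0 : ℝ) ≤ (t : ℝ) - (s : ℝ) := sub_nonneg.2 (by exact_mod_cast hst)
  rw [integral_eq_lintegral_of_nonneg_ae (ae_of_all _ fun ω => pow_nonneg (X_nonneg W t ω) n)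
    (((X_measurable' h W hW t).pow_const n).aestronglyMeasurable),
    integral_eq_lintegral_of_nonneg_ae
      (ae_of_all _ fun ω => gg_nonneg hts (X_nonneg W s ω) n)
      (((continuous_gg_x _ n).measurable.comp (X_measurable' h W hW s)).aestronglyMeasurable)]
  congr 1
  have h1 : ∀ ω, ENNReal.ofReal (X ρ W t ω ^ n) = (ρ t ω : Measure I) W ^ n := by
    intro ω
    unfold X
    rw [ENNReal.ofReal_pow measureReal_nonneg, ofReal_measureReal]
  have h2 : ∀ ω, ENNReal.ofReal (gg Λ ((t : ℝ) - (s : ℝ)) (X ρ W s ω) n) =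
      ∑ π : Part n, ENNReal.ofReal (coalProb Λ n ((t : ℝ) - (s : ℝ)) π) *
        (ρ s ω : Measure I) W ^ π.parts.card := by
    intro ω
    unfold gg bE
    rw [ENNReal.ofReal_sum_of_nonneg fun π _ =>
      mul_nonneg (coalProb_nonneg Λ n _ hts π) (pow_nonneg (X_nonneg W s ω) _)]
    refine Finset.sum_congr rfl fun π _ => ?_
    rw [ENNReal.ofReal_mul (coalProb_nonneg Λ n _ hts π), ENNReal.ofReal_pow (X_nonneg W s ω)]
    unfold X
    rw [ofReal_measureReal]
  simp_rw [h1, h2]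
  exact moment_lintegral h W hW n s t hst A hA

theorem pow_diff_bound (z : ℝ) (hz0 : 0 ≤ z) (hz1 : z ≤ 1) (n j : ℕ) (hj : j < n) :
    z ^ (n - j) - z ^ n ≤ 2 * j / n := by
  have hn : (0 : ℝ) < n := by
    have : 0 < n := by omega
    exact_mod_cast this
  rcases Nat.lt_or_ge (2 * j) n with h2 | h2
  · -- z^m (1 - z) ≤ 1/(m+1)
    have key : ∀ m : ℕ, ((m : ℝ) + 1) * (z ^ m * (1 - z)) ≤ 1 - z ^ (m + 1) := by
      intro m
      induction m with
      | zero => simp
      | succ m ih =>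
        have h3 : z * (((m : ℝ) + 1) * (z ^ m * (1 - z))) ≤ z * (1 - z ^ (m + 1)) :=
          mul_le_mul_of_nonneg_left ih hz0
        have h4 : z ^ (m + 1) ≤ 1 := pow_le_one₀ hz0 hz1
        have h5 : (0 : ℝ) ≤ 1 - z := by linarith
        push_cast
        have e1 : ((m : ℝ) + 1 + 1) * (z ^ (m + 1) * (1 - z)) =
            z * (((m : ℝ) + 1) * (z ^ m * (1 - z))) + z ^ (m + 1) * (1 - z) := by ring
        have e2 : 1 - z ^ (m + 1 + 1) = z * (1 - z ^ (m + 1)) + (1 - z) := by ring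
        rw [e1, e2]
        have h6 : z ^ (m + 1) * (1 - z) ≤ 1 * (1 - z) := mul_le_mul_of_nonneg_right h4 h5
        linarith
    have hber : 1 - z ^ j ≤ j * (1 - z) := by
      have := one_add_mul_le_pow (a := z - 1) (by linarith) j
      have e : 1 + (z - 1) = z := by ring
      rw [e] at this
      linarith
    have h3 : z ^ n = z ^ (n - j) * z ^ j := by
      rw [← pow_add]
      congr 1
      omega
    have h4 : z ^ (n - j) - z ^ n ≤ j * (z ^ (n - j) * (1 - z)) := by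
      rw [h3]
      have h5 : 0 ≤ z ^ (n - j) := by positivity
      nlinarith [mul_le_mul_of_nonneg_left hber h5]
    have h6 := key (n - j)
    have h7 : 0 ≤ z ^ (n - j + 1) := by positivity
    have h8 : z ^ (n - j) * (1 - z) ≤ 2 / n := by
      rw [le_div_iff₀ hn]
      have h9 : (n : ℝ) ≤ 2 * (((n - j : ℕ) : ℝ) + 1) := by
        have : n ≤ 2 * (n - j + 1) := by omega
        exact_mod_cast this
      have h10 : 0 ≤ z ^ (n - j) * (1 - z) := mul_nonneg (by positivity) (by linarith)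
      nlinarith [mul_le_mul_of_nonneg_left h9 h10]
    have hj0 : (0 : ℝ) ≤ j := Nat.cast_nonneg j
    calc z ^ (n - j) - z ^ n ≤ j * (z ^ (n - j) * (1 - z)) := h4
      _ ≤ j * (2 / n) := mul_le_mul_of_nonneg_left h8 hj0
      _ = 2 * j / n := by ring
  · have h3 : z ^ (n - j) ≤ 1 := pow_le_one₀ hz0 hz1
    have h4 : 0 ≤ z ^ n := by positivity
    have h5 : 1 ≤ 2 * (j : ℝ) / n := by
      rw [le_div_iff₀ hn, one_mul]
      exact_mod_cast h2
    linarith

variable [IsProbabilityMeasure μ]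

theorem integrable_bdd (f : Ω → ℝ) (hf : Measurable f) (hb : ∀ ω, |f ω| ≤ 1) :
    Integrable f μ :=
  Integrable.of_bound hf.aestronglyMeasurable 1 (ae_of_all _ hb)

theorem gg_eq_integral (h : IsLambdaFlemingViot Λ μ ℱ ρ) (t : ℝ≥0) (x : I) (n : ℕ) :
    gg Λ (t : ℝ) (x : ℝ) n = ∫ ω, X ρ (Set.Iic x) t ω ^ n ∂μ := by
  have h1 := moment h (Set.Iic x) measurableSet_Iic n 0 t zero_le Set.univ
    MeasurableSet.univ
  rw [setIntegral_univ, setIntegral_univ] at h1
  rw [h1]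
  have h2 : ∀ᵐ ω ∂μ, gg Λ ((t : ℝ) - ((0 : ℝ≥0) : ℝ)) (X ρ (Set.Iic x) 0 ω) n =
      gg Λ (t : ℝ) (x : ℝ) n := by
    filter_upwards [h.init] with ω hω
    have h3 : X ρ (Set.Iic x) 0 ω = x := by
      unfold X
      rw [hω, measureReal_def, unitInterval.volume_Iic, ENNReal.toReal_ofReal x.2.1]
    rw [h3]
    simp
  rw [integral_congr_ae h2]
  simp

theorem rep (h : IsLambdaFlemingViot Λ μ ℱ ρ) : Rep Λ := by
  have hint : ∀ (W : Set I) (hW : MeasurableSet W) (t : ℝ≥0) (n : ℕ),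
      Integrable (fun ω => X ρ W t ω ^ n) μ := by
    intro W hW t n
    refine integrable_bdd _ ((X_measurable' h W hW t).pow_const n) fun ω => ?_
    rw [abs_of_nonneg (pow_nonneg (X_nonneg W t ω) n)]
    exact pow_le_one₀ (X_nonneg W t ω) (X_le_one W t ω)
  constructor
  · intro t ht x hx hx1 n
    obtain ⟨x', rfl⟩ : ∃ x' : I, (x' : ℝ) = x := ⟨⟨x, hx, hx1⟩, rfl⟩
    obtain ⟨t', rfl⟩ : ∃ t' : ℝ≥0, (t' : ℝ) = t := ⟨⟨t, ht⟩, rfl⟩
    rw [gg_eq_integral h, gg_eq_integral h]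
    refine integral_mono (hint _ measurableSet_Iic _ _) (hint _ measurableSet_Iic _ _) fun ω => ?_
    exact pow_le_pow_of_le_one (X_nonneg _ _ ω) (X_le_one _ _ ω) (Nat.le_succ n)
  · intro t ht x hx hx1 n j hj
    obtain ⟨x', rfl⟩ : ∃ x' : I, (x' : ℝ) = x := ⟨⟨x, hx, hx1⟩, rfl⟩
    obtain ⟨t', rfl⟩ : ∃ t' : ℝ≥0, (t' : ℝ) = t := ⟨⟨t, ht⟩, rfl⟩
    rw [gg_eq_integral h, gg_eq_integral h,
      ← integral_sub (hint _ measurableSet_Iic _ _) (hint _ measurableSet_Iic _ _)]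
    have : ∫ _ : Ω, (2 * (j : ℝ) / n) ∂μ = 2 * j / n := by simp
    rw [← this]
    refine integral_mono ((hint _ measurableSet_Iic _ _).sub (hint _ measurableSet_Iic _ _))
      (integrable_const _) fun ω => ?_
    exact pow_diff_bound _ (X_nonneg _ _ ω) (X_le_one _ _ ω) n j hj

/-- The probability that a set has full mass at a later time. -/
theorem full_prob (h : IsLambdaFlemingViot Λ μ ℱ ρ) (W : Set I) (hW : MeasurableSet W)
    (s t : ℝ≥0) (hst : s ≤ t) (A : Set Ω) (hA : MeasurableSet[ℱ s] A) :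
    μ.real (A ∩ {ω | X ρ W t ω = 1}) = ∫ ω in A, G Λ ((t : ℝ) - (s : ℝ)) (X ρ W s ω) ∂μ := by
  have hts : (0 : ℝ) ≤ (t : ℝ) - (s : ℝ) := sub_nonneg.2 (by exact_mod_cast hst)
  have hR := rep h
  have hXt := X_measurable' h W hW t
  have hXs := X_measurable' h W hW s
  have hmeas : MeasurableSet {ω | X ρ W t ω = 1} := hXt (measurableSet_singleton 1)
  have hlim1 : Tendsto (fun n : ℕ => ∫ ω in A, X ρ W t ω ^ n ∂μ) atTop
      (𝓝 (∫ ω in A, ({ω | X ρ W t ω = 1}.indicator (fun _ => (1 : ℝ))) ω ∂μ)) := by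
    refine tendsto_integral_of_dominated_convergence (fun _ => (1 : ℝ))
      (fun n => (hXt.pow_const n).aestronglyMeasurable) (integrable_const _) ?_ ?_
    · intro n
      refine ae_of_all _ fun ω => ?_
      rw [Real.norm_eq_abs, abs_of_nonneg (pow_nonneg (X_nonneg W t ω) n)]
      exact pow_le_one₀ (X_nonneg W t ω) (X_le_one W t ω)
    · refine ae_of_all _ fun ω => ?_
      by_cases hω : X ρ W t ω = 1
      · rw [Set.indicator_of_mem (show ω ∈ {ω | X ρ W t ω = 1} from hω), hω]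
        simp
      · rw [Set.indicator_of_notMem (show ω ∉ {ω | X ρ W t ω = 1} from hω)]
        exact tendsto_pow_atTop_nhds_zero_of_lt_one (X_nonneg W t ω)
          (lt_of_le_of_ne (X_le_one W t ω) hω)
  have hlim2 : Tendsto (fun n : ℕ => ∫ ω in A, gg Λ ((t : ℝ) - (s : ℝ)) (X ρ W s ω) n ∂μ) atTop
      (𝓝 (∫ ω in A, G Λ ((t : ℝ) - (s : ℝ)) (X ρ W s ω) ∂μ)) := by
    refine tendsto_integral_of_dominated_convergence (fun _ => (1 : ℝ))
      (fun n => ((continuous_gg_x _ n).measurable.comp hXs).aestronglyMeasurable)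
      (integrable_const _) ?_ ?_
    · intro n
      refine ae_of_all _ fun ω => ?_
      rw [Real.norm_eq_abs, abs_of_nonneg (gg_nonneg hts (X_nonneg W s ω) n)]
      exact gg_le_one hts (X_nonneg W s ω) (X_le_one W s ω) n
    · exact ae_of_all _ fun ω => G_tendsto hR hts (X_nonneg W s ω) (X_le_one W s ω)
  have heq : (fun n : ℕ => ∫ ω in A, X ρ W t ω ^ n ∂μ) =
      fun n : ℕ => ∫ ω in A, gg Λ ((t : ℝ) - (s : ℝ)) (X ρ W s ω) n ∂μ :=
    funext fun n => moment h W hW n s t hst A hA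
  rw [heq] at hlim1
  have := tendsto_nhds_unique hlim1 hlim2
  rw [← this, integral_indicator hmeas, setIntegral_const, smul_eq_mul, mul_one,
    measureReal_restrict_apply hmeas, Set.inter_comm]

/-- The probability that a set has zero mass at a later time. -/
theorem dead_prob (h : IsLambdaFlemingViot Λ μ ℱ ρ) (U : Set I) (hU : MeasurableSet U)
    (s t : ℝ≥0) (hst : s ≤ t) (A : Set Ω) (hA : MeasurableSet[ℱ s] A) :
    μ.real (A ∩ {ω | X ρ U t ω = 0}) =
      ∫ ω in A, G Λ ((t : ℝ) - (s : ℝ)) (1 - X ρ U s ω) ∂μ := by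
  have := full_prob h Uᶜ hU.compl s t hst A hA
  simp_rw [X_compl U hU] at this
  rw [← this]
  congr 2
  ext ω
  simp only [Set.mem_ofPred_eq]
  constructor <;> intro h' <;> linarith

/-- Absorption. -/
theorem absorb (h : IsLambdaFlemingViot Λ μ ℱ ρ) (U : Set I) (hU : MeasurableSet U)
    (s t : ℝ≥0) (hst : s ≤ t) : ∀ᵐ ω ∂μ, X ρ U s ω = 0 → X ρ U t ω = 0 := by
  have hts : (0 : ℝ) ≤ (t : ℝ) - (s : ℝ) := sub_nonneg.2 (by exact_mod_cast hst)
  have hA : MeasurableSet[ℱ s] {ω | X ρ U s ω = 0} :=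
    X_measurable h U hU s (measurableSet_singleton 0)
  have hA' : MeasurableSet {ω | X ρ U s ω = 0} := ℱ.le s _ hA
  have h1 := dead_prob h U hU s t hst _ hA
  have h2 : ∫ ω in {ω | X ρ U s ω = 0}, G Λ ((t : ℝ) - (s : ℝ)) (1 - X ρ U s ω) ∂μ =
      ∫ ω in {ω | X ρ U s ω = 0}, (1 : ℝ) ∂μ := by
    refine setIntegral_congr_fun hA' fun ω hω => ?_
    rw [show X ρ U s ω = 0 from hω, sub_zero, G_one hts]
  rw [h2, setIntegral_const, smul_eq_mul, mul_one] at h1
  have hB' : MeasurableSet {ω | X ρ U t ω = 0} := X_measurable' h U hU t (measurableSet_singleton 0)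
  have h3 : μ.real ({ω | X ρ U s ω = 0} \ {ω | X ρ U t ω = 0}) = 0 := by
    have := measureReal_inter_add_sdiff (μ := μ) (s := {ω | X ρ U s ω = 0}) hB'
    linarith
  rw [measureReal_eq_zero_iff] at h3
  rw [ae_iff]
  refine measure_mono_null ?_ h3
  intro ω hω
  simp only [Set.mem_ofPred_eq, Classical.not_imp] at hω
  exact ⟨hω.1, hω.2⟩

end

end Pool.Agent.Lib.MP_939494_pr
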