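import Pool.Agent.Lib.MP_939494_pr.Compare

/-!
# Estimates for the merger rates
-/

open MeasureTheory Finset Filter Topology
open scoped ENNReal NNReal unitInterval

namespace Pool.Agent.Lib.MP_939494_pr

theorem choose_two_mul (m j : ℕ) :
    (((m + 2).choose (j + 2) : ℕ) : ℝ) * (((j : ℝ) + 2) * ((j : ℝ) + 1)) =
      ((m : ℝ) + 2) * ((m : ℝ) + 1) * ((m.choose j : ℕ) : ℝ) := by
  have h1 := Nat.add_one_mul_choose_eq (m + 1) (j + 1)
  have h2 := Nat.add_one_mul_choose_eq m j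
  have h1' : ((m : ℝ) + 1 + 1) * (((m + 1).choose (j + 1) : ℕ) : ℝ) =
      (((m + 2).choose (j + 2) : ℕ) : ℝ) * ((j : ℝ) + 1 + 1) := by exact_mod_cast h1
  have h2' : ((m : ℝ) + 1) * ((m.choose j : ℕ) : ℝ) =
      (((m + 1).choose (j + 1) : ℕ) : ℝ) * ((j : ℝ) + 1) := by exact_mod_cast h2
  have e1 : (((m + 2).choose (j + 2) : ℕ) : ℝ) * (((j : ℝ) + 2) * ((j : ℝ) + 1)) =
      ((((m + 2).choose (j + 2) : ℕ) : ℝ) * ((j : ℝ) + 1 + 1)) * ((j : ℝ) + 1) := by ring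
  have e2 : ((m : ℝ) + 2) * ((m : ℝ) + 1) * ((m.choose j : ℕ) : ℝ) =
      ((m : ℝ) + 2) * (((m : ℝ) + 1) * ((m.choose j : ℕ) : ℝ)) := by ring
  rw [e1, e2, ← h1', h2']
  ring

/-- Summation over `Icc 2 n` after the shift by two. -/
theorem sum_Icc_two (n : ℕ) (f : ℕ → ℝ) :
    ∑ k ∈ Finset.Icc 2 (n + 2), f k = ∑ j ∈ Finset.range (n + 1), f (j + 2) := by
  rw [Finset.range_eq_Ico, Finset.sum_Ico_add' f 0 (n + 1) 2]
  refine Finset.sum_congr ?_ fun _ _ => rfl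
  ext k
  simp only [Finset.mem_Icc, Finset.mem_Ico]
  omega

/-- The weighted binomial sum. -/
theorem binom_weighted (m : ℕ) (a b : ℝ) :
    ∑ k ∈ Finset.Icc 2 (m + 2), (((m + 2).choose k : ℕ) : ℝ) * ((k : ℝ) * ((k : ℝ) - 1)) *
      (a ^ (k - 2) * b ^ (m + 2 - k)) = ((m : ℝ) + 2) * ((m : ℝ) + 1) * (a + b) ^ m := by
  rw [sum_Icc_two, add_pow, Finset.mul_sum]
  refine Finset.sum_congr rfl fun j hj => ?_
  rw [Finset.mem_range] at hj
  have h1 : j + 2 - 2 = j := by omega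
  have h2 : m + 2 - (j + 2) = m - j := by omega
  rw [h1, h2]
  have h3 := choose_two_mul m j
  push_cast
  have h4 : (((m + 2).choose (j + 2) : ℕ) : ℝ) * (((j : ℝ) + 2) * ((j : ℝ) + 2 - 1)) =
      ((m : ℝ) + 2) * ((m : ℝ) + 1) * ((m.choose j : ℕ) : ℝ) := by
    rw [← h3]
    ring
  rw [h4]
  ring

theorem integrable_cont (Λ : Measure I) [IsFiniteMeasure Λ] (f : I → ℝ) (hf : Continuous f) :
    Integrable f Λ :=
  hf.integrable_of_hasCompactSupport (HasCompactSupport.of_compactSpace f)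

theorem integrable_rate (Λ : Measure I) [IsFiniteMeasure Λ] (a b : ℕ) :
    Integrable (fun u : I => (u : ℝ) ^ a * (1 - (u : ℝ)) ^ b) Λ :=
  integrable_cont Λ _ (by fun_prop)

theorem sum_rate_mul (Λ : Measure I) [IsFiniteMeasure Λ] (n : ℕ) (c : ℕ → ℝ) :
    ∑ k ∈ Finset.Icc 2 n, rate Λ n k * c k =
      ∫ u : I, ∑ k ∈ Finset.Icc 2 n, (n.choose k : ℝ) * c k *
        ((u : ℝ) ^ (k - 2) * (1 - (u : ℝ)) ^ (n - k)) ∂Λ := by
  rw [integral_finsetSum]
  · refine Finset.sum_congr rfl fun k _ => ?_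
    rw [integral_const_mul]
    unfold rate mergeRate
    ring
  · intro k _
    exact (integrable_rate Λ _ _).const_mul _

/-- The second factorial moment of the merger sizes. -/
theorem sum_rate_factorial (Λ : Measure I) [IsFiniteMeasure Λ] (m : ℕ) :
    ∑ k ∈ Finset.Icc 2 (m + 2), rate Λ (m + 2) k * ((k : ℝ) * ((k : ℝ) - 1)) =
      ((m : ℝ) + 2) * ((m : ℝ) + 1) * Λ.real Set.univ := by
  rw [sum_rate_mul]
  have : ∀ u : I, ∑ k ∈ Finset.Icc 2 (m + 2), (((m + 2).choose k : ℕ) : ℝ) *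
      ((k : ℝ) * ((k : ℝ) - 1)) * ((u : ℝ) ^ (k - 2) * (1 - (u : ℝ)) ^ (m + 2 - k)) =
      ((m : ℝ) + 2) * ((m : ℝ) + 1) := by
    intro u
    rw [binom_weighted]
    simp
  simp_rw [this]
  rw [integral_const, smul_eq_mul, mul_comm]

/-- The carre du champ bound. -/
theorem gamma_bound (Λ : Measure I) [IsFiniteMeasure Λ] (g : ℕ → ℝ) (n : ℕ)
    (hg : ∀ j < n, |g (n - j) - g n| ≤ 2 * j / n) :
    ∑ k ∈ Finset.Icc 2 n, rate Λ n k * (g (n + 1 - k) - g n) ^ 2 ≤ 4 * Λ.real Set.univ := by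
  have hL : 0 ≤ Λ.real Set.univ := measureReal_nonneg
  rcases Nat.lt_or_ge n 2 with hn | hn
  · rw [Finset.Icc_eq_empty (by omega), Finset.sum_empty]
    linarith
  · obtain ⟨m, rfl⟩ : ∃ m, n = m + 2 := ⟨n - 2, by omega⟩
    have hpos : (0 : ℝ) < ((m + 2 : ℕ) : ℝ) := by positivity
    calc ∑ k ∈ Finset.Icc 2 (m + 2), rate Λ (m + 2) k * (g (m + 2 + 1 - k) - g (m + 2)) ^ 2
        ≤ ∑ k ∈ Finset.Icc 2 (m + 2), (4 / ((m + 2 : ℕ) : ℝ) ^ 2) *
            (rate Λ (m + 2) k * ((k : ℝ) * ((k : ℝ) - 1))) := by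
          refine Finset.sum_le_sum fun k hk => ?_
          rw [Finset.mem_Icc] at hk
          have h1 := hg (k - 1) (by omega)
          have h2 : m + 2 - (k - 1) = m + 2 + 1 - k := by omega
          rw [h2] at h1
          have h3 : ((k - 1 : ℕ) : ℝ) = (k : ℝ) - 1 := by
            rw [Nat.cast_sub (by omega)]
            simp
          rw [h3] at h1
          have hk2 : (2 : ℝ) ≤ k := by exact_mod_cast hk.1
          have h4 : (g (m + 2 + 1 - k) - g (m + 2)) ^ 2 ≤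
              (2 * ((k : ℝ) - 1) / ((m + 2 : ℕ) : ℝ)) ^ 2 := by
            rw [← sq_abs (g (m + 2 + 1 - k) - g (m + 2))]
            exact pow_le_pow_left₀ (abs_nonneg _) h1 2
          have h5 : (2 * ((k : ℝ) - 1) / ((m + 2 : ℕ) : ℝ)) ^ 2 ≤
              4 / ((m + 2 : ℕ) : ℝ) ^ 2 * ((k : ℝ) * ((k : ℝ) - 1)) := by
            have e : (2 * ((k : ℝ) - 1) / ((m + 2 : ℕ) : ℝ)) ^ 2 =
              4 / ((m + 2 : ℕ) : ℝ) ^ 2 * (((k : ℝ) - 1) * ((k : ℝ) - 1)) := by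
              field_simp
              ring
            rw [e]
            have : (0 : ℝ) ≤ 4 / ((m + 2 : ℕ) : ℝ) ^ 2 := by positivity
            refine mul_le_mul_of_nonneg_left ?_ this
            nlinarith
          calc rate Λ (m + 2) k * (g (m + 2 + 1 - k) - g (m + 2)) ^ 2
              ≤ rate Λ (m + 2) k * (4 / ((m + 2 : ℕ) : ℝ) ^ 2 * ((k : ℝ) * ((k : ℝ) - 1))) :=
                mul_le_mul_of_nonneg_left (h4.trans h5) (rate_nonneg Λ _ _)
            _ = _ := by ring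
      _ = (4 / ((m + 2 : ℕ) : ℝ) ^ 2) * (((m : ℝ) + 2) * ((m : ℝ) + 1) * Λ.real Set.univ) := by
          rw [← Finset.mul_sum, sum_rate_factorial]
      _ ≤ 4 * Λ.real Set.univ := by
          have h6 : (4 / ((m + 2 : ℕ) : ℝ) ^ 2) * (((m : ℝ) + 2) * ((m : ℝ) + 1)) ≤ 4 := by
            rw [div_mul_eq_mul_div, div_le_iff₀ (by positivity)]
            push_cast
            have : (0 : ℝ) ≤ m := Nat.cast_nonneg m
            nlinarith
          calc (4 / ((m + 2 : ℕ) : ℝ) ^ 2) * (((m : ℝ) + 2) * ((m : ℝ) + 1) * Λ.real Set.univ)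
              = ((4 / ((m + 2 : ℕ) : ℝ) ^ 2) * (((m : ℝ) + 2) * ((m : ℝ) + 1))) *
                  Λ.real Set.univ := by ring
            _ ≤ 4 * Λ.real Set.univ := mul_le_mul_of_nonneg_right h6 hL

/-- The integrand of the generator applied to `x ^ n`. -/
noncomputable def Fn (x : ℝ) (n : ℕ) (u : ℝ) : ℝ :=
  ∑ k ∈ Finset.Icc 2 n, (n.choose k : ℝ) * (x ^ (n + 1 - k) - x ^ n) *
        (u ^ (k - 2) * (1 - u) ^ (n - k))

theorem gen_pow_eq (Λ : Measure I) [IsFiniteMeasure Λ] (x : ℝ) (n : ℕ) :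
    gen Λ (fun k => x ^ k) n = ∫ u : I, Fn x n u ∂Λ := by
  unfold gen Fn
  exact sum_rate_mul Λ n (fun k => x ^ (n + 1 - k) - x ^ n)

theorem Fn_nonneg (x : ℝ) (hx0 : 0 ≤ x) (hx1 : x ≤ 1) (n : ℕ) (u : ℝ) (hu0 : 0 ≤ u)
    (hu1 : u ≤ 1) : 0 ≤ Fn x n u := by
  unfold Fn
  refine Finset.sum_nonneg fun k hk => ?_
  rw [Finset.mem_Icc] at hk
  have h1 : x ^ n ≤ x ^ (n + 1 - k) := pow_le_pow_of_le_one hx0 hx1 (by omega)
  have h2 : (0 : ℝ) ≤ 1 - u := by linarith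
  have h3 : 0 ≤ x ^ (n + 1 - k) - x ^ n := by linarith
  positivity

theorem Fn_le_one (x : ℝ) (hx0 : 0 ≤ x) (hx1 : x ≤ 1) (m : ℕ) (u : ℝ) (hu0 : 0 ≤ u)
    (hu1 : u ≤ 1) : Fn x (m + 2) u ≤ ((m : ℝ) + 2) * ((m : ℝ) + 1) * (u + (1 - u) * x) ^ m := by
  rw [← binom_weighted]
  unfold Fn
  refine Finset.sum_le_sum fun k hk => ?_
  rw [Finset.mem_Icc] at hk
  have h2 : (0 : ℝ) ≤ 1 - u := by linarith
  have hk2 : (2 : ℝ) ≤ k := by exact_mod_cast hk.1
  have h3 : x ^ (m + 2 + 1 - k) - x ^ (m + 2) ≤ x ^ (m + 2 - k) := by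
    have h4 : x ^ (m + 2 + 1 - k) ≤ x ^ (m + 2 - k) :=
      pow_le_pow_of_le_one hx0 hx1 (by omega)
    have h5 : 0 ≤ x ^ (m + 2) := by positivity
    linarith
  have h6 : (1 : ℝ) ≤ (k : ℝ) * ((k : ℝ) - 1) := by nlinarith
  rw [mul_pow]
  have h7 : 0 ≤ (((m + 2).choose k : ℕ) : ℝ) * (u ^ (k - 2) * (1 - u) ^ (m + 2 - k)) := by
    positivity
  have h8 : 0 ≤ x ^ (m + 2 - k) := by positivity
  calc (((m + 2).choose k : ℕ) : ℝ) * (x ^ (m + 2 + 1 - k) - x ^ (m + 2)) *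
        (u ^ (k - 2) * (1 - u) ^ (m + 2 - k))
      = ((((m + 2).choose k : ℕ) : ℝ) * (u ^ (k - 2) * (1 - u) ^ (m + 2 - k))) *
          (x ^ (m + 2 + 1 - k) - x ^ (m + 2)) := by ring
    _ ≤ ((((m + 2).choose k : ℕ) : ℝ) * (u ^ (k - 2) * (1 - u) ^ (m + 2 - k))) *
          (x ^ (m + 2 - k)) := mul_le_mul_of_nonneg_left h3 h7
    _ ≤ ((((m + 2).choose k : ℕ) : ℝ) * (u ^ (k - 2) * (1 - u) ^ (m + 2 - k))) *
          ((k : ℝ) * ((k : ℝ) - 1) * x ^ (m + 2 - k)) := by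
        refine mul_le_mul_of_nonneg_left ?_ h7
        nlinarith [mul_nonneg (sub_nonneg.2 h6) h8]
    _ = _ := by ring

theorem Fn_le_four (x : ℝ) (hx0 : 0 ≤ x) (hx1 : x ≤ 1) (n : ℕ) (u : ℝ) (hu0 : 1 / 2 ≤ u)
    (hu1 : u ≤ 1) : Fn x n u ≤ 4 := by
  have h2 : (0 : ℝ) ≤ 1 - u := by linarith
  have hu : 0 < u := by linarith
  have h1 : Fn x n u * u ^ 2 ≤ 1 := by
    have hsum : ∑ k ∈ Finset.range (n + 1), u ^ k * (1 - u) ^ (n - k) * (n.choose k : ℝ) = 1 := by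
      rw [← add_pow]
      simp
    rw [← hsum]
    unfold Fn
    rw [Finset.sum_mul]
    have hsub : Finset.Icc 2 n ⊆ Finset.range (n + 1) := by
      intro k hk
      rw [Finset.mem_Icc] at hk
      rw [Finset.mem_range]
      omega
    refine le_trans (Finset.sum_le_sum fun k hk => ?_)
      (Finset.sum_le_sum_of_subset_of_nonneg hsub fun k _ _ => ?_)
    · rw [Finset.mem_Icc] at hk
      have h3 : x ^ (n + 1 - k) - x ^ n ≤ 1 := by
        have h4 : x ^ (n + 1 - k) ≤ 1 := pow_le_one₀ hx0 hx1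
        have h5 : 0 ≤ x ^ n := by positivity
        linarith
      have h6 : u ^ k = u ^ (k - 2) * u ^ 2 := by
        rw [← pow_add]
        congr 1
        omega
      rw [h6]
      have h7 : 0 ≤ (n.choose k : ℝ) * (u ^ (k - 2) * (1 - u) ^ (n - k)) * u ^ 2 := by positivity
      calc (n.choose k : ℝ) * (x ^ (n + 1 - k) - x ^ n) *
            (u ^ (k - 2) * (1 - u) ^ (n - k)) * u ^ 2
          = ((n.choose k : ℝ) * (u ^ (k - 2) * (1 - u) ^ (n - k)) * u ^ 2) *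
            (x ^ (n + 1 - k) - x ^ n) := by ring
        _ ≤ ((n.choose k : ℝ) * (u ^ (k - 2) * (1 - u) ^ (n - k)) * u ^ 2) * 1 :=
            mul_le_mul_of_nonneg_left h3 h7
        _ = _ := by ring
    · positivity
  have h9 : 1 ≤ 4 * u ^ 2 := by nlinarith
  have h10 : 0 ≤ Fn x n u := Fn_nonneg x hx0 hx1 n u hu.le hu1
  nlinarith

theorem continuous_Fn (x : ℝ) (n : ℕ) : Continuous (Fn x n) := by
  unfold Fn
  fun_prop

theorem tendsto_poly_geom (r : ℝ) (hr0 : 0 ≤ r) (hr1 : r < 1) :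
    Tendsto (fun m : ℕ => ((m : ℝ) + 2) * ((m : ℝ) + 1) * r ^ m) atTop (𝓝 0) := by
  have h2 := tendsto_pow_const_mul_const_pow_of_lt_one 2 hr0 hr1
  have h1 := tendsto_pow_const_mul_const_pow_of_lt_one 1 hr0 hr1
  have h0 := tendsto_pow_const_mul_const_pow_of_lt_one 0 hr0 hr1
  have h := (h2.add (h1.const_mul 3)).add (h0.const_mul 2)
  simp only [mul_zero, add_zero] at h
  refine h.congr fun m => ?_
  ring

/-- The generator applied to `x ^ n` vanishes at infinity when there is no atom at one. -/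
theorem gen_pow_tendsto (Λ : Measure I) [IsFiniteMeasure Λ] (h1 : Λ {1} = 0) (x : ℝ)
    (hx0 : 0 ≤ x) (hx1 : x < 1) :
    Tendsto (fun m : ℕ => gen Λ (fun k => x ^ k) (m + 2)) atTop (𝓝 0) := by
  simp_rw [gen_pow_eq]
  have hr0 : 0 ≤ (1 + x) / 2 := by linarith
  have hr1 : (1 + x) / 2 < 1 := by linarith
  obtain ⟨C, hC⟩ := (tendsto_poly_geom ((1 + x) / 2) hr0 hr1).bddAbove_range
  have hC' : ∀ m : ℕ, ((m : ℝ) + 2) * ((m : ℝ) + 1) * ((1 + x) / 2) ^ m ≤ C := fun m =>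
    hC ⟨m, rfl⟩
  have key := tendsto_integral_of_dominated_convergence (μ := Λ)
    (F := fun (m : ℕ) (u : I) => Fn x (m + 2) u) (f := fun _ => (0 : ℝ)) (fun _ => max C 4)
    (fun m => ((continuous_Fn x (m + 2)).comp continuous_subtype_val).aestronglyMeasurable)
    (integrable_const _) ?_ ?_
  · simpa using key
  · intro m
    refine Eventually.of_forall fun u => ?_
    have hu0 : (0 : ℝ) ≤ u := u.2.1
    have hu1 : (u : ℝ) ≤ 1 := u.2.2
    rw [Real.norm_eq_abs, abs_of_nonneg (Fn_nonneg x hx0 hx1.le _ _ hu0 hu1)]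
    rcases le_total (1 / 2) (u : ℝ) with h | h
    · exact (Fn_le_four x hx0 hx1.le _ _ h hu1).trans (le_max_right _ _)
    · refine (Fn_le_one x hx0 hx1.le m u hu0 hu1).trans (le_trans ?_ (le_max_left _ _))
      refine le_trans ?_ (hC' m)
      refine mul_le_mul_of_nonneg_left ?_ (by positivity)
      refine pow_le_pow_left₀ ?_ ?_ m
      · nlinarith
      · nlinarith
  · have hae : ∀ᵐ u : I ∂Λ, u ≠ 1 := by
      rw [ae_iff]
      simpa using h1
    filter_upwards [hae] with u hu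
    have hu0 : (0 : ℝ) ≤ u := u.2.1
    have hu1 : (u : ℝ) ≤ 1 := u.2.2
    have hu2 : (u : ℝ) < 1 := lt_of_le_of_ne hu1 (fun h => hu (Subtype.ext h))
    refine squeeze_zero (fun m => Fn_nonneg x hx0 hx1.le _ _ hu0 hu1)
      (fun m => Fn_le_one x hx0 hx1.le m u hu0 hu1) ?_
    refine tendsto_poly_geom _ ?_ ?_
    · nlinarith
    · nlinarith

/-- The affine bound for the generator applied to `x ^ n`. -/
theorem gen_pow_le (Λ : Measure I) [IsFiniteMeasure Λ] (h1 : Λ {1} = 0) (x : ℝ)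
    (hx0 : 0 < x) (hx1 : x < 1) (ε : ℝ) (hε : 0 < ε) :
    ∃ K : ℝ, 0 < K ∧ ∀ n : ℕ, gen Λ (fun k => x ^ k) n ≤ ε + K * x ^ n := by
  have h := gen_pow_tendsto Λ h1 x hx0.le hx1
  obtain ⟨M, hM⟩ := eventually_atTop.1 (h.eventually (gt_mem_nhds hε))
  set N := M + 2 with hN
  have hlarge : ∀ n, N ≤ n → gen Λ (fun k => x ^ k) n ≤ ε := by
    intro n hn
    obtain ⟨m, rfl⟩ : ∃ m, n = m + 2 := ⟨n - 2, by omega⟩
    exact (hM m (by omega)).le
  set C := ∑ n ∈ Finset.range N, |gen Λ (fun k => x ^ k) n| with hC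
  have hC0 : 0 ≤ C := Finset.sum_nonneg fun _ _ => abs_nonneg _
  have hxN : 0 < x ^ N := by positivity
  refine ⟨(C + 1) / x ^ N, by positivity, fun n => ?_⟩
  have hxn : 0 < x ^ n := by positivity
  rcases le_or_gt N n with hn | hn
  · have : 0 ≤ (C + 1) / x ^ N * x ^ n := by positivity
    linarith [hlarge n hn]
  · have h2 : |gen Λ (fun k => x ^ k) n| ≤ C :=
      Finset.single_le_sum (f := fun n => |gen Λ (fun k => x ^ k) n|)
        (fun _ _ => abs_nonneg _) (Finset.mem_range.2 hn)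
    have h3 : x ^ N ≤ x ^ n := pow_le_pow_of_le_one hx0.le hx1.le hn.le
    have h4 : C + 1 ≤ (C + 1) / x ^ N * x ^ n := by
      rw [div_mul_eq_mul_div, le_div_iff₀ hxN]
      exact mul_le_mul_of_nonneg_left h3 (by linarith)
    linarith [le_abs_self (gen Λ (fun k => x ^ k) n)]

end Pool.Agent.Lib.MP_939494_pr
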