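import Pool.Agent.Lib.MP_939494_pr.Support

/-!
# From sets of types to types
-/

open MeasureTheory Finset Filter Topology TopologicalSpace
open scoped ENNReal NNReal unitInterval

namespace Pool.Agent.Lib.MP_939494_pr

theorem QT_between {a b : ℝ≥0} (hab : a < b) : ∃ t ∈ QT, a < t ∧ t < b := by
  obtain ⟨q, hq1, hq2⟩ := exists_rat_btwn (show (a : ℝ) < b by exact_mod_cast hab)
  have hq0 : (0 : ℝ) ≤ q := (NNReal.coe_nonneg a).trans hq1.le
  refine ⟨⟨q, hq0⟩, ⟨q, rfl⟩, ?_, ?_⟩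
  · exact_mod_cast hq1
  · exact_mod_cast hq2

/-- The regularity properties of a typical path. -/
structure GoodPath (r : ℝ≥0 → ProbabilityMeasure I) : Prop where
  rc : ∀ t : ℝ≥0, ContinuousWithinAt r (Set.Ici t) t
  basis : ∀ W ∈ countableBasis I, ∀ s ∈ QT, ∀ t ∈ QT, s ≤ t →
    (r s : Measure I) W = 0 → (r t : Measure I) W = 0
  fin : ∀ t ∈ QT, 0 < t → ∃ S : Set I, S.Finite ∧ (r t : Measure I) Sᶜ = 0

theorem open_null_QT {r : ℝ≥0 → ProbabilityMeasure I} (hr : GoodPath r) (W : Set I)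
    (hW : IsOpen W) (s t : ℝ≥0) (hs : s ∈ QT) (ht : t ∈ QT) (hst : s ≤ t)
    (h0 : (r s : Measure I) W = 0) : (r t : Measure I) W = 0 := by
  obtain ⟨S, hS, hSW⟩ := (isBasis_countableBasis I).open_eq_sUnion hW
  have hSc : S.Countable := (countable_countableBasis I).mono hS
  rw [hSW, Set.sUnion_eq_biUnion, measure_biUnion_null_iff hSc]
  intro B hB
  refine hr.basis B (hS hB) s hs t ht hst ?_
  refine measure_mono_null ?_ h0
  rw [hSW]
  exact Set.subset_sUnion_of_mem hB

theorem open_null {r : ℝ≥0 → ProbabilityMeasure I} (hr : GoodPath r) (W : Set I)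
    (hW : IsOpen W) (s t : ℝ≥0) (hs : s ∈ QT) (hst : s ≤ t)
    (h0 : (r s : Measure I) W = 0) : (r t : Measure I) W = 0 := by
  -- a sequence of rational times decreasing to `t`
  have hex : ∀ n : ℕ, ∃ u ∈ QT, t < u ∧ u < t + 1 / ((n : ℝ≥0) + 1) := fun n =>
    QT_between (lt_add_of_pos_right t (by positivity))
  choose u huQ hu1 hu2 using hex
  have hulim : Tendsto u atTop (𝓝[Set.Ici t] t) := by
    refine tendsto_nhdsWithin_iff.2 ⟨?_, Eventually.of_forall fun n => (hu1 n).le⟩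
    refine tendsto_of_tendsto_of_tendsto_of_le_of_le (g := fun _ => t)
      (h := fun n : ℕ => t + 1 / ((n : ℝ≥0) + 1)) tendsto_const_nhds ?_
      (fun n => (hu1 n).le) (fun n => (hu2 n).le)
    have h1 : Tendsto (fun n : ℕ => 1 / ((n : ℝ≥0) + 1)) atTop (𝓝 0) := by
      rw [← NNReal.tendsto_coe]
      have := tendsto_one_div_add_atTop_nhds_zero_nat (𝕜 := ℝ)
      refine this.congr fun m => ?_
      simp
    have h2 := h1.const_add t
    rwa [add_zero] at h2
  have hlim : Tendsto (fun n => r (u n)) atTop (𝓝 (r t)) := (hr.rc t).tendsto.comp hulim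
  have hle := ProbabilityMeasure.le_liminf_measure_open_of_tendsto hlim hW
  have hzero : ∀ n, (r (u n) : Measure I) W = 0 := fun n =>
    open_null_QT hr W hW s (u n) hs (huQ n) (hst.trans (hu1 n).le) h0
  simp_rw [hzero] at hle
  rw [liminf_const] at hle
  exact le_antisymm hle zero_le

theorem le_extinctionTime {r : ℝ≥0 → ProbabilityMeasure I} {x : I} {t : ℝ≥0}
    (h : 0 < (r t : Measure I) {x}) : (t : ℝ≥0∞) ≤ extinctionTime r x := by
  unfold extinctionTime
  exact le_iSup₂ (f := fun (t : ℝ≥0) (_ : 0 < (r t : Measure I) {x}) => (t : ℝ≥0∞)) t h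

theorem extinctionTime_le {r : ℝ≥0 → ProbabilityMeasure I} {x : I} {t : ℝ≥0}
    (h : ∀ u, t ≤ u → (r u : Measure I) {x} = 0) : extinctionTime r x ≤ (t : ℝ≥0∞) := by
  unfold extinctionTime
  refine iSup₂_le fun u hu => ?_
  have : u ≤ t := by
    by_contra hcon
    rw [h u (not_le.1 hcon).le] at hu
    exact lt_irrefl _ hu
  exact_mod_cast this

theorem null_of_extinctionTime_lt {r : ℝ≥0 → ProbabilityMeasure I} {x : I} {t : ℝ≥0}
    (h : extinctionTime r x < (t : ℝ≥0∞)) : (r t : Measure I) {x} = 0 := by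
  by_contra hcon
  exact absurd (le_extinctionTime (r := r) (x := x) (pos_iff_ne_zero.2 hcon)) (not_le.2 h)

/-- The isolation of a type: from a rational time on, an open set whose mass is the mass of the
type. -/
theorem isolate {r : ℝ≥0 → ProbabilityMeasure I} (hr : GoodPath r) (s : ℝ≥0) (hs : s ∈ QT)
    (S : Set I) (hSf : S.Finite) (hS : (r s : Measure I) Sᶜ = 0) (x : I) (U : Set I)
    (hxU : x ∈ U) (hUS : U ∩ S ⊆ {x}) (t : ℝ≥0) (hst : s ≤ t) :
    (r t : Measure I) U = (r t : Measure I) {x} := by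
  have h0 : (r t : Measure I) Sᶜ = 0 :=
    open_null hr Sᶜ hSf.isClosed.isOpen_compl s t hs hst hS
  apply le_antisymm
  · have hsub : U ⊆ {x} ∪ Sᶜ := by
      intro y hy
      by_cases hyS : y ∈ S
      · exact Or.inl (hUS ⟨hy, hyS⟩)
      · exact Or.inr hyS
    refine (measure_mono hsub).trans ((measure_union_le _ _).trans ?_)
    rw [h0, add_zero]
  · exact measure_mono (Set.singleton_subset_iff.2 hxU)

/-- Deterministic part of the reduction. -/
theorem reduce {Ω : Type*} {ρ : ℝ≥0 → Ω → ProbabilityMeasure I} {ω : Ω}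
    (hr : GoodPath fun t => ρ t ω)
    (hAA : ∀ U ∈ countableBasis I, ∀ V ∈ countableBasis I, Disjoint U V →
      ω ∉ AA ρ U V ∧ ∃ n : ℕ, ω ∉ Al ρ U V (n : ℝ≥0))
    (x y : I) (hxy : x ≠ y) (hx : Ancestral (fun t => ρ t ω) x)
    (hy : Ancestral (fun t => ρ t ω) y) :
    extinctionTime (fun t => ρ t ω) x ≠ extinctionTime (fun t => ρ t ω) y := by
  intro heq
  obtain ⟨t₁, ht₁, hxt⟩ := hx
  obtain ⟨t₂, ht₂, hyt⟩ := hy
  obtain ⟨s, hsQ, hs0, hs1⟩ := QT_between (lt_min ht₁ ht₂)
  have hst₁ : s < t₁ := lt_of_lt_of_le hs1 (min_le_left _ _)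
  have hst₂ : s < t₂ := lt_of_lt_of_le hs1 (min_le_right _ _)
  obtain ⟨S, hSf, hS⟩ := hr.fin s hsQ hs0
  -- the two open sets
  obtain ⟨O₁, O₂, hO₁, hO₂, hxO, hyO, hdO⟩ := t2_separation hxy
  have hfin₁ : IsOpen (O₁ ∩ (S \ {x})ᶜ) := hO₁.inter (hSf.sdiff).isClosed.isOpen_compl
  have hfin₂ : IsOpen (O₂ ∩ (S \ {y})ᶜ) := hO₂.inter (hSf.sdiff).isClosed.isOpen_compl
  obtain ⟨U, hUB, hxU, hU⟩ := (isBasis_countableBasis I).exists_subset_of_mem_open
    (show x ∈ O₁ ∩ (S \ {x})ᶜ from ⟨hxO, fun h => h.2 rfl⟩) hfin₁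
  obtain ⟨V, hVB, hyV, hV⟩ := (isBasis_countableBasis I).exists_subset_of_mem_open
    (show y ∈ O₂ ∩ (S \ {y})ᶜ from ⟨hyO, fun h => h.2 rfl⟩) hfin₂
  have hUo : IsOpen U := isOpen_of_mem_countableBasis hUB
  have hVo : IsOpen V := isOpen_of_mem_countableBasis hVB
  have hdUV : Disjoint U V := Disjoint.mono (hU.trans Set.inter_subset_left)
    (hV.trans Set.inter_subset_left) hdO
  have hUS : U ∩ S ⊆ {x} := by
    rintro z ⟨hz1, hz2⟩
    by_contra hne
    exact (hU hz1).2 ⟨hz2, hne⟩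
  have hVS : V ∩ S ⊆ {y} := by
    rintro z ⟨hz1, hz2⟩
    by_contra hne
    exact (hV hz1).2 ⟨hz2, hne⟩
  have eU : ∀ t, s ≤ t → (ρ t ω : Measure I) U = (ρ t ω : Measure I) {x} := fun t ht =>
    isolate hr s hsQ S hSf hS x U hxU hUS t ht
  have eV : ∀ t, s ≤ t → (ρ t ω : Measure I) V = (ρ t ω : Measure I) {y} := fun t ht =>
    isolate hr s hsQ S hSf hS y V hyV hVS t ht
  obtain ⟨hnAA, n₀, hn₀⟩ := hAA U hUB V hVB hdUV
  -- aliveness before the extinction time
  have alive : ∀ (W : Set I) (hW : IsOpen W) (z : I)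
      (eW : ∀ t, s ≤ t → (ρ t ω : Measure I) W = (ρ t ω : Measure I) {z}),
      ∀ t ∈ QT, (s : ℝ≥0∞) < extinctionTime (fun t => ρ t ω) z →
        (t : ℝ≥0∞) < extinctionTime (fun t => ρ t ω) z → 0 < X ρ W t ω := by
    intro W hW z eW t ht hsz htz
    have hne : (ρ t ω : Measure I) W ≠ 0 := by
      intro h0
      have hmax : extinctionTime (fun t => ρ t ω) z ≤ ((max s t : ℝ≥0) : ℝ≥0∞) := by
        refine extinctionTime_le fun u hu => ?_
        rw [← eW u ((le_max_left _ _).trans hu)]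
        exact open_null hr W hW t u ht ((le_max_right _ _).trans hu) h0
      rcases le_total s t with hst | hst
      · rw [max_eq_right hst] at hmax
        exact absurd htz (not_lt.2 hmax)
      · rw [max_eq_left hst] at hmax
        exact absurd hsz (not_lt.2 hmax)
    unfold X
    rw [measureReal_def]
    exact ENNReal.toReal_pos hne (measure_ne_top _ _)
  have hsx : (s : ℝ≥0∞) < extinctionTime (fun t => ρ t ω) x := by
    refine lt_of_lt_of_le ?_ (le_extinctionTime (r := fun t => ρ t ω) hxt)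
    exact_mod_cast hst₁
  have hsy : (s : ℝ≥0∞) < extinctionTime (fun t => ρ t ω) y := by
    rw [← heq]
    exact hsx
  have aliveAl : ∀ t ∈ QT, (t : ℝ≥0∞) < extinctionTime (fun t => ρ t ω) x →
      ω ∈ Al ρ U V t := fun t ht hlt =>
    ⟨alive U hUo x eU t ht hsx hlt, alive V hVo y eV t ht hsy (by rw [← heq]; exact hlt)⟩
  rcases eq_or_ne (extinctionTime (fun t => ρ t ω) x) ⊤ with htop | htop
  · refine hn₀ (aliveAl _ (QT_natCast n₀) ?_)
    rw [htop]
    exact ENNReal.coe_lt_top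
  · obtain ⟨e, he⟩ : ∃ e : ℝ≥0, (e : ℝ≥0∞) = extinctionTime (fun t => ρ t ω) x :=
      ⟨_, ENNReal.coe_toNNReal htop⟩
    have hse : s < e := by
      rw [← he] at hsx
      exact_mod_cast hsx
    refine hnAA (Set.mem_iInter.2 fun m => ?_)
    have hlt : max s (e - 1 / ((m : ℝ≥0) + 1)) < e := by
      refine max_lt hse (tsub_lt_self (lt_of_le_of_lt zero_le hse) (by positivity))
    obtain ⟨t, htQ, ht1, ht2⟩ := QT_between hlt
    have hst : s < t := lt_of_le_of_lt (le_max_left _ _) ht1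
    have het : e < t + 1 / ((m : ℝ≥0) + 1) := by
      have := lt_of_le_of_lt (le_max_right _ _) ht1
      by_contra hcon
      exact absurd this (not_lt.2 (le_tsub_of_add_le_right (not_lt.1 hcon)))
    refine ⟨t, htQ, aliveAl t htQ ?_, fun u huQ hle => ?_⟩
    · rw [← he]
      exact_mod_cast ht2
    · have heu : e < u := lt_of_lt_of_le het hle
      have hsu : s ≤ u := (hse.trans heu).le
      have h1 : extinctionTime (fun t => ρ t ω) x < (u : ℝ≥0∞) := by
        rw [← he]
        exact_mod_cast heu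
      have h2 : extinctionTime (fun t => ρ t ω) y < (u : ℝ≥0∞) := by
        rw [← heq]
        exact h1
      have h3 := null_of_extinctionTime_lt h1
      have h4 := null_of_extinctionTime_lt h2
      unfold X
      rw [measureReal_def, measureReal_def, eU u hsu, eV u hsu, h3, h4]
      simp

end Pool.Agent.Lib.MP_939494_pr
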