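import Pool.Agent.Lib.MP_939494_pr.Null

/-!
# Finite support at positive times
-/

open MeasureTheory Finset Filter Topology
open scoped ENNReal NNReal unitInterval

namespace Pool.Agent.Lib.MP_939494_pr

/-- The samples with at most `K` distinct values. -/
def Dn (n K : ℕ) : Set (Fin n → I) := {y | ∀ e : Fin (K + 1) → Fin n, ¬ Function.Injective (y ∘ e)}

theorem Dn_measurable (n K : ℕ) : MeasurableSet (Dn n K) := by
  have e1 : Dn n K = ⋂ e : Fin (K + 1) → Fin n, {y | ¬ Function.Injective (y ∘ e)} := by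
    ext y
    simp [Dn]
  rw [e1]
  refine MeasurableSet.iInter fun e => ?_
  have e2 : {y : Fin n → I | ¬ Function.Injective (y ∘ e)} =
      ⋃ i : Fin (K + 1), ⋃ j : Fin (K + 1), {y : Fin n → I | i ≠ j ∧ y (e i) = y (e j)} := by
    ext y
    simp only [Function.Injective, Function.comp, Set.mem_ofPred_eq, Set.mem_iUnion, not_forall]
    constructor
    · rintro ⟨i, j, h1, h2⟩
      exact ⟨i, j, h2, h1⟩
    · rintro ⟨i, j, h1, h2⟩
      exact ⟨i, j, h2, h1⟩
  rw [e2]
  refine MeasurableSet.iUnion fun i => MeasurableSet.iUnion fun j => ?_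
  by_cases hij : i = j
  · have : {y : Fin n → I | i ≠ j ∧ y (e i) = y (e j)} = ∅ := by
      ext y
      simp [hij]
    rw [this]
    exact MeasurableSet.empty
  · have : {y : Fin n → I | i ≠ j ∧ y (e i) = y (e j)} = {y | y (e i) = y (e j)} := by
      ext y
      simp [hij]
    rw [this]
    exact measurableSet_eq_fun (measurable_pi_apply _) (measurable_pi_apply _)

theorem blockOf_mem_Dn {n K : ℕ} (π : Part n) (hπ : π.parts.card ≤ K) (z : π.parts → I) :
    (fun i => z (blockOf π i)) ∈ Dn n K := by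
  intro e he
  have h1 : Function.Injective (blockOf π ∘ e) := by
    intro i j hij
    refine he ?_
    simp only [Function.comp] at hij ⊢
    rw [hij]
  have h2 := Fintype.card_le_of_injective _ h1
  rw [Fintype.card_fin, Fintype.card_coe] at h2
  omega

theorem Dn_tendsto (ν : Measure I) [IsProbabilityMeasure ν]
    (hν : ∀ S : Set I, S.Finite → ν Sᶜ ≠ 0) (K : ℕ) :
    Tendsto (fun n : ℕ => (Measure.pi fun _ : Fin n => ν) (Dn n K)) atTop (𝓝 0) := by
  have hinf : ν.support.Infinite := fun hfin =>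
    hν _ hfin (Measure.measure_compl_support)
  obtain ⟨T, hTs, hTc⟩ := hinf.exists_subset_card_eq (K + 1)
  obtain ⟨W, hW, hdisj⟩ := (T.finite_toSet).t2_separation
  have hpos : ∀ x ∈ T, 0 < ν (W x) := fun x hx =>
    (Measure.mem_support_iff_forall x).1 (hTs hx) (W x) ((hW x).2.mem_nhds (hW x).1)
  have hlt : ∀ x ∈ T, ν (W x)ᶜ < 1 := by
    intro x hx
    rw [prob_compl_eq_one_sub (hW x).2.measurableSet]
    exact ENNReal.sub_lt_self ENNReal.one_ne_top one_ne_zero (hpos x hx).ne'
  have hbound : ∀ n : ℕ, (Measure.pi fun _ : Fin n => ν) (Dn n K) ≤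
      ∑ x ∈ T, ν (W x)ᶜ ^ n := by
    intro n
    have hsub : Dn n K ⊆ ⋃ x ∈ T, Set.pi Set.univ fun _ : Fin n => (W x)ᶜ := by
      intro y hy
      by_contra hcon
      simp only [Set.mem_iUnion, Set.mem_pi, Set.mem_univ, true_imp_iff, exists_prop, not_exists,
        not_and, not_forall, Set.mem_compl_iff, not_not] at hcon
      choose j hj using hcon
      have eqv : Fin (K + 1) ≃ T := (Fintype.equivFinOfCardEq (by
        rw [Fintype.card_coe, hTc])).symm
      refine hy (fun i => j (eqv i) (eqv i).2) ?_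
      intro a b hab
      simp only [Function.comp] at hab
      have ha := hj (eqv a) (eqv a).2
      have hb := hj (eqv b) (eqv b).2
      rw [← hab] at hb
      have : (eqv a : I) = eqv b := by
        by_contra hne
        exact (Set.disjoint_left.1 (hdisj (eqv a).2 (eqv b).2 hne)) ha hb
      exact eqv.injective (Subtype.ext this)
    refine (measure_mono hsub).trans ((measure_biUnion_finset_le _ _).trans ?_)
    refine Finset.sum_le_sum fun x _ => ?_
    rw [Measure.pi_pi, Finset.prod_const, Finset.card_univ, Fintype.card_fin]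
  have hlim : Tendsto (fun n : ℕ => ∑ x ∈ T, ν (W x)ᶜ ^ n) atTop (𝓝 (∑ x ∈ T, 0)) :=
    tendsto_finsetSum _ fun x hx => ENNReal.tendsto_pow_atTop_nhds_zero_of_lt_one (hlt x hx)
  rw [Finset.sum_const_zero] at hlim
  exact tendsto_of_tendsto_of_tendsto_of_le_of_le tendsto_const_nhds hlim
    (fun _ => zero_le) hbound

section

variable {Λ : Measure I} {Ω : Type*} [mΩ : MeasurableSpace Ω] {μ : Measure Ω}
  {ℱ : Filtration ℝ≥0 mΩ} {ρ : ℝ≥0 → Ω → ProbabilityMeasure I}

theorem measurable_pi_rho (h : IsLambdaFlemingViot Λ μ ℱ ρ) (t : ℝ≥0) (n : ℕ) :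
    Measurable fun ω => (Measure.pi fun _ : Fin n => (ρ t ω : Measure I)) := by
  refine Measurable.measure_of_isPiSystem_of_isProbabilityMeasure
    generateFrom_pi.symm isPiSystem_pi ?_
  rintro _ ⟨s, hs, rfl⟩
  simp_rw [Measure.pi_pi]
  refine Finset.measurable_prod _ fun i _ => ?_
  exact (h.adapted t (s i) (hs i (Set.mem_univ i))).mono (ℱ.le t) le_rfl

variable [IsProbabilityMeasure μ]

theorem Dn_lintegral (h : IsLambdaFlemingViot Λ μ ℱ ρ) (t : ℝ≥0) (ε : ℝ) (n K : ℕ)
    (hK : ∑ π : Part n with K < π.parts.card, coalProb Λ n t π ≤ ε) :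
    ENNReal.ofReal (1 - ε) ≤
      ∫⁻ ω, (Measure.pi fun _ : Fin n => (ρ t ω : Measure I)) (Dn n K) ∂μ := by
  have hd := h.duality n ((Dn n K).indicator fun _ => (1 : ℝ≥0∞))
    (measurable_const.indicator (Dn_measurable n K)) 0 t zero_le Set.univ MeasurableSet.univ
  rw [setLIntegral_univ, setLIntegral_univ] at hd
  have e1 : ∀ ω, ∫⁻ y, (Dn n K).indicator (fun _ => (1 : ℝ≥0∞)) y
      ∂(Measure.pi fun _ : Fin n => (ρ t ω : Measure I)) =
      (Measure.pi fun _ : Fin n => (ρ t ω : Measure I)) (Dn n K) := by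
    intro ω
    rw [lintegral_indicator (Dn_measurable n K), lintegral_const,
      Measure.restrict_apply MeasurableSet.univ, Set.univ_inter, one_mul]
  simp_rw [e1] at hd
  rw [hd]
  have ht : (0 : ℝ) ≤ t := NNReal.coe_nonneg t
  have e2 : (t : ℝ) - ((0 : ℝ≥0) : ℝ) = t := by simp
  rw [e2]
  have h1 : ∑ π : Part n with K < π.parts.card, coalProb Λ n t π +
      ∑ π : Part n with ¬ K < π.parts.card, coalProb Λ n t π = 1 := by
    rw [Finset.sum_filter_add_sum_filter_not, coalProb_sum Λ n t ht]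
  have h3 : 1 - ε ≤ ∑ π : Part n with ¬ K < π.parts.card, coalProb Λ n t π := by linarith
  calc ENNReal.ofReal (1 - ε)
      ≤ ENNReal.ofReal (∑ π : Part n with ¬ K < π.parts.card, coalProb Λ n t π) :=
        ENNReal.ofReal_le_ofReal h3
    _ = ∑ π : Part n with ¬ K < π.parts.card, ENNReal.ofReal (coalProb Λ n t π) :=
        ENNReal.ofReal_sum_of_nonneg fun π _ => coalProb_nonneg Λ n t ht π
    _ = ∫⁻ _, ∑ π : Part n with ¬ K < π.parts.card, ENNReal.ofReal (coalProb Λ n t π) ∂μ := by
        rw [lintegral_const, measure_univ, mul_one]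
    _ ≤ _ := by
        refine lintegral_mono fun ω => ?_
        refine le_trans ?_ (Finset.sum_le_sum_of_subset_of_nonneg (Finset.filter_subset
          (fun π : Part n => ¬ K < π.parts.card) _) fun _ _ _ => zero_le)
        refine Finset.sum_le_sum fun π hπ => ?_
        rw [Finset.mem_filter] at hπ
        have e3 : ∀ z : π.parts → I, (Dn n K).indicator (fun _ => (1 : ℝ≥0∞))
            (fun i => z (blockOf π i)) = 1 := fun z =>
          Set.indicator_of_mem (blockOf_mem_Dn π (by omega) z) _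
        simp_rw [e3]
        rw [lintegral_const, measure_univ, mul_one, mul_one]

/-- At a positive time the process has almost surely finite support. -/
theorem finite_support (h : IsLambdaFlemingViot Λ μ ℱ ρ) (hC : ComesDownFromInfinity Λ)
    (t : ℝ≥0) (ht : 0 < t) :
    ∀ᵐ ω ∂μ, ∃ S : Set I, S.Finite ∧ (ρ t ω : Measure I) Sᶜ = 0 := by
  set Bd : Set Ω := {ω | ¬ ∃ S : Set I, S.Finite ∧ (ρ t ω : Measure I) Sᶜ = 0} with hBd
  rw [ae_iff]
  change μ Bd = 0
  have key : ∀ ε : ℝ, 0 < ε → μ Bd ≤ ENNReal.ofReal ε := by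
    intro ε hε
    obtain ⟨K, hK⟩ := hC (t : ℝ) (by exact_mod_cast ht) ε hε
    set Z : ℕ → Ω → ℝ≥0∞ := fun n ω =>
      (Measure.pi fun _ : Fin n => (ρ t ω : Measure I)) (Dn n K) with hZ
    have hZm : ∀ n, Measurable (Z n) := fun n =>
      (Measure.measurable_coe (Dn_measurable n K)).comp (measurable_pi_rho h t n)
    have hZ1 : ∀ n ω, Z n ω ≤ 1 := fun n ω => prob_le_one
    have hlow : ENNReal.ofReal (1 - ε) ≤ ∫⁻ ω, limsup (fun n => Z n ω) atTop ∂μ := by
      have h1 := limsup_lintegral_le (μ := μ) (f := Z) (fun _ => (1 : ℝ≥0∞)) hZm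
        (fun n => ae_of_all _ (hZ1 n)) (by simp)
      refine le_trans ?_ h1
      refine le_limsup_of_frequently_le' ?_
      exact Frequently.of_forall fun n => Dn_lintegral h t ε n K (hK n)
    have hNm : MeasurableSet {ω | limsup (fun n => Z n ω) atTop = 0} :=
      (Measurable.limsup hZm) (measurableSet_singleton 0)
    have hup : ∫⁻ ω, limsup (fun n => Z n ω) atTop ∂μ ≤
        μ {ω | limsup (fun n => Z n ω) atTop = 0}ᶜ := by
      rw [← lintegral_indicator_one hNm.compl]
      refine lintegral_mono fun ω => ?_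
      by_cases hω : limsup (fun n => Z n ω) atTop = 0
      · rw [hω]
        exact zero_le
      · rw [Set.indicator_of_mem (show ω ∈ {ω | limsup (fun n => Z n ω) atTop = 0}ᶜ from hω)]
        simp only [Pi.one_apply]
        exact limsup_le_of_le (h := Eventually.of_forall fun n => hZ1 n ω)
    have hsub : Bd ⊆ {ω | limsup (fun n => Z n ω) atTop = 0} := by
      intro ω hω
      simp only [Set.mem_ofPred_eq, hBd, not_exists, not_and] at hω ⊢
      exact (Dn_tendsto (ρ t ω : Measure I) hω K).limsup_eq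
    have hfin : ENNReal.ofReal (1 - ε) ≤ μ {ω | limsup (fun n => Z n ω) atTop = 0}ᶜ :=
      hlow.trans hup
    have h2 : μ {ω | limsup (fun n => Z n ω) atTop = 0} +
        μ {ω | limsup (fun n => Z n ω) atTop = 0}ᶜ = 1 := prob_add_prob_compl hNm
    have h3 : μ.real {ω | limsup (fun n => Z n ω) atTop = 0} +
        μ.real {ω | limsup (fun n => Z n ω) atTop = 0}ᶜ = 1 :=
      probReal_add_probReal_compl hNm
    have h4 : 1 - ε ≤ μ.real {ω | limsup (fun n => Z n ω) atTop = 0}ᶜ := by
      have := ENNReal.toReal_mono (measure_ne_top _ _) hfin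
      rcases le_or_gt 0 (1 - ε) with hε1 | hε1
      · rwa [ENNReal.toReal_ofReal hε1] at this
      · exact hε1.le.trans measureReal_nonneg
    refine (measure_mono hsub).trans ?_
    rw [← ofReal_measureReal]
    exact ENNReal.ofReal_le_ofReal (by linarith)
  refine le_antisymm (le_of_forall_pos_le_add fun ε hε => ?_) zero_le
  rcases eq_or_ne ε ⊤ with rfl | hε'
  · simp
  · have := key ε.toReal (ENNReal.toReal_pos hε.ne' hε')
    rw [ENNReal.ofReal_toReal hε'] at this
    rwa [zero_add]

end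

end Pool.Agent.Lib.MP_939494_pr
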